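import Pool.Agent.Lib.SmL.C.RecD
import Pool.Agent.Lib.SmL.F.Defs

/-!
# SMITH-L, arithmetic: the standard data of a global function field, definitions

`NNt N0`: the open normal subgroups `N` of `Gal(Ω / K)` with `[N0 : N ∩ N0]` prime to the characteristic.
`TameN N0`: `N0` is open, normal and contains the elements of the inertia groups (for all places of `Ω`)
which have a power `p^m` in `N0` (so `N0 = Gal(Ω / K')`, `K' / K` tame).
`Std l ζ NN w sg ph`: `w v` = a place of `Ω` above `v`, `sg v` a tame generator normalised by `ζ`, `ph v` a Frobenius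
element. `bK` = the corresponding `Bs`.
-/

set_option autoImplicit false

namespace Pool.Agent.SmL.Fld

open Pool.Agent.BSDFF Pool.Agent.Lib.SmD Pool.Agent.GBU Pool.Agent.SmL.Ar Pool.Agent.SmL.C

section gal

variable {K Ω : Type} [Field K] [Field Ω] [Algebra K Ω]

/-- The family of open normal subgroups. -/
def NNt (N0 : Subgroup (Ω ≃ₐ[K] Ω)) : Set (Subgroup (Ω ≃ₐ[K] Ω)) :=
  {N | N.Normal ∧ IsOpen (N : Set (Ω ≃ₐ[K] Ω)) ∧ ((N.relIndex N0 : ℕ) : K) ≠ 0}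

/-- `N0` is open, normal and tame. -/
structure TameN (N0 : Subgroup (Ω ≃ₐ[K] Ω)) : Prop where
  normal : N0.Normal
  isOpen : IsOpen (N0 : Set (Ω ≃ₐ[K] Ω))
  tame : ∀ w : ValuationSubring Ω, w ≠ ⊤ → ∀ s ∈ iner K w, ∀ m : ℕ,
    s ^ (ringChar K ^ m) ∈ N0 → s ∈ N0

end gal

variable {k K Ω : Type} [Field k] [Field K] [Algebra k K] [Field Ω] [Algebra K Ω]

/-- The standard `Bs`. -/
noncomputable def bK (NN : Set (Subgroup (Ω ≃ₐ[K] Ω))) (w : Place k K → ValuationSubring Ω)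
    (sg ph : Place k K → Ω ≃ₐ[K] Ω) : Bs (Ω ≃ₐ[K] Ω) (Place k K) :=
  ⟨NN, fun v => dec K (w v), sg, ph, fun v => Nat.card k ^ v.degree⟩

/-- The standard data. -/
structure Std (l : ℕ) (ζ : Ω) (NN : Set (Subgroup (Ω ≃ₐ[K] Ω)))
    (w : Place k K → ValuationSubring Ω) (sg ph : Place k K → Ω ≃ₐ[K] Ω) : Prop where
  fam : FamL k l NN
  fi : ∀ N ∈ NN, N.FiniteIndex
  loc : LocL l ζ NN w sg ph
  frob : ∀ v, IsFrob K (w v) (ph v)
  gen : ∀ v, ∀ N ∈ NN, ∀ s ∈ dec K (w v),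
    ∃ t ∈ Subgroup.closure {ph v, sg v}, t⁻¹ * s ∈ N
  igen : ∀ v, ∀ N ∈ NN, ∀ s ∈ iner K (w v), ∃ n : ℕ, (sg v ^ n)⁻¹ * s ∈ N
  tame : ∀ v, ∀ N ∈ NN, ∃ m : ℕ, 1 ≤ m ∧ sg v ^ m ∈ N ∧ Nat.Coprime m (Nat.card k ^ v.degree)
  unr : ∀ N ∈ NN, {v | sg v ∉ N}.Finite

/-- Homomorphisms to `ZMod l` with open kernel. -/
structure HomO (l : ℕ) (c : (Ω ≃ₐ[K] Ω) → ZMod l) : Prop where
  add : ∀ s t, c (s * t) = c s + c t
  fin : ∃ U : Subgroup (Ω ≃ₐ[K] Ω), IsOpen (U : Set (Ω ≃ₐ[K] Ω)) ∧ ∀ s ∈ U, c s = 0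

/-- `c` is unramified at the place `v`. -/
def UnrAt {l : ℕ} (v : Place k K) (c : (Ω ≃ₐ[K] Ω) → ZMod l) : Prop :=
  ∀ w : ValuationSubring Ω, below K w = v.ring → ∀ s ∈ iner K w, c s = 0

end Pool.Agent.SmL.Fld
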