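import Pool.Agent.Lib.SmL.Fld.Perm
import Pool.Agent.Lib.SmL.Ar.Summand

/-!
# SMITH-L, arithmetic: all facts for a direct summand of a permutation module
-/

set_option autoImplicit false

namespace Pool.Agent.SmL.Fld

open MulAction Pool.Agent.GBU Pool.Agent.BSDFF Pool.Agent.Lib.SmD Pool.Agent.SmL.Ar
  Pool.Agent.SmL.C Pool.Agent.SmL.F

section gen

variable {l : ℕ} {G Pl : Type*} [Group G] {B : Bs G Pl} {N : Type*} [AddCommGroup N]
  [Module (ZMod l) N] {a : G →* (N ≃ₗ[ZMod l] N)}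

/-- The Hasse principle for `H¹` from the version for finite sets. -/
theorem sha_of_shaT (hB : B.Ok l) (h : ∃ T0 : Finset Pl, ∀ T, T0 ⊆ T → ShaT B a T) {c : G → N}
    (hc : Z1 B a c) (hl : ∀ v, ∃ z, loc B v c = cob B a v z) : ∃ z, ∀ s, c s = a s z - z := by
  classical
  obtain ⟨T0, h⟩ := h
  obtain ⟨M, hM, hcM⟩ := hc.1
  have h1 : c 1 = 0 := by
    have h3 := hc.2 1 1
    rw [mul_one, map_one] at h3
    exact left_eq_add.1 h3
  refine h (T0 ∪ (hB.unr M hM).toFinset) Finset.subset_union_left c ⟨hc, fun v hv => ?_⟩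
    fun v _ => hl v
  have hv' : B.sg v ∈ M := by
    by_contra h3
    exact hv (Finset.mem_union_right _ ((hB.unr M hM).mem_toFinset.2 h3))
  have h3 := hcM 1 _ hv'
  rw [one_mul, h1] at h3
  exact h3

end gen

variable {k K : Type} [Field k] [Finite k] [Field K] [Algebra k K] [Algebra (RatFunc k) K]
  [IsScalarTower k (RatFunc k) K] [FiniteDimensional (RatFunc k) K]
  [Algebra.IsSeparable (RatFunc k) K] {Om : Type} [Field Om] [Algebra K Om] [IsSepClosure K Om]
  {w : Place k K → ValuationSubring Om} {sg ph : Place k K → Om ≃ₐ[K] Om} {l : ℕ} {ζ : Om}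
  {N0 : Subgroup (Om ≃ₐ[K] Om)}

/-- All facts for a self dual direct summand of a transitive permutation module. -/
theorem summ_gd (h2 : (2 : k) ≠ 0) (hl : l.Prime) (hl2 : l ≠ 2) (hζ : IsPrimitiveRoot ζ l)
    (hζK : ∃ z : K, algebraMap K Om z = ζ) (h0 : TameN N0) (hS : Std l ζ (NNt N0) w sg ph)
    (hCh : (bK (NNt N0) w sg ph).Cheb1)
    {X : Type} [MulAction (Om ≃ₐ[K] Om) X] [Fintype X] [IsPretransitive (Om ≃ₐ[K] Om) X]
    [Nonempty X] (hX : TrivX (bK (NNt N0) w sg ph) X) {N : Type} [AddCommGroup N]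
    [Module (ZMod l) N] {P : DP l (Om ≃ₐ[K] Om) N N} (ha : P.a' = P.a)
    (hsym : ∀ x y, P.e x y = P.e y x)
    (i : N →ₗ[ZMod l] (X → ZMod l)) (p : (X → ZMod l) →ₗ[ZMod l] N) (hpi : ∀ x, p (i x) = x)
    (i_ac : ∀ s y x, i (P.a s y) x = i y (s⁻¹ • x))
    (p_ac : ∀ s f, p (fun x => f (s⁻¹ • x)) = P.a s (p f))
    (adj : ∀ f y, P.e (p f) y = ∑ x, f x * i y x) :
    P.Gd (bK (NNt N0) w sg ph) ∧ ∃ T0 : Finset (Place k K), ∀ T, T0 ⊆ T →
      ShaT (bK (NNt N0) w sg ph) P.a T := by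
  obtain ⟨hG, hSha⟩ := perm_gd h2 hl hl2 hζ hζK h0 hS hCh hX
  have hB := std_ok hl hl2 hζ hζK hS
  have hsm : Smd (permP l (Om ≃ₐ[K] Om) X) P i p i p :=
    { πι := hpi
      πι' := hpi
      ι_ac := fun s x => by
        funext y
        rw [i_ac, permP_a]
      π_ac := fun s x => p_ac s x
      ι'_ac := fun s x => by
        funext y
        rw [ha, i_ac, permP_a']
      π'_ac := fun s x => by
        rw [ha]
        exact p_ac s x
      adj := fun x y => by
        rw [hsym x, adj, permP_e]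
        exact Finset.sum_congr rfl fun z _ => mul_comm _ _
      adj' := fun x y => by rw [adj, permP_e] }
  have hP := hsm.gd hB hG
  refine ⟨hP, exists_shaT' hB hP.ok.ker (fun c hc hl' => ?_) hP.gl.fin⟩
  exact hsm.sha (fun c hc hl => sha_of_shaT hB hSha hc hl) hc hl'

end Pool.Agent.SmL.Fld
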