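import Pool.Agent.Lib.GBU.Unit

/-!
# SMITH-L, arithmetic: the `S`-units modulo `l`-th powers

PORT of `GBU/Unit.lean` from `2` to `l` (many of the lemmas there are `private`: copy them). `card_mu`: the
kernel of the multiplication by `l` on the finite group of the constants `k_K^*` has `l` elements, because `K`
contains the `l`-th roots of unity (`IsPrimitiveRoot.card_rootsOfUnity`).
-/

set_option autoImplicit false

namespace Pool.Agent.SmL.Fld

open Pool.Agent.BSDFF Pool.Agent.GBC Pool.Agent.GBU

variable {k K : Type} [Field k] [Field K] [Algebra k K]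

/-- The `l`-th powers. -/
def Lth (l : ℕ) (K : Type) [Field K] : Subgroup Kˣ := (powMonoidHom l : Kˣ →* Kˣ).range

/-- The elements with order divisible by `l` outside of `S`. -/
def XSl (l : ℕ) (S : Set (Place k K)) : Subgroup Kˣ where
  carrier := {u | ∀ w, w ∉ S → (l : ℤ) ∣ ord w (u : K)}
  mul_mem' := by
    intro a b ha hb w hw
    rw [Units.val_mul, ord_mul w a.ne_zero b.ne_zero]
    exact dvd_add (ha w hw) (hb w hw)
  one_mem' := by
    intro w _
    rw [Units.val_one, ord_one]
    exact dvd_zero _
  inv_mem' := by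
    intro a ha w hw
    rw [Units.val_inv_eq_inv_val, ord_inv w a.ne_zero]
    exact (dvd_neg.2 (ha w hw))

/-- `α` of order divisible by `l` outside of `S` is an `S`-unit times an `l`-th power. -/
private theorem Unit_XSl_eq {l : ℕ} {S : Set (Place k K)}
    (hf : ∀ x : K, x ≠ 0 → {w : Place k K | ord w x ≠ 0}.Finite)
    (h : PrinOut S) : XSl l S = SU S ⊔ Lth l K := by
  classical
  apply le_antisymm
  · intro u hu
    have hfin := hf (u : K) u.ne_zero
    let D : Place k K →₀ ℤ := Finsupp.onFinset hfin.toFinset (fun w => ord w (u : K) / (l : ℤ))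
      fun w hw => by
        rw [Set.Finite.mem_toFinset]
        intro h0
        apply hw
        rw [h0]
        exact Int.zero_ediv _
    obtain ⟨x, hx, hxD⟩ := h D
    have h1 : u = (u * (Units.mk0 x hx ^ l)⁻¹) * Units.mk0 x hx ^ l := by
      rw [inv_mul_cancel_right]
    rw [h1]
    refine Subgroup.mul_mem_sup ?_ ⟨_, rfl⟩
    intro w hw
    rw [Units.val_mul, Units.val_inv_eq_inv_val, Units.val_pow_eq_pow_val, Units.val_mk0,
      ord_mul w u.ne_zero (inv_ne_zero (pow_ne_zero _ hx)), ord_inv w (pow_ne_zero _ hx),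
      ord_pow w hx, hxD w hw]
    have h3 : D w = ord w (u : K) / (l : ℤ) := rfl
    rw [h3, Int.mul_ediv_cancel' (hu w hw)]
    exact add_neg_cancel _
  · rw [sup_le_iff]
    constructor
    · intro u hu w hw
      rw [hu w hw]
      exact dvd_zero _
    · rintro _ ⟨v, rfl⟩ w _
      change (l : ℤ) ∣ ord w ((v ^ l : Kˣ) : K)
      rw [Units.val_pow_eq_pow_val, ord_pow w v.ne_zero]
      exact dvd_mul_right _ _

section count

variable (G : Geo k K) (S : Set (Place k K)) [Fintype S]

/-- The divisors of the `S`-units, as functions on `S`. -/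
private theorem Unit_mem_range_iff (f : S → ℤ) : f ∈ (ordS S).range ↔ divS S f ∈ Prin k K := by
  constructor
  · rintro ⟨u, rfl⟩
    refine ⟨((u.toMul : Kˣ) : K), Units.ne_zero _, fun w => ?_⟩
    by_cases hw : w ∈ S
    · exact (divS_apply S _ ⟨w, hw⟩).trans (ordS_apply S u ⟨w, hw⟩)
    · rw [divS_apply_out S _ hw]
      exact (u.toMul.2 w hw).symm
  · rintro ⟨x, hx, hxD⟩
    refine ⟨Additive.ofMul ⟨Units.mk0 x hx, fun w hw => ?_⟩, ?_⟩
    · rw [Units.val_mk0, ← hxD w, divS_apply_out S _ hw]
    · ext w
      rw [ordS_apply]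
      change ord w.1 x = f w
      rw [← hxD w.1, divS_apply]

include G

private theorem Unit_range_le : (ordS S).range ≤ (LinearMap.ker (degS S)).toAddSubgroup := by
  intro f hf
  rw [Submodule.mem_toAddSubgroup, LinearMap.mem_ker, ← degD_divS]
  exact degD_prin G ((Unit_mem_range_iff S f).1 hf)

variable [Finite k]

private theorem Unit_relIndex_range :
    (ordS S).range.relIndex (LinearMap.ker (degS S)).toAddSubgroup ≠ 0 := by
  have hfin := finite_pic0 G
  let N := (LinearMap.ker (degS S)).toAddSubgroup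
  let ψ : N →+ ((degHom k K).ker ⧸ (Prin k K).addSubgroupOf (degHom k K).ker) :=
    (QuotientAddGroup.mk' _).comp (((divS S).comp N.subtype).codRestrict (degHom k K).ker
      (fun f => by
        rw [AddMonoidHom.mem_ker]
        change degD (divS S f.1) = 0
        rw [degD_divS]
        exact f.2))
  have hker : ψ.ker = (ordS S).range.addSubgroupOf N := by
    ext f
    rw [AddMonoidHom.mem_ker, AddSubgroup.mem_addSubgroupOf, Unit_mem_range_iff]
    change (QuotientAddGroup.mk _ : (degHom k K).ker ⧸ _) = 0 ↔ _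
    rw [QuotientAddGroup.eq_zero_iff, AddSubgroup.mem_addSubgroupOf]
    rfl
  have h1 : (ordS S).range.relIndex N = ψ.ker.index := by rw [hker]; rfl
  rw [h1, AddSubgroup.index_ker]
  have : Finite ψ.range := inferInstance
  exact Nat.card_pos.ne'

omit [Finite k] in
private theorem Unit_finrank_ker (hS : S.Nonempty) :
    Module.finrank ℤ (LinearMap.ker (degS S)) + 1 = Fintype.card S := by
  classical
  have h1 := Submodule.finrank_quotient_add_finrank (LinearMap.ker (degS S))
  rw [Module.finrank_fintype_fun_eq_card, (degS S).quotKerEquivRange.finrank_eq] at h1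
  obtain ⟨w, hw⟩ := hS
  have h2 : Module.finrank ℤ (LinearMap.range (degS S)) = 1 := by
    apply le_antisymm
    · have := Submodule.finrank_le (LinearMap.range (degS S))
      rw [Module.finrank_self] at this
      exact this
    · rw [Nat.one_le_iff_ne_zero, ← Nat.pos_iff_ne_zero, Module.finrank_pos_iff]
      refine ⟨⟨degS S (Pi.single ⟨w, hw⟩ 1), ⟨_, rfl⟩⟩, 0, fun h => ?_⟩
      have h3 : degS S (Pi.single ⟨w, hw⟩ 1) = 0 := congrArg Subtype.val h
      rw [degS_apply, Finset.sum_eq_single ⟨w, hw⟩] at h3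
      · rw [Pi.single_eq_same, one_mul] at h3
        have := G.degree_pos w
        have h4 : w.degree = 0 := by exact_mod_cast h3
        omega
      · intro v _ hv
        rw [Pi.single_eq_of_ne hv, zero_mul]
      · intro h
        exact absurd (Finset.mem_univ _) h
  omega

private theorem Unit_finrank_range (hS : S.Nonempty) :
    Module.finrank ℤ (ordS S).range + 1 = Fintype.card S := by
  rw [← Unit_finrank_ker G S hS]
  congr 1
  have : (ordS S).range.IsFiniteRelIndex (LinearMap.ker (degS S)).toAddSubgroup :=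
    ⟨Unit_relIndex_range G S⟩
  have h1 : Module.Finite ℤ (LinearMap.ker (degS S)).toAddSubgroup :=
    inferInstanceAs (Module.Finite ℤ (LinearMap.ker (degS S)))
  have h2 : Module.IsTorsionFree ℤ (LinearMap.ker (degS S)).toAddSubgroup :=
    inferInstanceAs (Module.IsTorsionFree ℤ (LinearMap.ker (degS S)))
  exact AddSubgroup.finrank_eq_of_isFiniteRelIndex (Unit_range_le G S)

omit [Fintype S] in
private theorem Unit_finite_mu : Finite (ordS S).ker := by
  have h1 := LL_finite G (0 : Place k K →₀ ℤ)
  have h2 : Finite (LL (0 : Place k K →₀ ℤ)) := Module.finite_of_finite k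
  refine Finite.of_injective (β := LL (0 : Place k K →₀ ℤ))
    (fun u => ⟨(((u : Additive (SU S)).toMul : Kˣ) : K), ?_⟩) ?_
  · refine Or.inr fun w => ?_
    rw [Finsupp.zero_apply, neg_zero]
    by_cases hw : w ∈ S
    · have h3 := congrFun u.2 ⟨w, hw⟩
      rw [ordS_apply] at h3
      exact h3.ge
    · exact (u.1.toMul.2 w hw).ge
  · intro u v h
    apply Subtype.ext
    apply Additive.toMul.injective
    apply Subtype.ext
    apply Units.ext
    exact congrArg (fun x : LL (0 : Place k K →₀ ℤ) => (x : K)) h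

omit [Fintype S] in
private theorem Unit_card_mu {l : ℕ} (hl : l.Prime) (hζ : ∃ z : K, IsPrimitiveRoot z l) :
    (nsmulAddMonoidHom (α := Additive (SU S)) l).range.relIndex (ordS S).ker = l := by
  classical
  have hfin := Unit_finite_mu G S
  have hl0 : l ≠ 0 := hl.ne_zero
  have hsub : (nsmulAddMonoidHom (α := Additive (SU S)) l).range.addSubgroupOf (ordS S).ker =
      (nsmulAddMonoidHom (α := (ordS S).ker) l).range := by
    ext u
    rw [AddSubgroup.mem_addSubgroupOf]
    constructor
    · rintro ⟨v, hv⟩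
      have hv' : l • v = (u : Additive (SU S)) := hv
      have hvk : v ∈ (ordS S).ker := by
        rw [AddMonoidHom.mem_ker]
        have h3 := u.2
        rw [AddMonoidHom.mem_ker, ← hv', map_nsmul] at h3
        ext w
        have h4 := congrFun h3 w
        rw [Pi.smul_apply, nsmul_eq_mul, Pi.zero_apply] at h4
        rw [Pi.zero_apply]
        exact (mul_eq_zero.1 h4).resolve_left (by exact_mod_cast hl0)
      exact ⟨⟨v, hvk⟩, Subtype.ext hv'⟩
    · rintro ⟨v, rfl⟩
      exact ⟨v.1, rfl⟩
  have h3 : (nsmulAddMonoidHom (α := Additive (SU S)) l).range.relIndex (ordS S).ker =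
      (nsmulAddMonoidHom (α := (ordS S).ker) l).range.index := by
    rw [← hsub]
    rfl
  rw [h3]
  have h4 := AddSubgroup.card_mul_index (nsmulAddMonoidHom (α := (ordS S).ker) l).range
  have h5 := AddSubgroup.card_mul_index (nsmulAddMonoidHom (α := (ordS S).ker) l).ker
  rw [AddSubgroup.index_ker] at h5
  have h6 : 0 < Nat.card (nsmulAddMonoidHom (α := (ordS S).ker) l).range := Nat.card_pos
  have h7 : (nsmulAddMonoidHom (α := (ordS S).ker) l).range.index =
      Nat.card (nsmulAddMonoidHom (α := (ordS S).ker) l).ker := by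
    apply Nat.eq_of_mul_eq_mul_left h6
    rw [h4, ← h5, mul_comm]
  rw [h7]
  have hord : ∀ u : Kˣ, u ^ l = 1 → ∀ w : Place k K, ord w (u : K) = 0 := by
    intro u hu w
    have h8 : ord w (((u ^ l : Kˣ)) : K) = 0 := by
      rw [hu, Units.val_one, ord_one]
    rw [Units.val_pow_eq_pow_val, ord_pow w u.ne_zero] at h8
    exact (mul_eq_zero.1 h8).resolve_left (by exact_mod_cast hl0)
  have e : (nsmulAddMonoidHom (α := (ordS S).ker) l).ker ≃ rootsOfUnity l K :=
    { toFun := fun u => ⟨(((u.1 : Additive (SU S)).toMul : Kˣ)), by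
        rw [mem_rootsOfUnity]
        have h9 : l • u.1 = 0 := u.2
        have h10 : ((((l • u.1 : (ordS S).ker) : Additive (SU S)).toMul : SU S) : Kˣ) = 1 := by
          rw [h9]
          rfl
        exact h10⟩
      invFun := fun u => ⟨⟨Additive.ofMul ⟨u.1, fun w _ =>
          hord u.1 ((mem_rootsOfUnity _ _).1 u.2) w⟩, by
          rw [AddMonoidHom.mem_ker]
          ext w
          rw [ordS_apply]
          exact hord u.1 ((mem_rootsOfUnity _ _).1 u.2) w.1⟩, by
          rw [AddMonoidHom.mem_ker]
          apply Subtype.ext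
          apply Additive.toMul.injective
          apply Subtype.ext
          exact (mem_rootsOfUnity _ _).1 u.2⟩
      left_inv := fun u => rfl
      right_inv := fun u => rfl }
  have : NeZero l := ⟨hl0⟩
  obtain ⟨z, hz⟩ := hζ
  rw [Nat.card_congr e, hz.card_rootsOfUnity]

/-- U2 for the `S`-units, additive form -/
private theorem Unit_index_units {l : ℕ} (hl : l.Prime) (hζ : ∃ z : K, IsPrimitiveRoot z l)
    (hS : S.Nonempty) :
    (nsmulAddMonoidHom (α := Additive (SU S)) l).range.index = l ^ Fintype.card S := by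
  set P := (nsmulAddMonoidHom (α := Additive (SU S)) l).range with hP
  have h1 : P ≤ (ordS S).ker ⊔ P := le_sup_right
  have h3 := AddSubgroup.relIndex_mul_index h1
  have h4 : P.relIndex ((ordS S).ker ⊔ P) = l := by
    rw [AddSubgroup.relIndex_sup_right]
    exact Unit_card_mu G S hl hζ
  have h5 : ((ordS S).ker ⊔ P).index = l ^ Module.finrank ℤ (ordS S).range := by
    have e1 : (ordS S).ker ⊔ P = (P.map (ordS S)).comap (ordS S) := by
      rw [AddSubgroup.comap_map_eq, sup_comm]
    rw [e1, AddSubgroup.index_comap]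
    have e2 : P.map (ordS S) = (ordS S).range.map (nsmulAddMonoidHom (α := S → ℤ) l) := by
      ext f
      constructor
      · rintro ⟨_, ⟨u, rfl⟩, rfl⟩
        refine ⟨ordS S u, ⟨u, rfl⟩, ?_⟩
        exact (map_nsmul (ordS S) l u).symm
      · rintro ⟨_, ⟨u, rfl⟩, rfl⟩
        refine ⟨l • u, ⟨u, rfl⟩, ?_⟩
        exact map_nsmul (ordS S) l u
    rw [e2]
    exact AddSubgroup.relIndex_map_nsmul l (ordS S).range
  rw [h4, h5] at h3
  rw [← h3, ← Unit_finrank_range G S hS, pow_succ, mul_comm]

end count

/-- U2 for the units -/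
private theorem Unit_card_SU (G : Geo k K) [Finite k] {l : ℕ} (hl : l.Prime)
    (hζ : ∃ z : K, IsPrimitiveRoot z l) {S : Set (Place k K)} (hf : S.Finite) (hS : S.Nonempty) :
    (Lth l K).relIndex (SU S) = l ^ S.ncard := by
  have : Fintype S := hf.fintype
  have h1 := Unit_index_units G S hl hζ hS
  have hl0 : l ≠ 0 := hl.ne_zero
  have h3 : Subgroup.toAddSubgroup ((Lth l K).subgroupOf (SU S)) =
      (nsmulAddMonoidHom (α := Additive (SU S)) l).range := by
    ext u
    constructor
    · rintro ⟨v, hv⟩
      have hv' : v ^ l = (u.toMul : Kˣ) := hv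
      refine ⟨Additive.ofMul ⟨v, fun w hw => ?_⟩, ?_⟩
      · have h4 := u.toMul.2 w hw
        have h5 : ord w ((u.toMul : Kˣ) : K) = l * ord w (v : K) := by
          rw [← hv', Units.val_pow_eq_pow_val, ord_pow w v.ne_zero]
        have h6 : ord w ((u.toMul : Kˣ) : K) = 0 := h4
        rw [h5] at h6
        exact (mul_eq_zero.1 h6).resolve_left (by exact_mod_cast hl0)
      · apply Additive.toMul.injective
        apply Subtype.ext
        exact hv'
    · rintro ⟨v, rfl⟩
      exact ⟨(v.toMul : Kˣ), rfl⟩
  have h4 : (Lth l K).relIndex (SU S) = ((Lth l K).subgroupOf (SU S)).index := rfl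
  rw [h4, ← Subgroup.index_toAddSubgroup, h3, h1, ← Nat.card_eq_fintype_card]
  rfl

theorem card_XSl (G : Geo k K) [Finite k] {l : ℕ} (hl : l.Prime)
    (hζ : ∃ z : K, IsPrimitiveRoot z l) {S : Set (Place k K)} (hf : S.Finite) (hS : S.Nonempty)
    (h : PrinOut S) : Nat.card (XSl l S ⧸ (Lth l K).subgroupOf (XSl l S)) = l ^ S.ncard := by
  have h1 : Nat.card (XSl l S ⧸ (Lth l K).subgroupOf (XSl l S)) =
      (Lth l K).relIndex (XSl l S) := rfl
  rw [h1, Unit_XSl_eq (fun x hx => ord_finite G hx) h, Subgroup.relIndex_sup_right]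
  exact Unit_card_SU G hl hζ hf hS

end Pool.Agent.SmL.Fld
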