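import Pool.Agent.Lib.SmL.Fld.Chi
import Pool.Agent.Lib.SmL.Fld.Unit
import Pool.Agent.Lib.SmD.ValIner
import Pool.Agent.Lib.GBU.Plc
import Pool.Agent.Lib.GBC.E.Main

/-!
# SMITH-L, arithmetic: the number of the homomorphisms unramified outside of a finite set of places

`unrAt_chl_iff`: (⇐) `a = u π^(l m)`, `π` a uniformizer, `u` a unit at `v`, `r^l = a`: `r / π^m` is an `l`-th root of a unit and
is fixed by inertia (`root_fix_inerM`, `SmL/C/GalM.lean`). (⇒) `r` is fixed by the inertia group at `w`, so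
`w r = (w π)^n` (`value_iner`, as in `SmL/C/SgN.lean`), `ord v a = l n`.
`ncard_homO`: `u ↦ chl l ζ u` is a bijection of `XSl l S / Kˣ^l` onto the set (`kummer`, `chl_eq_zero_iff`), `card_XSl`.
-/

set_option autoImplicit false

namespace Pool.Agent.SmL.Fld

open Pool.Agent.BSDFF Pool.Agent.Lib.SmD Pool.Agent.GBU Pool.Agent.GBC Pool.Agent.SmL.C

variable {k K Ω : Type} [Field k] [Finite k] [Field K] [Algebra k K] [Algebra (RatFunc k) K]
  [IsScalarTower k (RatFunc k) K] [FiniteDimensional (RatFunc k) K]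
  [Algebra.IsSeparable (RatFunc k) K] [Field Ω] [Algebra K Ω] [IsSepClosure K Ω]
  {l : ℕ} {ζ : Ω}

omit [Finite k] [Algebra (RatFunc k) K] [IsScalarTower k (RatFunc k) K]
  [FiniteDimensional (RatFunc k) K] [Algebra.IsSeparable (RatFunc k) K] [IsSepClosure K Ω] in
/-- an element of order `0` is a unit above `v` -/
private theorem CardK_unit {v : Place k K} {w : ValuationSubring Ω} (hw : below K w = v.ring)
    {x : K} (hx : x ≠ 0) (h0 : ord v x = 0) : w.valuation (algebraMap K Ω x) = 1 := by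
  refine val_unit_below ?_ ?_ hx
  · rw [hw, mem_ring_iff v hx, h0]
  · rw [hw, mem_ring_iff v (inv_ne_zero hx), ord_inv v hx, h0, neg_zero]

omit [Finite k] [Algebra (RatFunc k) K] [IsScalarTower k (RatFunc k) K]
  [FiniteDimensional (RatFunc k) K] [Algebra.IsSeparable (RatFunc k) K] [IsSepClosure K Ω] in
private theorem CardK_val {v : Place k K} {w : ValuationSubring Ω} (hw : below K w = v.ring)
    {x π : K} (hx : x ≠ 0) (hπ0 : π ≠ 0) (hπ : ord v π = 1) :
    w.valuation (algebraMap K Ω x) = w.valuation (algebraMap K Ω π) ^ ord v x := by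
  have hp : π ^ ord v x ≠ 0 := zpow_ne_zero _ hπ0
  have h1 : w.valuation (algebraMap K Ω (x / π ^ ord v x)) = 1 := by
    refine CardK_unit hw (div_ne_zero hx hp) ?_
    rw [ord_div v hx hp, ord_zpow v hπ0, hπ, mul_one, sub_self]
  rw [map_div₀, map_div₀, map_zpow₀, map_zpow₀] at h1
  have h2 : w.valuation (algebraMap K Ω π) ^ ord v x ≠ 0 := by
    refine zpow_ne_zero _ ((Valuation.ne_zero_iff _).2 ?_)
    exact (map_ne_zero_iff _ (algebraMap K Ω).injective).2 hπ0
  exact (div_eq_one_iff_eq h2).1 h1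

theorem unrAt_chl_iff (h2 : (2 : k) ≠ 0) (hl : l.Prime) (hζ : IsPrimitiveRoot ζ l)
    (hζK : ∃ z : K, algebraMap K Ω z = ζ) {a : K} (ha : a ≠ 0) (v : Place k K) :
    UnrAt v (chl l ζ a : (Ω ≃ₐ[K] Ω) → ZMod l) ↔ (l : ℤ) ∣ ord v a := by
  classical
  have hsc : IsSepClosed Ω := IsSepClosure.sep_closed K
  have hgal : IsGalois K Ω := inferInstance
  have hl0 : NeZero l := ⟨hl.ne_zero⟩
  have hlΩ : NeZero ((l : ℕ) : Ω) := hζ.neZero'
  obtain ⟨r, hr⟩ := exists_root (K := K) hl hζ a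
  have hπ := unif_irreducible v
  obtain ⟨hπ0, hπ1⟩ := (irreducible_iff v (unif v)).1 hπ
  set π : K := (unif v : K) with hπdef
  have haΩ : algebraMap K Ω a ≠ 0 := (map_ne_zero_iff _ (algebraMap K Ω).injective).2 ha
  have hr0 : r ≠ 0 := by
    rintro rfl
    rw [zero_pow hl.ne_zero] at hr
    exact haΩ hr.symm
  constructor
  · intro h
    set w := abK Ω v with hw
    have hbel : below K w = v.ring := below_abK Ω v
    have hL : LocHyp K w π := locHyp_of_below h2 v w hbel hπ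
    have hfix : ∀ σ ∈ iner K w, σ r = r := by
      intro σ hσ
      have h1 := chl_spec hl hζ hζK ha σ hr
      rw [h w hbel σ hσ, ZMod.val_zero, pow_zero, one_mul] at h1
      exact h1
    obtain ⟨n, hn⟩ := value_iner hL hr0 hfix
    have h3 := CardK_val hbel ha hπ0 hπ1
    rw [← hr, map_pow, hn, ← zpow_natCast, ← zpow_mul] at h3
    have h4 := hL.zpow_inj h3
    exact ⟨n, by rw [← h4, mul_comm]⟩
  · rintro ⟨m, hm⟩ w hw s hs
    have hchar : CharOk w := charOk_of_finite k K w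
    have hwl : w.valuation (l : Ω) = 1 := hchar l hlΩ.out
    have hpm : π ^ m ≠ 0 := zpow_ne_zero _ hπ0
    have hpmΩ : algebraMap K Ω (π ^ m) ≠ 0 :=
      (map_ne_zero_iff _ (algebraMap K Ω).injective).2 hpm
    have hz : (r / algebraMap K Ω (π ^ m)) ^ l = algebraMap K Ω (a / (π ^ m) ^ l) := by
      rw [div_pow, hr, map_div₀, map_pow (algebraMap K Ω) (π ^ m) l]
    have hval : w.valuation (algebraMap K Ω (a / (π ^ m) ^ l)) = 1 := by
      refine CardK_unit hw (div_ne_zero ha (pow_ne_zero _ hpm)) ?_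
      rw [ord_div v ha (pow_ne_zero _ hpm), ord_pow v hpm, ord_zpow v hπ0, hπ1, hm, mul_one,
        sub_self]
    have hzv : w.valuation (r / algebraMap K Ω (π ^ m)) = 1 := by
      have h3 : w.valuation (r / algebraMap K Ω (π ^ m)) ^ l = 1 := by
        rw [← map_pow, hz, hval]
      exact (pow_eq_one_iff.1 h3).resolve_right hl.ne_zero
    have hfix : s (r / algebraMap K Ω (π ^ m)) = r / algebraMap K Ω (π ^ m) := by
      refine root_fix_inerM hwl hs hzv ?_
      rw [hz, AlgEquiv.commutes]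
    rw [map_div₀, AlgEquiv.commutes, div_left_inj' hpmΩ] at hfix
    have h4 := chl_eq_of hl hζ hζK ha (s := s) hr (i := 0) (by rw [pow_zero, one_mul]; exact hfix)
    rw [h4, Nat.cast_zero]

theorem ncard_homO (h2 : (2 : k) ≠ 0) (hl : l.Prime) (hζ : IsPrimitiveRoot ζ l)
    (hζK : ∃ z : K, algebraMap K Ω z = ζ) {S : Set (Place k K)} (hf : S.Finite)
    (hS : S.Nonempty) (h : PrinOut S) :
    {c : (Ω ≃ₐ[K] Ω) → ZMod l | HomO l c ∧ ∀ v, v ∉ S → UnrAt v c}.Finite ∧
    {c : (Ω ≃ₐ[K] Ω) → ZMod l | HomO l c ∧ ∀ v, v ∉ S → UnrAt v c}.ncard = l ^ S.ncard := by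
  classical
  set T := {c : (Ω ≃ₐ[K] Ω) → ZMod l | HomO l c ∧ ∀ v, v ∉ S → UnrAt v c} with hT
  obtain ⟨G, _⟩ := exists_geo k K
  have hζ' : ∃ z : K, IsPrimitiveRoot z l := by
    obtain ⟨z, hz⟩ := hζK
    refine ⟨z, ?_⟩
    rw [← hz] at hζ
    exact hζ.of_map_of_injective (algebraMap K Ω).injective
  have hcard := card_XSl G hl hζ' hf hS h
  have hadd : ∀ (u : Kˣ) (s : Ω ≃ₐ[K] Ω), chl l ζ ((u⁻¹ : Kˣ) : K) s = - chl l ζ (u : K) s := by
    intro u s
    have h1 := chl_mul hl hζ hζK (u.ne_zero) (u⁻¹.ne_zero) s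
    have h3 : chl l ζ (1 : K) s = 0 := by
      refine ((chl_eq_zero_iff hl hζ hζK (one_ne_zero)).2 ⟨1, one_pow _⟩) s
    rw [Units.mul_inv, h3] at h1
    exact (neg_eq_of_add_eq_zero_right h1.symm).symm
  have key : ∀ u u' : XSl l S, (QuotientGroup.leftRel ((Lth l K).subgroupOf (XSl l S))) u u' ↔
      (chl l ζ ((u : Kˣ) : K) : (Ω ≃ₐ[K] Ω) → ZMod l) = chl l ζ ((u' : Kˣ) : K) := by
    intro u u'
    rw [QuotientGroup.leftRel_apply, Subgroup.mem_subgroupOf]
    have hne : (((u⁻¹ * u' : XSl l S) : Kˣ) : K) ≠ 0 := Units.ne_zero _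
    have hz : (∀ s : Ω ≃ₐ[K] Ω, chl l ζ (((u⁻¹ * u' : XSl l S) : Kˣ) : K) s = 0) ↔
        (chl l ζ ((u : Kˣ) : K) : (Ω ≃ₐ[K] Ω) → ZMod l) = chl l ζ ((u' : Kˣ) : K) := by
      have h5 : ∀ s : Ω ≃ₐ[K] Ω, chl l ζ (((u⁻¹ * u' : XSl l S) : Kˣ) : K) s =
          - chl l ζ ((u : Kˣ) : K) s + chl l ζ ((u' : Kˣ) : K) s := by
        intro s
        rw [← hadd, ← chl_mul hl hζ hζK (Units.ne_zero _) (Units.ne_zero _)]
        rfl
      constructor
      · intro h6
        funext s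
        have h7 := h6 s
        rw [h5, neg_add_eq_zero] at h7
        exact h7
      · intro h6 s
        rw [h5, h6, neg_add_cancel]
    rw [← hz, chl_eq_zero_iff hl hζ hζK hne]
    constructor
    · rintro ⟨b, hb⟩
      exact ⟨(b : K), by rw [← hb]; rfl⟩
    · rintro ⟨b, hb⟩
      have hb0 : b ≠ 0 := by
        rintro rfl
        rw [zero_pow hl.ne_zero] at hb
        exact hne hb.symm
      refine ⟨Units.mk0 b hb0, Units.ext ?_⟩
      change (Units.mk0 b hb0 : Kˣ).val ^ l = _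
      rw [Units.val_mk0, hb]
  have hmem : ∀ u : XSl l S, (chl l ζ ((u : Kˣ) : K) : (Ω ≃ₐ[K] Ω) → ZMod l) ∈ T := fun u =>
    ⟨homO_chl hl hζ hζK (Units.ne_zero _), fun v hv =>
      (unrAt_chl_iff h2 hl hζ hζK (Units.ne_zero _) v).2 (u.2 v hv)⟩
  let f : (XSl l S ⧸ (Lth l K).subgroupOf (XSl l S)) → T :=
    Quotient.lift (fun u : XSl l S => (⟨chl l ζ ((u : Kˣ) : K), hmem u⟩ : T))
      (fun u u' h1 => Subtype.ext ((key u u').1 h1))
  have hbij : Function.Bijective f := by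
    constructor
    · intro x y
      induction x using Quotient.inductionOn with | _ x => ?_
      induction y using Quotient.inductionOn with | _ y => ?_
      intro h1
      exact Quotient.sound ((key x y).2 (congrArg Subtype.val h1))
    · rintro ⟨c, hc1, hc2⟩
      obtain ⟨a, ha, hca⟩ := hc1.kummer hl hζ hζK
      have hca' : c = chl l ζ a := funext hca
      subst hca'
      refine ⟨Quotient.mk _ ⟨Units.mk0 a ha, fun v hv => ?_⟩, ?_⟩
      · rw [Units.val_mk0]
        exact (unrAt_chl_iff h2 hl hζ hζK ha v).1 (hc2 v hv)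
      · apply Subtype.ext
        rfl
  have hT1 : Nat.card T = l ^ S.ncard := by
    rw [← hcard]
    exact (Nat.card_congr (Equiv.ofBijective f hbij)).symm
  have hpos : Nat.card T ≠ 0 := by
    rw [hT1]
    exact pow_ne_zero _ hl.ne_zero
  have hfin : Finite T := Nat.finite_of_card_ne_zero hpos
  refine ⟨Set.toFinite T, ?_⟩
  rw [← hT1]
  exact (Nat.card_coe_set_eq T).symm

end Pool.Agent.SmL.Fld
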