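import Pool.Agent.Lib.GBU.TG

/-!
# SMITH-L, arithmetic: tame inertia modulo a normal subgroup

Versions of `exists_ratio`, `tame_gen`, `tame_frob` of `GBU/Tame.lean` for an open normal subgroup `N` such
that every element of the inertia group has a power with exponent prime to the characteristic in `N`
(`TameAt`). In the proofs `N.index` is replaced by this exponent; the field of `N`:
`L = IntermediateField.fixedField N`, `L.fixingSubgroup = N` (`N` closed), finite and Galois over `K`.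

`tame_exp`: the exponent can be chosen prime to the order of the residue field below: the image of the
inertia group in `G / N` embeds into the units of the residue field of `w` (characteristic `p`), so it has no
element of order `p`.
-/

set_option autoImplicit false

open IsLocalRing

namespace Pool.Agent.SmL.Fld

open Pool.Agent.Lib.SmD Pool.Agent.SmD Pool.Agent.GBU

variable {K Ω : Type*} [Field K] [Field Ω] [Algebra K Ω]

/-- The image of the inertia group in `G / N` has order prime to the characteristic. -/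
def TameAt (w : ValuationSubring Ω) (N : Subgroup (Ω ≃ₐ[K] Ω)) : Prop :=
  ∀ s ∈ iner K w, ∃ n : ℕ, (n : K) ≠ 0 ∧ s ^ n ∈ N

variable [IsGalois K Ω] {w : ValuationSubring Ω} {π : K}

omit w π in
private theorem tameN_field {N : Subgroup (Ω ≃ₐ[K] Ω)}
    (hNn : N.Normal) (hNo : IsOpen (N : Set (Ω ≃ₐ[K] Ω))) :
    ∃ L : IntermediateField K Ω, FiniteDimensional K L ∧ IsGalois K L ∧ L.fixingSubgroup = N := by
  have hcl : IsClosed (N : Set (Ω ≃ₐ[K] Ω)) := N.isClosed_of_isOpen hNo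
  have e1 : (IntermediateField.fixedField N).fixingSubgroup = N :=
    InfiniteGalois.fixingSubgroup_fixedField ⟨N, hcl⟩
  have hfd : FiniteDimensional K (IntermediateField.fixedField N) := by
    rw [← InfiniteGalois.isOpen_iff_finite, e1]
    exact hNo
  have hgal : IsGalois K (IntermediateField.fixedField N) := by
    rw [← InfiniteGalois.normal_iff_isGalois, e1]
    exact hNn
  exact ⟨_, hfd, hgal, e1⟩

omit w π in
private theorem tameN_index {N : Subgroup (Ω ≃ₐ[K] Ω)}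
    (hNn : N.Normal) (hNo : IsOpen (N : Set (Ω ≃ₐ[K] Ω))) : N.FiniteIndex := by
  obtain ⟨L, hL, hLg, rfl⟩ := tameN_field hNn hNo
  refine ⟨?_⟩
  rw [index_fixingSubgroup]
  exact Module.finrank_pos.ne'

theorem exists_ratioN (h : LocHyp K w π) (hw : CharOk w) {N : Subgroup (Ω ≃ₐ[K] Ω)}
    (hNn : N.Normal) (hNo : IsOpen (N : Set (Ω ≃ₐ[K] Ω))) (hN : TameAt w N) :
    ∃ ϖ : Ω, ϖ ≠ 0 ∧ ∀ σ ∈ iner K w, rr w (σ ϖ / ϖ) = 1 ↔ σ ∈ N := by
  obtain ⟨L, hL, hLg, rfl⟩ := tameN_field hNn hNo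
  obtain ⟨ϖ, hϖL, hϖ0, -, hval⟩ := exists_unif h.pi_ne h.pi_lt h.disc L
  refine ⟨ϖ, hϖ0, fun σ hσ => ⟨fun h1 => ?_, fun h1 => ?_⟩⟩
  · have hLσ : ∀ x ∈ L, σ x ∈ L := by
      intro x hx
      have h2 := AlgEquiv.restrictNormal_commutes σ L ⟨x, hx⟩
      have h3 : ((AlgEquiv.restrictNormal σ L ⟨x, hx⟩ : L) : Ω) = σ x := h2
      rw [← h3]
      exact Subtype.mem _
    obtain ⟨n, hnK, hidx⟩ := hN σ hσ
    have hn0 : ((n : ℕ) : Ω) ≠ 0 := by
      rw [← map_natCast (algebraMap K Ω)]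
      exact (_root_.map_ne_zero _).2 hnK
    rw [IntermediateField.mem_fixingSubgroup_iff]
    refine tame_fix hσ.1 L hLσ ?_ hn0 (hw _ hn0) ?_
    · intro a haL ha0
      rw [← ratio_eq_one_iff hσ.1 ha0]
      obtain ⟨n, hn⟩ := hval a haL ha0
      have hzn : ϖ ^ n ≠ 0 := zpow_ne_zero _ hϖ0
      rw [ratio_eq hσ ha0 hzn (by rw [hn, map_zpow₀])]
      have hnat : ∀ m : ℕ, rr w (σ (ϖ ^ m) / ϖ ^ m) = 1 := by
        intro m
        rw [map_pow, ← div_pow, rr_pow (ratio_mem hσ.1 hϖ0), h1, one_pow]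
      obtain ⟨m, rfl | rfl⟩ := n.eq_nat_or_neg
      · rw [zpow_natCast]
        exact hnat m
      · rw [zpow_neg, zpow_natCast, ratio_eq_one_iff hσ.1 (inv_ne_zero (pow_ne_zero _ hϖ0))]
        have h2 := (ratio_eq_one_iff hσ.1 (pow_ne_zero m hϖ0)).1 (hnat m)
        have hb0 : ϖ ^ m ≠ 0 := pow_ne_zero _ hϖ0
        have hσb : σ (ϖ ^ m) ≠ 0 := (_root_.map_ne_zero σ).2 hb0
        have hv : w.valuation (σ (ϖ ^ m)) = w.valuation (ϖ ^ m) := dec_val_inv hσ.1 _
        have hvb : 0 < w.valuation (ϖ ^ m) := zero_lt_iff.2 ((Valuation.ne_zero_iff _).2 hb0)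
        have h3 : σ (ϖ ^ m)⁻¹ - (ϖ ^ m)⁻¹ = -(σ (ϖ ^ m) - ϖ ^ m) * ((σ (ϖ ^ m))⁻¹ * (ϖ ^ m)⁻¹) := by
          rw [map_inv₀]
          field_simp
          ring
        rw [h3, map_mul, Valuation.map_neg, map_mul, map_inv₀, map_inv₀, hv]
        rw [← mul_assoc]
        have h4 : w.valuation (σ (ϖ ^ m) - ϖ ^ m) * (w.valuation (ϖ ^ m))⁻¹ < 1 := by
          rw [← div_eq_mul_inv, div_lt_one₀ hvb]
          exact h2
        calc _ < 1 * (w.valuation (ϖ ^ m))⁻¹ := by
              exact mul_lt_mul_of_pos_right h4 (inv_pos.2 hvb)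
          _ = _ := one_mul _
    · intro x hx
      exact (IntermediateField.mem_fixingSubgroup_iff _ _).1 hidx x hx
  · rw [(IntermediateField.mem_fixingSubgroup_iff _ _).1 h1 ϖ hϖL, div_self hϖ0, rr_one]

/-- The image of the inertia group in `Gal(Ω / K) / N` is cyclic. -/
theorem tame_genN (h : LocHyp K w π) (hw : CharOk w) {N : Subgroup (Ω ≃ₐ[K] Ω)}
    (hNn : N.Normal) (hNo : IsOpen (N : Set (Ω ≃ₐ[K] Ω))) (hN : TameAt w N) :
    ∃ τ ∈ iner K w, ∀ σ ∈ iner K w, ∃ n : ℕ, (τ ^ n)⁻¹ * σ ∈ N := by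
  obtain ⟨ϖ, hϖ0, hker⟩ := exists_ratioN h hw hNn hNo hN
  have hfi := tameN_index hNn hNo
  let f : iner K w →* ResidueField w :=
    { toFun := fun σ => rr w (σ.1 ϖ / ϖ)
      map_one' := ratio_one hϖ0
      map_mul' := fun σ τ => ratio_mul σ.2 τ.2 hϖ0 }
  have hf : ∀ σ : iner K w, f σ = 1 ↔ σ.1 ∈ N := fun σ => hker σ.1 σ.2
  let M : Subgroup (iner K w) := N.subgroupOf (iner K w)
  let g : (iner K w ⧸ M) →* ResidueField w := QuotientGroup.lift M f fun σ hσ => (hf σ).2 hσ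
  have hg : Function.Injective g := by
    rw [injective_iff_map_eq_one]
    intro x
    refine QuotientGroup.induction_on x fun σ hσ => ?_
    rw [QuotientGroup.eq_one_iff]
    exact (hf σ).1 hσ
  have hfinM : M.FiniteIndex := inferInstance
  have hfin : Finite (iner K w ⧸ M) := inferInstance
  have hcyc : IsCyclic (iner K w ⧸ M) := isCyclic_of_injective_ringHom g hg
  obtain ⟨t, ht⟩ := hcyc.exists_generator
  obtain ⟨τ, rfl⟩ := QuotientGroup.mk_surjective t
  refine ⟨τ.1, τ.2, fun σ hσ => ?_⟩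
  have h1 := ht (QuotientGroup.mk ⟨σ, hσ⟩)
  rw [← mem_powers_iff_mem_zpowers, Submonoid.mem_powers_iff] at h1
  obtain ⟨n, hn⟩ := h1
  refine ⟨n, ?_⟩
  rw [← QuotientGroup.mk_pow] at hn
  have h2 : (τ ^ n)⁻¹ * ⟨σ, hσ⟩ ∈ M := QuotientGroup.eq.1 hn
  exact h2

/-- A Frobenius element acts on the inertia group modulo `N` as `σ ↦ σ ^ q`. -/
theorem tame_frobN (h : LocHyp K w π) (hw : CharOk w) {N : Subgroup (Ω ≃ₐ[K] Ω)}
    (hNn : N.Normal) (hNo : IsOpen (N : Set (Ω ≃ₐ[K] Ω))) (hN : TameAt w N)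
    {φ σ : Ω ≃ₐ[K] Ω} (hφ : IsFrob K w φ) (hσ : σ ∈ iner K w) :
    (σ ^ resCard (below K w))⁻¹ * (φ * σ * φ⁻¹) ∈ N := by
  obtain ⟨ϖ, hϖ0, hker⟩ := exists_ratioN h hw hNn hNo hN
  have h1 : φ * σ * φ⁻¹ ∈ iner K w := iner_conj hφ.mem hσ
  have h2 : σ ^ resCard (below K w) ∈ iner K w := (iner K w).pow_mem hσ _
  have h3 : (σ ^ resCard (below K w))⁻¹ ∈ iner K w := (iner K w).inv_mem h2
  rw [← hker _ ((iner K w).mul_mem h3 h1), ratio_mul h3 h1 hϖ0, ratio_frob hφ hσ hϖ0,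
    ← ratio_pow hσ hϖ0, ← ratio_mul h3 h2 hϖ0, inv_mul_cancel]
  exact ratio_one hϖ0

theorem tame_exp (h : LocHyp K w π) (hw : CharOk w) {N : Subgroup (Ω ≃ₐ[K] Ω)}
    (hNn : N.Normal) (hNo : IsOpen (N : Set (Ω ≃ₐ[K] Ω))) (hN : TameAt w N)
    {σ : Ω ≃ₐ[K] Ω} (hσ : σ ∈ iner K w) :
    ∃ m : ℕ, 1 ≤ m ∧ σ ^ m ∈ N ∧ Nat.Coprime m (resCard (below K w)) := by
  obtain ⟨ϖ, hϖ0, hker⟩ := exists_ratioN h hw hNn hNo hN
  obtain ⟨n, hnK, hn⟩ := hN σ hσ
  set u := rr w (σ ϖ / ϖ) with hu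
  have hn0 : 0 < n := by
    rcases Nat.eq_zero_or_pos n with h0 | h0
    · rw [h0, Nat.cast_zero] at hnK
      exact absurd rfl hnK
    · exact h0
  have hun : u ^ n = 1 := by
    rw [hu, ← ratio_pow hσ hϖ0, hker _ ((iner K w).pow_mem hσ n)]
    exact hn
  have hm : 0 < orderOf u := orderOf_pos_iff.2 (isOfFinOrder_iff_pow_eq_one.2 ⟨n, hn0, hun⟩)
  refine ⟨orderOf u, hm, ?_, ?_⟩
  · rw [← hker _ ((iner K w).pow_mem hσ _), ratio_pow hσ hϖ0]
    exact pow_orderOf_eq_one u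
  · by_contra hco
    obtain ⟨r, hr, hrm, hrq⟩ := Nat.Prime.not_coprime_iff_dvd.1 hco
    have hfin := h.fin
    have : Fintype (ResidueField (below K w)) := Fintype.ofFinite _
    have hrk : ((r : ℕ) : ResidueField (below K w)) = 0 := by
      obtain ⟨p, hp⟩ := CharP.exists (ResidueField (below K w))
      obtain ⟨f, hpp, hcard⟩ := FiniteField.card (ResidueField (below K w)) p
      rw [resCard, Nat.card_eq_fintype_card, hcard] at hrq
      have h5 : r = p := (Nat.prime_dvd_prime_iff_eq hr hpp).1 (hr.dvd_of_dvd_pow hrq)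
      rw [h5]
      exact CharP.cast_eq_zero _ _
    have hrΩ : ((r : ℕ) : Ω) = 0 := by
      by_contra hne
      have hv := hw r hne
      have hrK : ((r : ℕ) : K) ≠ 0 := by
        intro h0
        apply hne
        rw [← map_natCast (algebraMap K Ω), h0, map_zero]
      have hinv : ((r : ℕ) : K)⁻¹ ∈ below K w := by
        change algebraMap K Ω ((r : ℕ) : K)⁻¹ ∈ w
        rw [map_inv₀, map_natCast]
        apply mem_of_val
        rw [map_inv₀, hv, inv_one]
      have h6 : (((r : ℕ) : below K w)) * ⟨((r : ℕ) : K)⁻¹, hinv⟩ = 1 := by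
        apply Subtype.ext
        change ((((r : ℕ) : below K w)) : K) * ((r : ℕ) : K)⁻¹ = 1
        rw [show ((((r : ℕ) : below K w)) : K) = ((r : ℕ) : K) from map_natCast (below K w).subtype r]
        exact mul_inv_cancel₀ hrK
      have h7 := congrArg (residue (below K w)) h6
      rw [map_mul, map_natCast, hrk, zero_mul, map_one] at h7
      exact zero_ne_one h7
    have hrw : ((r : ℕ) : ResidueField w) = 0 := by
      have h5 : ((r : ℕ) : w) = 0 := by
        apply Subtype.ext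
        rw [show ((((r : ℕ) : w)) : Ω) = ((r : ℕ) : Ω) from map_natCast w.subtype r]
        exact hrΩ
      rw [← map_natCast (residue w), h5, map_zero]
    have hch : CharP (ResidueField w) r := (CharP.charP_iff_prime_eq_zero hr).2 hrw
    have hF : Fact r.Prime := ⟨hr⟩
    obtain ⟨m', hm'⟩ := hrm
    have hpow : (u ^ m') ^ r = 1 := by
      rw [← pow_mul, mul_comm m' r, ← hm']
      exact pow_orderOf_eq_one u
    have h8 : (u ^ m' - 1) ^ r = 0 := by
      rw [sub_pow_char, hpow, one_pow, sub_self]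
    have h9 : u ^ m' = 1 := sub_eq_zero.1 (pow_eq_zero_iff hr.ne_zero |>.1 h8)
    have hm'0 : 0 < m' := by
      rcases Nat.eq_zero_or_pos m' with h0 | h0
      · rw [h0, mul_zero] at hm'
        omega
      · exact h0
    have h10 := Nat.le_of_dvd hm'0 (orderOf_dvd_of_pow_eq_one h9)
    have h11 : m' * 2 ≤ r * m' := by
      rw [mul_comm r m']
      exact Nat.mul_le_mul_left _ hr.two_le
    omega

end Pool.Agent.SmL.Fld
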