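import Pool.Agent.Lib.SmL.Fld.Std
import Pool.Agent.Lib.SmL.Fld.Tame
import Pool.Agent.Lib.GBU.Sub
import Pool.Agent.Lib.SmN.F.LInst

/-!
# SMITH-L, arithmetic: the family `NNt N0`

`famL_NNt`: `inf_mem`: `(N ⊓ N').relIndex N0` divides `N.relIndex N0 * N'.relIndex N0` (`N, N'` normal).
`ext`: `N' ≤ N`, every `s ∈ N` has a power `l^m` in `N'`: `N'.relIndex N0 = N'.relIndex (N ⊓ N0) * N.relIndex N0`, and
`N'.relIndex (N ⊓ N0)` is a power of `l` (the quotient `(N ⊓ N0) / N'` is a finite `l`-group), `l ≠ 0` in `K`.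
`hc`: `HcK k K Ω (l ^ r)` from `⊤` by `ext` (see `Fld/Cst.lean`), or its index is `1` or a power of `l`.

`tameAt_NNt`: `N ∈ NNt N0`, `s ∈ iner K w`, `w ≠ ⊤`: let `N' = N ⊓ N0` and let the order of `s` modulo `N'` be `p^m u`, `u`
prime to `p`. `s' = s^u`: `s'^(p^m) ∈ N' ≤ N0`, so `s' ∈ N0` (`TameN`), and `s'^(relIndex) ∈ N'` with
`relIndex = N.relIndex N0` prime to `p` (`N'` normal in `N0`), so `s' ∈ N'`; take `n = u`.

`tameN_top`: `N0 = ⊤`. `tameN_comap`: for `L / K` finite, `N0.comap (res K)` is `TameN` for `Gal(Ω / L)`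
(`ringChar L = ringChar K`, `iner L w → iner K w` under `res K`: `GBU/Sub.lean`).

`comap_mem`: `N ∈ NNt N0` ⇒ `N.comap (res K) ∈ NNt (N0.comap (res K))` (relative index divides).
`exists_le_map`: `M ∈ NNt (N0.comap (res K))` (over `L`), `N1 ∈ NNt N0` with `N1 ≤ rg K L Ω` ⇒ there is `N ∈ NNt N0`
with `N ≤ N1` and `N ≤ M.map (res K)`: compare `exists_NP_le_map` in `SmN/F/LInst.lean`:
`N` = the normal core of `N1 ⊓ M.map (res K)`; `(N1 ⊓ N0) / (N ⊓ N0)` embeds into a product of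
groups `N1 ⊓ N0 / (conjugates of M.map ⊓ N1 ⊓ N0)`, each isomorphic to a subgroup of `N0_L / (M ⊓ N0_L)`.
-/

set_option autoImplicit false

namespace Pool.Agent.SmL.Fld

open Pool.Agent.BSDFF Pool.Agent.Lib.SmD Pool.Agent.GBU Pool.Agent.SmL.Ar Pool.Agent.SmL.C

section one

variable {K Ω : Type} [Field K] [Field Ω] [Algebra K Ω]

private theorem NNt_fi [IsSepClosure K Ω] {N : Subgroup (Ω ≃ₐ[K] Ω)}
    (hN : IsOpen (N : Set (Ω ≃ₐ[K] Ω))) : N.FiniteIndex := by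
  have hgal : IsGalois K Ω := inferInstance
  have hfin : Finite ((Ω ≃ₐ[K] Ω) ⧸ N) := Subgroup.quotient_finite_of_isOpen _ hN
  exact Subgroup.finiteIndex_of_finite_quotient

private theorem NNt_top {N0 : Subgroup (Ω ≃ₐ[K] Ω)} : (⊤ : Subgroup (Ω ≃ₐ[K] Ω)) ∈ NNt N0 := by
  refine ⟨inferInstance, isOpen_univ, ?_⟩
  rw [Subgroup.relIndex_top_left, Nat.cast_one]
  exact one_ne_zero

private theorem NNt_dvd {Γ : Type*} [Group Γ] {N A B : Subgroup Γ} (hN : N.Normal) (hAB : A ≤ B) :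
    N.relIndex A ∣ N.relIndex B := by
  rw [← Subgroup.relIndex_subgroupOf hAB]
  exact Subgroup.relIndex_dvd_index_of_normal _ _

private theorem NNt_ext [IsSepClosure K Ω] {l : ℕ} (hl : l.Prime) (hlK : (l : K) ≠ 0)
    {N0 N N' : Subgroup (Ω ≃ₐ[K] Ω)} (h0 : N0.Normal) (hN : N ∈ NNt N0) (hn : N'.Normal)
    (ho : IsOpen (N' : Set (Ω ≃ₐ[K] Ω))) (hle : N' ≤ N)
    (hp : ∀ s ∈ N, ∃ m : ℕ, s ^ (l ^ m) ∈ N') : N' ∈ NNt N0 := by
  refine ⟨hn, ho, ?_⟩
  have h1 := hN.1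
  have h2 : N'.relIndex (N ⊓ N0) * N.relIndex N0 = N'.relIndex N0 := by
    have e1 : (N' ⊓ N0).relIndex (N ⊓ N0) = N'.relIndex (N ⊓ N0) := by
      rw [← Subgroup.inf_relIndex_right N' (N ⊓ N0), ← inf_assoc, inf_eq_left.2 hle]
    rw [← e1, ← Subgroup.inf_relIndex_right N N0, ← Subgroup.inf_relIndex_right N' N0]
    exact Subgroup.relIndex_mul_relIndex _ _ _ (inf_le_inf_right _ hle) inf_le_right
  have hfi : N'.FiniteIndex := NNt_fi ho
  have hfact : Fact l.Prime := ⟨hl⟩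
  have h3 : ∃ n, N'.relIndex (N ⊓ N0) = l ^ n := by
    have hpg : IsPGroup l ((N ⊓ N0 : Subgroup (Ω ≃ₐ[K] Ω)) ⧸ N'.subgroupOf (N ⊓ N0)) := by
      intro g
      obtain ⟨s, rfl⟩ := QuotientGroup.mk_surjective g
      obtain ⟨m, hm⟩ := hp s s.2.1
      refine ⟨m, ?_⟩
      rw [← QuotientGroup.mk_pow, QuotientGroup.eq_one_iff, Subgroup.mem_subgroupOf]
      exact hm
    have hfin : Finite ((N ⊓ N0 : Subgroup (Ω ≃ₐ[K] Ω)) ⧸ N'.subgroupOf (N ⊓ N0)) :=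
      Subgroup.finite_quotient_of_finiteIndex
    exact IsPGroup.iff_card.1 hpg
  obtain ⟨n, hn'⟩ := h3
  rw [← h2, hn', Nat.cast_mul, Nat.cast_pow]
  exact mul_ne_zero (pow_ne_zero _ hlK) hN.2.2

private theorem NNt_hcn {k : Type} [Field k] [Finite k] (n : ℕ) : (HcK k K Ω n).Normal := by
  refine ⟨fun h hh g x hx => ?_⟩
  rw [AlgEquiv.mul_apply, AlgEquiv.mul_apply, hh _ (by rw [← map_pow, hx])]
  exact g.apply_symm_apply x

private theorem NNt_hcp {k : Type} [Field k] [Finite k] [Algebra k K] (n : ℕ) (hn : 0 < n)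
    (s : Ω ≃ₐ[K] Ω) : s ^ n ∈ HcK k K Ω n := by
  intro x hx
  obtain ⟨i, hi⟩ := exists_pow_of_isC (k := k) ⟨n, hn, hx⟩ s
  have h1 : ∀ m : ℕ, (s ^ m) x = x ^ Nat.card k ^ (i * m) := by
    intro m
    induction m with
    | zero => simp
    | succ m ih =>
      rw [pow_succ, AlgEquiv.mul_apply, hi, map_pow, ih, ← pow_mul, Nat.mul_succ, pow_add]
  rw [h1, mul_comm]
  exact pow_level hx i

theorem famL_NNt {k : Type} [Field k] [Finite k] [Algebra k K] [IsSepClosure K Ω] {l : ℕ}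
    (hl : l.Prime) (hlK : (l : K) ≠ 0) {N0 : Subgroup (Ω ≃ₐ[K] Ω)} (h0 : N0.Normal) :
    FamL k l (NNt N0) := by
  have hgal : IsGalois K Ω := inferInstance
  refine ⟨fun N hN => hN.1, fun N hN => hN.2.1, ?_, ?_, ?_⟩
  · rintro N ⟨h1, h2, h3⟩ N' ⟨h1', h2', h3'⟩
    refine ⟨inferInstance, ?_, ?_⟩
    · rw [Subgroup.coe_inf]
      exact h2.inter h2'
    · have e1 : (N ⊓ N').relIndex N0 = N.relIndex (N' ⊓ N0) * N'.relIndex N0 := by
        rw [← Subgroup.inf_relIndex_right (N ⊓ N') N0, ← Subgroup.inf_relIndex_right N' N0]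
        rw [← Subgroup.relIndex_mul_relIndex (N ⊓ N' ⊓ N0) (N' ⊓ N0) N0
          (inf_le_inf_right _ inf_le_right) inf_le_right]
        congr 1
        rw [inf_assoc, Subgroup.inf_relIndex_right]
      obtain ⟨m, hm⟩ : N.relIndex (N' ⊓ N0) ∣ N.relIndex N0 := NNt_dvd h1 inf_le_right
      rw [e1, Nat.cast_mul]
      refine mul_ne_zero (fun h => h3 ?_) h3'
      rw [hm, Nat.cast_mul, h, zero_mul]
  · intro r
    have hpos : 0 < l ^ r := pow_pos hl.pos r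
    refine NNt_ext hl hlK h0 NNt_top (NNt_hcn _) (isOpen_HcK hpos) le_top fun s _ => ⟨r, ?_⟩
    exact NNt_hcp _ hpos s
  · intro N hN N' hn ho hle hp
    exact NNt_ext hl hlK h0 hN hn ho hle hp

theorem fi_NNt [IsSepClosure K Ω] {N0 N : Subgroup (Ω ≃ₐ[K] Ω)} (hN : N ∈ NNt N0) :
    N.FiniteIndex := NNt_fi hN.2.1

theorem tameAt_NNt [IsSepClosure K Ω] (hp : (ringChar K).Prime) {N0 : Subgroup (Ω ≃ₐ[K] Ω)}
    (h0 : TameN N0) {N : Subgroup (Ω ≃ₐ[K] Ω)} (hN : N ∈ NNt N0) {w : ValuationSubring Ω}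
    (hw : w ≠ ⊤) : TameAt w N := by
  intro s hs
  have hn0 := h0.normal
  have hnN := hN.1
  have hop : IsOpen ((N ⊓ N0 : Subgroup (Ω ≃ₐ[K] Ω)) : Set (Ω ≃ₐ[K] Ω)) := by
    rw [Subgroup.coe_inf]
    exact hN.2.1.inter h0.isOpen
  have hfi : (N ⊓ N0).FiniteIndex := NNt_fi hop
  have h1 : s ^ (N ⊓ N0).index ∈ N ⊓ N0 := Subgroup.pow_index_mem _ s
  obtain ⟨a, u, hu, hau⟩ := Nat.exists_eq_pow_mul_and_not_dvd
    (Subgroup.FiniteIndex.index_ne_zero (H := N ⊓ N0)) (ringChar K) hp.ne_one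
  have h2 : s ^ u ∈ N0 := by
    refine h0.tame w hw (s ^ u) ((iner K w).pow_mem hs u) a ?_
    rw [← pow_mul, mul_comm, ← hau]
    exact h1.2
  have h3 : (s ^ u) ^ N.relIndex N0 ∈ N := by
    have h4 := Subgroup.pow_index_mem (N.subgroupOf N0) (⟨s ^ u, h2⟩ : N0)
    rw [Subgroup.mem_subgroupOf] at h4
    exact h4
  refine ⟨u * N.relIndex N0, ?_, by rw [pow_mul]; exact h3⟩
  rw [Nat.cast_mul]
  refine mul_ne_zero (fun h => hu ?_) hN.2.2
  exact (ringChar.spec K u).1 h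

theorem tameN_top : TameN (⊤ : Subgroup (Ω ≃ₐ[K] Ω)) :=
  ⟨inferInstance, isOpen_univ, fun _ _ _ _ _ _ => trivial⟩

end one

variable {K L Ω : Type} [Field K] [Field L] [Field Ω] [Algebra K L] [Algebra K Ω] [Algebra L Ω]
  [IsScalarTower K L Ω] [FiniteDimensional K L] [IsSepClosure K Ω] [IsSepClosure L Ω]

theorem tameN_comap {N0 : Subgroup (Ω ≃ₐ[K] Ω)} (h0 : TameN N0) :
    TameN (N0.comap (res K : (Ω ≃ₐ[L] Ω) →* (Ω ≃ₐ[K] Ω))) := by
  have halg : Algebra.IsAlgebraic L Ω := (IsSepClosure.separable (k := L) (K := Ω)).isAlgebraic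
  have hn := h0.normal
  refine ⟨inferInstance, Pool.Agent.SmN.F.isOpen_comap_res h0.isOpen, ?_⟩
  intro w hw s hs m hm
  rw [Subgroup.mem_comap] at hm ⊢
  rw [← Algebra.ringChar_eq K L, map_pow] at hm
  exact h0.tame w hw _ ((res_mem_iner K).2 hs) m hm

theorem comap_mem {N0 N : Subgroup (Ω ≃ₐ[K] Ω)} (hN : N ∈ NNt N0) :
    N.comap (res K : (Ω ≃ₐ[L] Ω) →* (Ω ≃ₐ[K] Ω)) ∈
      NNt (N0.comap (res K : (Ω ≃ₐ[L] Ω) →* (Ω ≃ₐ[K] Ω))) := by
  have halg : Algebra.IsAlgebraic L Ω := (IsSepClosure.separable (k := L) (K := Ω)).isAlgebraic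
  have hn := hN.1
  refine ⟨inferInstance, Pool.Agent.SmN.F.isOpen_comap_res hN.2.1, ?_⟩
  rw [Subgroup.relIndex_comap]
  obtain ⟨m, hm⟩ : N.relIndex ((N0.comap (res K : (Ω ≃ₐ[L] Ω) →* (Ω ≃ₐ[K] Ω))).map (res K)) ∣
      N.relIndex N0 := NNt_dvd hn (Subgroup.map_comap_le _ _)
  intro h
  apply hN.2.2
  apply (algebraMap K L).injective
  rw [map_natCast, map_zero, hm, Nat.cast_mul, h, zero_mul]

/-- A finite intersection of normal subgroups of index prime to the characteristic. -/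
private theorem NNt_inf {Γ : Type*} [Group Γ] {K : Type*} [Field K] {A B : Subgroup Γ}
    (hA : A.Normal ∧ (A.index : K) ≠ 0) (hB : B.Normal ∧ (B.index : K) ≠ 0) :
    (A ⊓ B).Normal ∧ ((A ⊓ B).index : K) ≠ 0 := by
  obtain ⟨h1, h3⟩ := hA
  obtain ⟨h1', h3'⟩ := hB
  refine ⟨inferInstance, ?_⟩
  have e1 : (A ⊓ B).index = A.relIndex B * B.index := by
    rw [← Subgroup.inf_relIndex_right A B, Subgroup.relIndex_mul_index inf_le_right]
  obtain ⟨m, hm⟩ : A.relIndex B ∣ A.index := Subgroup.relIndex_dvd_index_of_normal A B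
  rw [e1, Nat.cast_mul]
  refine mul_ne_zero (fun h0 => h3 ?_) h3'
  rw [hm, Nat.cast_mul, h0, zero_mul]

theorem exists_le_map {N0 N1 : Subgroup (Ω ≃ₐ[K] Ω)} (h0 : TameN N0) (hN1 : N1 ∈ NNt N0)
    (hle : N1 ≤ rg K L Ω) {M : Subgroup (Ω ≃ₐ[L] Ω)}
    (hM : M ∈ NNt (N0.comap (res K : (Ω ≃ₐ[L] Ω) →* (Ω ≃ₐ[K] Ω)))) :
    ∃ N ∈ NNt N0, N ≤ N1 ∧ N ≤ M.map (res K) := by
  have hn0 := h0.normal
  have hn1 := hN1.1
  have hn' := hM.1
  have hf1 : N1.FiniteIndex := fi_NNt hN1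
  obtain ⟨Mm, hMm⟩ : ∃ Mm : Subgroup (Ω ≃ₐ[K] Ω), Mm = M.map (res K) ⊓ N1 := ⟨_, rfl⟩
  obtain ⟨G0, hG0⟩ : ∃ G0 : Subgroup (Ω ≃ₐ[K] Ω), G0 = N1 ⊓ N0 := ⟨_, rfl⟩
  have hG0n : G0.Normal := by rw [hG0]; infer_instance
  have hG01 : G0 ≤ N1 := by rw [hG0]; exact inf_le_left
  have hG00 : G0 ≤ N0 := by rw [hG0]; exact inf_le_right
  have hMo : IsOpen (Mm : Set (Ω ≃ₐ[K] Ω)) := by
    rw [hMm, Subgroup.coe_inf]
    exact (isOpen_map_res K hM.2.1).inter hN1.2.1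
  -- `N1` normalizes `Mm`
  have hnorm : ∀ n ∈ N1, ∀ m ∈ Mm, n * m * n⁻¹ ∈ Mm := by
    rw [hMm]
    rintro n hn m ⟨⟨m', hm', rfl⟩, hm0⟩
    obtain ⟨n', rfl⟩ := hle hn
    refine ⟨⟨n' * m' * n'⁻¹, hn'.conj_mem _ hm' _, ?_⟩, ?_⟩
    · rw [map_mul, map_mul, map_inv]
    · exact N1.mul_mem (N1.mul_mem hn hm0) (N1.inv_mem hn)
  -- the conjugates
  let A0 : Subgroup G0 := Mm.subgroupOf G0
  have hA0 : A0.Normal ∧ (A0.index : K) ≠ 0 := by
    refine ⟨⟨fun m hm n => ?_⟩, ?_⟩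
    · rw [Subgroup.mem_subgroupOf] at hm ⊢
      exact hnorm n (hG01 n.2) m hm
    · have h1 : A0.index = M.relIndex (G0.comap (res K)) := by
        change Mm.relIndex G0 = _
        have h3 : Mm ⊓ G0 = M.map (res K) ⊓ G0 := by
          rw [hMm, inf_assoc, inf_eq_right.2 hG01]
        rw [← Subgroup.inf_relIndex_right Mm G0, h3, Subgroup.inf_relIndex_right]
        have h2 : (G0.comap (res K : (Ω ≃ₐ[L] Ω) →* (Ω ≃ₐ[K] Ω))).map (res K) = G0 := by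
          rw [Subgroup.map_comap_eq]
          exact inf_eq_right.2 (hG01.trans hle)
        conv_lhs => rw [← h2]
        exact Subgroup.relIndex_map_map_of_injective _ _ (res_injective K)
      obtain ⟨m, hm⟩ : M.relIndex (G0.comap (res K)) ∣
          M.relIndex (N0.comap (res K : (Ω ≃ₐ[L] Ω) →* (Ω ≃ₐ[K] Ω))) :=
        NNt_dvd hn' (Subgroup.comap_mono hG00)
      intro h0
      apply hM.2.2
      rw [hm, Nat.cast_mul]
      rw [h1] at h0
      have h3 : ((M.relIndex (G0.comap (res K)) : ℕ) : L) = 0 := by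
        rw [← map_natCast (algebraMap K L), h0, map_zero]
      rw [h3, zero_mul]
  let A : ((Ω ≃ₐ[K] Ω) ⧸ N1) → Subgroup G0 := fun q =>
    A0.comap (MulAut.conjNormal q.out).toMonoidHom
  have hA : ∀ q, (A q).Normal ∧ ((A q).index : K) ≠ 0 := by
    intro q
    have := hA0.1
    refine ⟨inferInstance, ?_⟩
    have h1 : (A q).index = A0.index :=
      Subgroup.index_comap_of_surjective _ (MulAut.conjNormal q.out).surjective
    rw [h1]
    exact hA0.2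
  have hfin : Finite ((Ω ≃ₐ[K] Ω) ⧸ N1) := inferInstance
  have : Fintype ((Ω ≃ₐ[K] Ω) ⧸ N1) := Fintype.ofFinite _
  have hinf : (Finset.univ.inf A).Normal ∧ ((Finset.univ.inf A).index : K) ≠ 0 := by
    refine Finset.inf_induction (p := fun B : Subgroup G0 => B.Normal ∧ (B.index : K) ≠ 0)
      ?_ (fun _ h1 _ h2 => NNt_inf h1 h2) (fun q _ => hA q)
    refine ⟨inferInstance, ?_⟩
    rw [Subgroup.index_top, Nat.cast_one]
    exact one_ne_zero
  have hcoset : ∀ (g : Ω ≃ₐ[K] Ω) (a : Ω ≃ₐ[K] Ω),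
      (QuotientGroup.mk g : (Ω ≃ₐ[K] Ω) ⧸ N1).out * a *
        (QuotientGroup.mk g : (Ω ≃ₐ[K] Ω) ⧸ N1).out⁻¹ ∈ Mm → g * a * g⁻¹ ∈ Mm := by
    intro g a h
    set t := (QuotientGroup.mk g : (Ω ≃ₐ[K] Ω) ⧸ N1).out with ht
    have h1 : t⁻¹ * g ∈ N1 := by
      rw [← QuotientGroup.eq, ht, QuotientGroup.out_eq']
    have h2 : g * t⁻¹ ∈ N1 := by
      have := hn1.conj_mem _ h1 t
      rwa [mul_inv_cancel_left] at this
    have h3 := hnorm _ h2 _ h
    have h4 : g * t⁻¹ * (t * a * t⁻¹) * (g * t⁻¹)⁻¹ = g * a * g⁻¹ := by group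
    rwa [h4] at h3
  have hMN1 : Mm ≤ N1 := by rw [hMm]; exact inf_le_right
  have hMM : Mm ≤ M.map (res K) := by rw [hMm]; exact inf_le_left
  have hcore : (Mm.normalCore).subgroupOf G0 = Finset.univ.inf A := by
    ext a
    rw [Finset.inf_univ_eq_iInf, Subgroup.mem_iInf, Subgroup.mem_subgroupOf]
    constructor
    · intro h q
      exact h q.out
    · intro h g
      refine hcoset g a ?_
      exact h (QuotientGroup.mk g)
  have hle1 : Mm.normalCore ≤ Mm := Subgroup.normalCore_le Mm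
  refine ⟨Mm.normalCore, ⟨inferInstance, ?_, ?_⟩, hle1.trans hMN1, hle1.trans hMM⟩
  · have h1 : (Mm.normalCore : Set (Ω ≃ₐ[K] Ω)) =
        ⋂ q : (Ω ≃ₐ[K] Ω) ⧸ N1, (fun a => q.out * a * q.out⁻¹) ⁻¹' (Mm : Set (Ω ≃ₐ[K] Ω)) := by
      ext a
      rw [Set.mem_iInter]
      constructor
      · intro h q
        exact h q.out
      · intro h g
        exact hcoset g a (h (QuotientGroup.mk g))
    rw [h1]
    refine isOpen_iInter_of_finite fun q => hMo.preimage ?_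
    exact (continuous_const.mul continuous_id).mul continuous_const
  · have e0 : (Mm.normalCore ⊓ N0).relIndex G0 = Mm.normalCore.relIndex G0 := by
      rw [← Subgroup.inf_relIndex_right (Mm.normalCore ⊓ N0) G0, inf_assoc,
        inf_eq_right.2 hG00, Subgroup.inf_relIndex_right]
    have e1 : Mm.normalCore.relIndex G0 * N1.relIndex N0 = Mm.normalCore.relIndex N0 := by
      rw [← e0, ← Subgroup.inf_relIndex_right N1 N0, ← hG0,
        ← Subgroup.inf_relIndex_right Mm.normalCore N0]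
      refine Subgroup.relIndex_mul_relIndex _ _ _ ?_ hG00
      rw [hG0]
      exact inf_le_inf_right _ (hle1.trans hMN1)
    rw [← e1, Nat.cast_mul]
    refine mul_ne_zero ?_ hN1.2.2
    have h1 : (Mm.normalCore).relIndex G0 = (Finset.univ.inf A).index := by
      rw [← hcore]
      rfl
    rw [h1]
    exact hinf.2

end Pool.Agent.SmL.Fld
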