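import Pool.Agent.Lib.SmL.Fld.PlL
import Pool.Agent.Lib.SmL.Fld.NNt
import Pool.Agent.Lib.SmL.Fld.CardK
import Pool.Agent.Lib.SmL.F.Orb

/-!
# SMITH-L, arithmetic: the number of the homomorphisms on the stabiliser of `x0` unramified outside of `T`

`H` = stabiliser of `x0` = image of `Gal(Om / L)`. (1) `b ↦ b ∘ res K` is a bijection of the homomorphisms on `H` of
finite level, up to equality on `H`, to the `HomO` of `L` (`HomO.level` for `NNt (N0.comap (res K))`,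
`exists_le_map`, `comap_mem`). (2) For `v` a place of `K`, `x : X`, `u = p v x`: `(lp v x b).1 = 0 ↔ UnrAt u (b ∘ res K)`:
(⇐) `r x * sgx * (r x)⁻¹` is the image of an element of `iner L (wX w r v x)` (`mem_iner_tr`; it is in `H`).
(⇒) for `s ∈ iner L (wX w r v x)`: `(r x)⁻¹ s r x ∈ iner K (w v)` is `sg^n` modulo `N` (`Std.igen`), `N` a level of `b` on `H`
acting trivially on `X`; `sg^n` fixes `x`, so `e ∣ n` (`Efj.e_min`) and `b s = (n / e) * b (r x * sgx * (r x)⁻¹) = 0`; other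
places of `Om` above `u` are conjugate under `Gal(Om / L)` (`exists_tr`, `mem_iner_tr`).
(3) `T0`: `exists_S` (`GBU/Pic.lean`) over `L` gives `S`, finite, nonempty, `PrinOut S`; `T0` = the places of `K` below `S`.
For `T0 ⊆ T`: `T_L = {p v x | v ∈ T}` contains `S` (`PrinOut.mono`), it is in bijection with `Σ v ∈ T, orbits`.
`ncard_homO`.
-/

set_option autoImplicit false
set_option linter.unusedSectionVars false

namespace Pool.Agent.SmL.Fld

open MulAction Pool.Agent.GBU Pool.Agent.BSDFF Pool.Agent.Lib.SmD Pool.Agent.SmL.Ar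
  Pool.Agent.SmL.C Pool.Agent.SmL.F

variable {k K L : Type} [Field k] [Finite k] [Field K] [Algebra k K] [Algebra (RatFunc k) K]
  [IsScalarTower k (RatFunc k) K] [FiniteDimensional (RatFunc k) K]
  [Algebra.IsSeparable (RatFunc k) K]
  [Field L] [Algebra k L] [Algebra (RatFunc k) L]
  [IsScalarTower k (RatFunc k) L] [FiniteDimensional (RatFunc k) L]
  [Algebra.IsSeparable (RatFunc k) L] [Algebra K L] [FiniteDimensional K L]
  {Om : Type} [Field Om] [Algebra K Om] [IsSepClosure K Om] [Algebra L Om] [IsSepClosure L Om]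
  [IsScalarTower K L Om]
  {X : Type} [MulAction (Om ≃ₐ[K] Om) X] [Finite X] {w : Place k K → ValuationSubring Om}
  {sg ph : Place k K → Om ≃ₐ[K] Om} {l : ℕ} {ζ : Om} {N0 : Subgroup (Om ≃ₐ[K] Om)}

section aux

open Classical in
/-- Extension by zero of a function on `Gal(Om / L)`. -/
private noncomputable def CardL_ex (c : (Om ≃ₐ[L] Om) → ZMod l) (s : Om ≃ₐ[K] Om) : ZMod l :=
  if h : s ∈ rg K L Om then c h.choose else 0

omit [Finite k] [Algebra (RatFunc k) K] [IsScalarTower k (RatFunc k) K]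
  [FiniteDimensional (RatFunc k) K] [Algebra.IsSeparable (RatFunc k) K] in
private theorem CardL_ex_res (c : (Om ≃ₐ[L] Om) → ZMod l) (s : Om ≃ₐ[L] Om) :
    (CardL_ex c : (Om ≃ₐ[K] Om) → ZMod l) (res K s) = c s := by
  have h : res K s ∈ rg K L Om := ⟨s, rfl⟩
  rw [CardL_ex, dif_pos h]
  congr 1
  exact res_injective K h.choose_spec

private theorem CardL_homO {x0 : X} (hst : stabilizer (Om ≃ₐ[K] Om) x0 = rg K L Om)
    {b : (Om ≃ₐ[K] Om) → ZMod l}
    (hb : HomH (bK (NNt N0) w sg ph) (stabilizer (Om ≃ₐ[K] Om) x0) b) :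
    HomO l (fun s : Om ≃ₐ[L] Om => b (res K s)) := by
  have halg : Algebra.IsAlgebraic L Om := (IsSepClosure.separable (k := L) (K := Om)).isAlgebraic
  obtain ⟨⟨N, hN, h1⟩, h3⟩ := hb
  rw [hst] at h1 h3
  have hN' : IsOpen (N : Set (Om ≃ₐ[K] Om)) := hN.2.1
  refine ⟨fun s t => ?_, N.comap (res K), Pool.Agent.SmN.F.isOpen_comap_res hN', fun s hs => ?_⟩
  · rw [map_mul]
    exact h3 _ ⟨s, rfl⟩ _ ⟨t, rfl⟩
  · have h4 := h1 1 (rg K L Om).one_mem _ hs ⟨s, rfl⟩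
    have h5 := h3 1 (rg K L Om).one_mem 1 (rg K L Om).one_mem
    rw [mul_one] at h5
    rw [one_mul] at h4
    rw [h4]
    exact left_eq_add.1 h5

private theorem CardL_le (hX : TrivX (bK (NNt N0) w sg ph) X) {x0 : X}
    (hst : stabilizer (Om ≃ₐ[K] Om) x0 = rg K L Om) :
    ∃ N ∈ NNt N0, N ≤ rg K L Om ∧ ∀ n ∈ N, ∀ x : X, n • x = x := by
  obtain ⟨N, hN, h⟩ := hX
  refine ⟨N, hN, ?_, h⟩
  rw [← hst]
  exact fun n hn => h n hn x0

private theorem CardL_ex_hom (hl : l.Prime) (hζ : IsPrimitiveRoot ζ l) (h0 : TameN N0)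
    (hX : TrivX (bK (NNt N0) w sg ph) X) {x0 : X}
    (hst : stabilizer (Om ≃ₐ[K] Om) x0 = rg K L Om) {c : (Om ≃ₐ[L] Om) → ZMod l}
    (hc : HomO l c) :
    HomH (bK (NNt N0) w sg ph) (stabilizer (Om ≃ₐ[K] Om) x0) (CardL_ex c) := by
  have : NeZero l := ⟨hl.ne_zero⟩
  have hlO : (l : Om) ≠ 0 := hζ.neZero'.out
  have hlL : (l : L) ≠ 0 := by
    intro h
    apply hlO
    rw [← map_natCast (algebraMap L Om), h, map_zero]
  obtain ⟨N1, hN1, hle, -⟩ := CardL_le (L := L) hX hst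
  have hfam : FamL k l (NNt (N0.comap (res K : (Om ≃ₐ[L] Om) →* (Om ≃ₐ[K] Om)))) :=
    famL_NNt hl hlL (tameN_comap h0).normal
  have htop : (⊤ : Subgroup (Om ≃ₐ[L] Om)) ∈
      NNt (N0.comap (res K : (Om ≃ₐ[L] Om) →* (Om ≃ₐ[K] Om))) := by
    refine ⟨inferInstance, isOpen_univ, ?_⟩
    rw [Subgroup.relIndex_top_left, Nat.cast_one]
    exact one_ne_zero
  obtain ⟨M, hM, h1⟩ := hc.level hl hfam htop
  obtain ⟨N, hN, hNN1, hNM⟩ := exists_le_map h0 hN1 hle hM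
  rw [hst]
  constructor
  · refine ⟨N, hN, ?_⟩
    rintro _ ⟨s, rfl⟩ n hn _
    obtain ⟨n', hn', rfl⟩ := hNM hn
    rw [← map_mul, CardL_ex_res, CardL_ex_res, h1 s n' hn']
  · rintro _ ⟨s, rfl⟩ _ ⟨t, rfl⟩
    rw [← map_mul, CardL_ex_res, CardL_ex_res, CardL_ex_res, hc.add]

private theorem CardL_one {c : (Om ≃ₐ[L] Om) → ZMod l} (hc : HomO l c) : c 1 = 0 := by
  have h := hc.add 1 1
  rw [mul_one] at h
  exact left_eq_add.1 h

private theorem CardL_conj {c : (Om ≃ₐ[L] Om) → ZMod l} (hc : HomO l c) (g s : Om ≃ₐ[L] Om) :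
    c (g⁻¹ * s * g) = c s := by
  have h1 : c g⁻¹ + c g = 0 := by rw [← hc.add, inv_mul_cancel, CardL_one hc]
  rw [hc.add, hc.add]
  calc c g⁻¹ + c s + c g = c s + (c g⁻¹ + c g) := by ring
    _ = c s := by rw [h1, add_zero]

private theorem CardL_powH {b : (Om ≃ₐ[K] Om) → ZMod l} {H : Subgroup (Om ≃ₐ[K] Om)}
    (hb : ∀ s ∈ H, ∀ t ∈ H, b (s * t) = b s + b t) {g : Om ≃ₐ[K] Om} (hg : g ∈ H)
    (h : b g = 0) (n : ℕ) : b (g ^ n) = 0 := by
  induction n with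
  | zero =>
    have h1 := hb 1 H.one_mem 1 H.one_mem
    rw [mul_one] at h1
    rw [pow_zero]
    exact left_eq_add.1 h1
  | succ n ih => rw [pow_succ, hb _ (H.pow_mem hg n) _ hg, ih, h, add_zero]

private theorem CardL_unr (hS : Std l ζ (NNt N0) w sg ph) (hX : TrivX (bK (NNt N0) w sg ph) X)
    {x0 : X} {r : X → (Om ≃ₐ[K] Om)} (hr : ∀ x, r x • x = x0)
    (hst : stabilizer (Om ≃ₐ[K] Om) x0 = rg K L Om) {E : Place k K → X → ℕ × ℕ × ℕ}
    (hE : OrbE l (bK (NNt N0) w sg ph) E) {b : (Om ≃ₐ[K] Om) → ZMod l}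
    (hb : HomH (bK (NNt N0) w sg ph) (stabilizer (Om ≃ₐ[K] Om) x0) b) (v : Place k K) (x : X)
    {u : Place k L} (hu : u.ring = below L (wX w r v x)) :
    (lp (bK (NNt N0) w sg ph) E r v x b).1 = 0 ↔ UnrAt u (fun s : Om ≃ₐ[L] Om => b (res K s)) := by
  have hgalL : IsGalois L Om := inferInstance
  have hc := CardL_homO (L := L) hst hb
  obtain ⟨⟨N1, hN1, hb1⟩, hb2⟩ := hb
  obtain ⟨N2, hN2, hle, hN2X⟩ := CardL_le (L := L) hX hst
  obtain ⟨e_pos, f_pos, sg_fix, ph_fix, e_min, f_min⟩ := hE.efj v x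
  set B := bK (NNt N0) w sg ph with hB
  have hsgB : B.sg v = sg v := rfl
  rw [hsgB] at sg_fix e_min
  have hrx : (r x)⁻¹ • x0 = x := by rw [← hr x, inv_smul_smul]
  have hcm : ∀ s : Om ≃ₐ[K] Om, r x * s * (r x)⁻¹ ∈ stabilizer (Om ≃ₐ[K] Om) x0 ↔ s • x = x := by
    intro s
    rw [mem_stabilizer_iff, mul_smul, mul_smul, hrx]
    constructor
    · intro h
      have h1 := congrArg (fun y => (r x)⁻¹ • y) h
      simp only [inv_smul_smul] at h1
      rw [h1, hrx]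
    · intro h
      rw [h, hr]
  have hsgx : sgx B E v x = sg v ^ (E v x).1 := rfl
  have hgm : r x * sgx B E v x * (r x)⁻¹ ∈ stabilizer (Om ≃ₐ[K] Om) x0 := by
    rw [hcm, hsgx]
    exact sg_fix
  have hlp : (lp B E r v x b).1 = b (r x * sgx B E v x * (r x)⁻¹) := rfl
  rw [hlp]
  constructor
  · intro hz w' hw' s hs
    have h1 : below L (wX w r v x) = below L w' := by rw [hw', hu]
    obtain ⟨h, hh⟩ := Pool.Agent.SmN.F.exists_tr h1
    rw [hh, Pool.Agent.SmN.F.mem_iner_tr] at hs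
    have h2c : b (res K (h⁻¹ * s * h)) = b (res K s) := CardL_conj hc h s
    change b (res K s) = 0
    rw [← h2c]
    set s1 := h⁻¹ * s * h with hs1
    have h3 : res K s1 ∈ iner K (wX w r v x) := (res_mem_iner K).2 hs
    unfold wX at h3
    rw [Pool.Agent.SmN.F.mem_iner_tr] at h3
    obtain ⟨n, hn⟩ := hS.igen v (N1 ⊓ N2) (hS.fam.inf_mem N1 hN1 N2 hN2) _ h3
    set t := (r x)⁻¹ * res K s1 * r x with ht
    have hrs : res K s1 = r x * t * (r x)⁻¹ := by rw [ht]; group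
    have hs1m : res K s1 ∈ stabilizer (Om ≃ₐ[K] Om) x0 := by rw [hst]; exact ⟨s1, rfl⟩
    have htx : t • x = x := by
      rw [← hcm, ← hrs]
      exact hs1m
    have hsgn : sg v ^ n • x = x := by
      have h4 := hN2X _ hn.2 x
      have h5 : t • x = sg v ^ n • ((sg v ^ n)⁻¹ * t) • x := by
        rw [← mul_smul, mul_inv_cancel_left]
      rw [h4, htx] at h5
      exact h5.symm
    obtain ⟨n', hn'⟩ := Int.natCast_dvd_natCast.1 (e_min n (by rw [zpow_natCast]; exact hsgn))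
    have h6 : r x * sg v ^ n * (r x)⁻¹ = (r x * sgx B E v x * (r x)⁻¹) ^ n' := by
      rw [conj_pow, hsgx, ← pow_mul, ← hn']
    have h7 : res K s1 = (r x * sg v ^ n * (r x)⁻¹) * (r x * ((sg v ^ n)⁻¹ * t) * (r x)⁻¹) := by
      rw [hrs]
      group
    have hm1 : r x * sg v ^ n * (r x)⁻¹ ∈ stabilizer (Om ≃ₐ[K] Om) x0 := (hcm _).2 hsgn
    have hm2 : r x * ((sg v ^ n)⁻¹ * t) * (r x)⁻¹ ∈ stabilizer (Om ≃ₐ[K] Om) x0 :=
      (hcm _).2 (hN2X _ hn.2 x)
    rw [h7, hb1 _ hm1 _ ((hS.fam.normal N1 hN1).conj_mem _ hn.1 _) hm2, h6]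
    exact CardL_powH hb2 hgm hz n'
  · intro h
    have h1 : r x * sgx B E v x * (r x)⁻¹ ∈ rg K L Om := by rw [← hst]; exact hgm
    obtain ⟨s, hs⟩ := h1
    have h3 : s ∈ iner L (wX w r v x) := by
      rw [← res_mem_iner K, hs]
      unfold wX
      rw [Pool.Agent.SmN.F.mem_iner_tr]
      have h4 : (r x)⁻¹ * (r x * sgx B E v x * (r x)⁻¹) * r x = sg v ^ (E v x).1 := by
        rw [hsgx]
        group
      rw [h4]
      exact (iner K (w v)).pow_mem (hS.loc.iner v) _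
    have h5 := h _ hu.symm s h3
    rw [← hs]
    exact h5

end aux

theorem cardL (h2 : (2 : k) ≠ 0) (hl : l.Prime) (hζ : IsPrimitiveRoot ζ l)
    (hζK : ∃ z : K, algebraMap K Om z = ζ) (h0 : TameN N0) (hS : Std l ζ (NNt N0) w sg ph)
    (hX : TrivX (bK (NNt N0) w sg ph) X) {x0 : X} {r : X → (Om ≃ₐ[K] Om)}
    (hr : ∀ x, r x • x = x0) (hst : stabilizer (Om ≃ₐ[K] Om) x0 = rg K L Om)
    {E : Place k K → X → ℕ × ℕ × ℕ} (hE : OrbE l (bK (NNt N0) w sg ph) E) :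
    ∃ T0 : Finset (Place k K), ∀ T, T0 ⊆ T → ∃ A : Finset ((Om ≃ₐ[K] Om) → ZMod l),
      A.card = l ^ (∑ v ∈ T, Nat.card (orbitRel.Quotient (dec K (w v)) X)) ∧
      (∀ b ∈ A, HomT (bK (NNt N0) w sg ph) E x0 r T b) ∧
      ∀ b : (Om ≃ₐ[K] Om) → ZMod l, HomT (bK (NNt N0) w sg ph) E x0 r T b →
        ∃! b', b' ∈ A ∧ ∀ s ∈ stabilizer (Om ≃ₐ[K] Om) x0, b s = b' s := by
  classical
  have : NeZero l := ⟨hl.ne_zero⟩
  obtain ⟨p, hp1, hp2, hp3, hp4⟩ := exists_pL L hS.loc.below hr hst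
  have hζL : ∃ z : L, algebraMap L Om z = ζ := by
    obtain ⟨z, hz⟩ := hζK
    exact ⟨algebraMap K L z, by rw [← IsScalarTower.algebraMap_apply, hz]⟩
  -- the finite set
  obtain ⟨geo, -⟩ := Pool.Agent.GBC.exists_geo k L
  obtain ⟨SL, hSLf, -, hSLne, hSLP⟩ := exists_S geo (∅ : Set (Place k L)) Set.finite_empty
  choose pv px hpvx using hp4
  refine ⟨hSLf.toFinset.image pv, fun T hT => ?_⟩
  have hfinQ : ∀ v : Place k K, Finite (orbitRel.Quotient (dec K (w v)) X) := fun v =>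
    Quotient.finite _
  let eT : (Σ v : T, orbitRel.Quotient (dec K (w v.1)) X) → Place k L := fun o => p o.1.1 o.2.out
  have heT : Function.Injective eT := by
    rintro ⟨⟨v, hv⟩, o⟩ ⟨⟨v', hv'⟩, o'⟩ h
    obtain ⟨h1, d, hd, hdx⟩ := hp3 _ _ _ _ h
    change v = v' at h1
    subst h1
    change d • o.out = o'.out at hdx
    have h3 : o = o' := by
      rw [← Quotient.out_eq o, ← Quotient.out_eq o']
      refine (Quotient.sound (s := orbitRel (dec K (w v)) X) ?_).symm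
      exact ⟨⟨d, hd⟩, hdx⟩
    rw [h3]
  have hmem : ∀ u, u ∈ Set.range eT ↔ ∃ v ∈ T, ∃ x, p v x = u := by
    intro u
    constructor
    · rintro ⟨⟨⟨v, hv⟩, o⟩, rfl⟩
      exact ⟨v, hv, o.out, rfl⟩
    · rintro ⟨v, hv, x, rfl⟩
      refine ⟨⟨⟨v, hv⟩, Quotient.mk _ x⟩, ?_⟩
      have h1 : (Quotient.mk (orbitRel (dec K (w v)) X) x).out ∈ orbit (dec K (w v)) x :=
        Quotient.mk_out (s := orbitRel (dec K (w v)) X) x
      obtain ⟨d, hd⟩ := h1
      change p v (Quotient.mk (orbitRel (dec K (w v)) X) x).out = p v x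
      have h3 : (Quotient.mk (orbitRel (dec K (w v)) X) x).out = (d : Om ≃ₐ[K] Om) • x := hd.symm
      rw [h3, hp2 v x _ d.2]
  have hnot : ∀ v, v ∉ T → ∀ x, p v x ∉ Set.range eT := by
    intro v hv x h
    obtain ⟨v', hv', x', h1⟩ := (hmem _).1 h
    obtain ⟨h3, -⟩ := hp3 _ _ _ _ h1
    exact hv (h3 ▸ hv')
  have hsub : SL ⊆ Set.range eT := by
    intro u hu
    rw [hmem]
    refine ⟨pv u, hT (Finset.mem_image.2 ⟨u, hSLf.mem_toFinset.2 hu, rfl⟩), px u, hpvx u⟩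
  have hfin : (Set.range eT).Finite := Set.finite_range eT
  have hne : (Set.range eT).Nonempty := hSLne.mono hsub
  have hcardT : (Set.range eT).ncard =
      ∑ v ∈ T, Nat.card (orbitRel.Quotient (dec K (w v)) X) := by
    rw [← Nat.card_coe_set_eq, Nat.card_range_of_injective heT, Nat.card_sigma]
    exact Finset.sum_coe_sort T fun v => Nat.card (orbitRel.Quotient (dec K (w v)) X)
  obtain ⟨hCf, hCc⟩ := ncard_homO (K := L) h2 hl hζ hζL hfin hne (hSLP.mono hsub)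
  set C : Set ((Om ≃ₐ[L] Om) → ZMod l) :=
    {c | HomO l c ∧ ∀ v, v ∉ Set.range eT → UnrAt v c} with hC
  have hinj : Function.Injective
      (CardL_ex : ((Om ≃ₐ[L] Om) → ZMod l) → (Om ≃ₐ[K] Om) → ZMod l) := by
    intro c c' h
    funext s
    rw [← CardL_ex_res (K := K) c, ← CardL_ex_res (K := K) c', h]
  refine ⟨hCf.toFinset.image CardL_ex, ?_, ?_, ?_⟩
  · rw [Finset.card_image_of_injective _ hinj, ← Set.ncard_eq_toFinset_card _ hCf, hCc, hcardT]
  · intro b hb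
    obtain ⟨c, hc, rfl⟩ := Finset.mem_image.1 hb
    rw [Set.Finite.mem_toFinset] at hc
    have hH := CardL_ex_hom hl hζ h0 hX hst hc.1
    refine ⟨hH, fun v hv x => ?_⟩
    rw [CardL_unr hS hX hr hst hE hH v x (hp1 v x)]
    have h1 : (fun s : Om ≃ₐ[L] Om => (CardL_ex c : (Om ≃ₐ[K] Om) → ZMod l) (res K s)) = c := by
      funext s
      exact CardL_ex_res c s
    rw [h1]
    exact hc.2 _ (hnot v hv x)
  · intro b hb
    set c : (Om ≃ₐ[L] Om) → ZMod l := fun s => b (res K s) with hcd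
    have hcC : c ∈ C := by
      refine ⟨CardL_homO hst hb.1, fun u hu => ?_⟩
      have h1 : pv u ∉ T := by
        intro h
        exact hu ((hmem u).2 ⟨pv u, h, px u, hpvx u⟩)
      have h3 := (CardL_unr hS hX hr hst hE hb.1 (pv u) (px u) (hp1 _ _)).1 (hb.2 _ h1 _)
      rw [hpvx u] at h3
      exact h3
    refine ⟨CardL_ex c, ⟨Finset.mem_image.2 ⟨c, hCf.mem_toFinset.2 hcC, rfl⟩, ?_⟩, ?_⟩
    · intro s hs
      rw [hst] at hs
      obtain ⟨s, rfl⟩ := hs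
      rw [CardL_ex_res]
    · rintro b' ⟨hb', heq⟩
      obtain ⟨c', hc', rfl⟩ := Finset.mem_image.1 hb'
      congr 1
      funext s
      have h1 := heq (res K s) (by rw [hst]; exact ⟨s, rfl⟩)
      rw [CardL_ex_res] at h1
      exact h1.symm

end Pool.Agent.SmL.Fld
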