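import Pool.Agent.Lib.SmL.Fld.Std
import Pool.Agent.Lib.SmL.C.GalM

/-!
# SMITH-L, arithmetic: Kummer characters of order `l`

`chl l ζ a s`: `s r = ζ ^ (chl l ζ a s).val * r` for every `r` with `r ^ l = a`. `kummer`: `c : G → ZMod l` a
homomorphism with open kernel `U`; let `L` be the fixed field, `s ↦ ζ ^ (c s).val` is a cocycle with values in
`Ω^*`, so by Hilbert 90 (`h90` in `Ht/RK/Gal.lean`, or the argument of `SmF.kummer_open`, `SmF/Kummer.lean`) there is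
`r ∈ Ω^*` with `s r = ζ ^ (c s).val * r`; `r ^ l ∈ K`.
-/

set_option autoImplicit false

namespace Pool.Agent.SmL.Fld

open Pool.Agent.BSDFF Pool.Agent.Lib.SmD Pool.Agent.GBU Pool.Agent.SmL.C

variable {K Ω : Type} [Field K] [Field Ω] [Algebra K Ω]

open Classical in
/-- The Kummer character of `a`. -/
noncomputable def chl (l : ℕ) (ζ : Ω) (a : K) (s : Ω ≃ₐ[K] Ω) : ZMod l :=
  if h : ∃ i : ℕ, ∀ r : Ω, r ^ l = algebraMap K Ω a → s r = ζ ^ i * r then (h.choose : ZMod l)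
  else 0

variable [IsSepClosure K Ω] {l : ℕ} {ζ : Ω}

theorem exists_root (hl : l.Prime) (hζ : IsPrimitiveRoot ζ l) (a : K) :
    ∃ r : Ω, r ^ l = algebraMap K Ω a := by
  have h1 : NeZero l := ⟨hl.ne_zero⟩
  have h2 : NeZero ((l : ℕ) : Ω) := hζ.neZero'
  have h3 : IsSepClosed Ω := IsSepClosure.sep_closed K
  exact IsSepClosed.exists_pow_nat_eq (algebraMap K Ω a) l

/-- two powers of `ζ` with the same exponent mod `l` -/
private theorem Chi_mod (hζ : IsPrimitiveRoot ζ l) (i : ℕ) : ζ ^ (i % l) = ζ ^ i := by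
  conv_rhs => rw [← Nat.mod_add_div i l, pow_add, pow_mul, hζ.pow_eq_one, one_pow, mul_one]

private theorem Chi_val (hζ : IsPrimitiveRoot ζ l) (i : ℕ) :
    ζ ^ ((i : ZMod l)).val = ζ ^ i := by
  rw [ZMod.val_natCast, Chi_mod hζ]

private theorem Chi_inj (hl : l.Prime) (hζ : IsPrimitiveRoot ζ l) {i j : ℕ}
    (h : ζ ^ i = ζ ^ j) : (i : ZMod l) = j := by
  rw [← Chi_mod hζ i, ← Chi_mod hζ j] at h
  have h1 := hζ.pow_inj (Nat.mod_lt _ hl.pos) (Nat.mod_lt _ hl.pos) h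
  exact (ZMod.natCast_eq_natCast_iff' i j l).2 h1

private theorem Chi_ne {a : K} (hl : l.Prime) (ha : a ≠ 0) {r : Ω}
    (hr : r ^ l = algebraMap K Ω a) : r ≠ 0 := by
  rintro rfl
  rw [zero_pow hl.ne_zero] at hr
  exact ha ((map_eq_zero _).1 hr.symm)

/-- roots of the same element differ by a power of `ζ` -/
private theorem Chi_pow (hl : l.Prime) (hζ : IsPrimitiveRoot ζ l) {r r' : Ω} (h0 : r ≠ 0)
    (h : r' ^ l = r ^ l) : ∃ i : ℕ, r' = ζ ^ i * r := by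
  have h1 : (r' / r) ^ l = 1 := by
    rw [div_pow, h, div_self (pow_ne_zero _ h0)]
  have : NeZero l := ⟨hl.ne_zero⟩
  obtain ⟨i, -, hi⟩ := hζ.eq_pow_of_pow_eq_one h1
  exact ⟨i, by rw [hi, div_mul_cancel₀ _ h0]⟩

private theorem Chi_fix (hζK : ∃ z : K, algebraMap K Ω z = ζ) (s : Ω ≃ₐ[K] Ω) (i : ℕ) :
    s (ζ ^ i) = ζ ^ i := by
  obtain ⟨z, hz⟩ := hζK
  rw [map_pow, ← hz, AlgEquiv.commutes]

theorem chl_spec (hl : l.Prime) (hζ : IsPrimitiveRoot ζ l) (hζK : ∃ z : K, algebraMap K Ω z = ζ)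
    {a : K} (ha : a ≠ 0) (s : Ω ≃ₐ[K] Ω) {r : Ω} (hr : r ^ l = algebraMap K Ω a) :
    s r = ζ ^ (chl l ζ a s).val * r := by
  have hr0 := Chi_ne hl ha hr
  have h1 : (s r) ^ l = r ^ l := by
    rw [← map_pow, hr, AlgEquiv.commutes]
  obtain ⟨i, hi⟩ := Chi_pow hl hζ hr0 h1
  have h : ∃ i : ℕ, ∀ r : Ω, r ^ l = algebraMap K Ω a → s r = ζ ^ i * r := by
    refine ⟨i, fun r' hr' => ?_⟩
    obtain ⟨j, hj⟩ := Chi_pow hl hζ hr0 (hr'.trans hr.symm)
    rw [hj, map_mul, Chi_fix hζK, hi]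
    ring
  have h2 := h.choose_spec r hr
  have h3 : chl l ζ a s = (h.choose : ZMod l) := by
    unfold chl
    rw [dif_pos h]
  rw [h3, Chi_val hζ]
  exact h2

/-- The values are determined by one root. -/
theorem chl_eq_of (hl : l.Prime) (hζ : IsPrimitiveRoot ζ l)
    (hζK : ∃ z : K, algebraMap K Ω z = ζ) {a : K} (ha : a ≠ 0) {s : Ω ≃ₐ[K] Ω} {r : Ω}
    (hr : r ^ l = algebraMap K Ω a) {i : ℕ} (h : s r = ζ ^ i * r) : chl l ζ a s = i := by
  have hr0 := Chi_ne hl ha hr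
  have h1 := chl_spec hl hζ hζK ha s hr
  rw [h] at h1
  have h2 := Chi_inj hl hζ (mul_right_cancel₀ hr0 h1)
  rw [h2]
  have : NeZero l := ⟨hl.ne_zero⟩
  exact (ZMod.natCast_zmod_val _).symm

private theorem Chi_ker {c : (Ω ≃ₐ[K] Ω) → ZMod l} (hc : HomO l c) :
    ∃ N : Subgroup (Ω ≃ₐ[K] Ω), N.Normal ∧ IsOpen (N : Set (Ω ≃ₐ[K] Ω)) ∧
      ∀ s, s ∈ N ↔ c s = 0 := by
  have h1 : c 1 = 0 := by
    have h2 := hc.add 1 1
    rw [mul_one] at h2
    exact left_eq_add.1 h2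
  have hinv : ∀ s, c s⁻¹ = -c s := by
    intro s
    have h2 := hc.add s⁻¹ s
    rw [inv_mul_cancel, h1] at h2
    exact eq_neg_of_add_eq_zero_left h2.symm
  let N : Subgroup (Ω ≃ₐ[K] Ω) :=
    { carrier := {s | c s = 0}
      one_mem' := h1
      mul_mem' := by
        intro a b ha hb
        change c (a * b) = 0
        rw [hc.add, show c a = 0 from ha, show c b = 0 from hb, add_zero]
      inv_mem' := by
        intro a ha
        change c a⁻¹ = 0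
        rw [hinv, show c a = 0 from ha, neg_zero] }
  have hN : ∀ s, s ∈ N ↔ c s = 0 := fun s => Iff.rfl
  obtain ⟨U, hU, hUc⟩ := hc.fin
  refine ⟨N, ⟨fun s hs g => ?_⟩, ?_, hN⟩
  · rw [hN] at hs ⊢
    rw [hc.add, hc.add, hs, hinv]
    ring
  · exact Subgroup.isOpen_mono (H₁ := U) (fun s hs => hUc s hs) hU

theorem homO_chl (hl : l.Prime) (hζ : IsPrimitiveRoot ζ l)
    (hζK : ∃ z : K, algebraMap K Ω z = ζ) {a : K} (ha : a ≠ 0) : HomO l (chl l ζ a) := by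
  obtain ⟨r, hr⟩ := exists_root hl hζ a
  have : NeZero l := ⟨hl.ne_zero⟩
  have hr0 := Chi_ne hl ha hr
  have hgal : IsGalois K Ω := inferInstance
  refine ⟨fun s t => ?_, ?_⟩
  · have h1 : (s * t) r = ζ ^ ((chl l ζ a s).val + (chl l ζ a t).val) * r := by
      rw [AlgEquiv.mul_apply, chl_spec hl hζ hζK ha t hr, map_mul, Chi_fix hζK,
        chl_spec hl hζ hζK ha s hr, pow_add]
      ring
    rw [chl_eq_of hl hζ hζK ha hr h1, Nat.cast_add, ZMod.natCast_zmod_val, ZMod.natCast_zmod_val]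
  · obtain ⟨N, -, h2, h3⟩ := Pool.Agent.Ht.RK.exists_open_fix (K := K) (Units.mk0 r hr0)
    refine ⟨N, h2, fun s hs => ?_⟩
    have h4 : s r = ζ ^ 0 * r := by
      have h5 := congrArg Units.val (h3 s hs)
      rw [pow_zero, one_mul]
      exact h5
    rw [chl_eq_of hl hζ hζK ha hr h4, Nat.cast_zero]

theorem chl_mul (hl : l.Prime) (hζ : IsPrimitiveRoot ζ l)
    (hζK : ∃ z : K, algebraMap K Ω z = ζ) {a b : K} (ha : a ≠ 0) (hb : b ≠ 0)
    (s : Ω ≃ₐ[K] Ω) : chl l ζ (a * b) s = chl l ζ a s + chl l ζ b s := by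
  obtain ⟨r, hr⟩ := exists_root hl hζ a
  obtain ⟨t, ht⟩ := exists_root hl hζ b
  have : NeZero l := ⟨hl.ne_zero⟩
  have h0 : (r * t) ^ l = algebraMap K Ω (a * b) := by
    rw [mul_pow, hr, ht, map_mul]
  have h1 : s (r * t) = ζ ^ ((chl l ζ a s).val + (chl l ζ b s).val) * (r * t) := by
    rw [map_mul, chl_spec hl hζ hζK ha s hr, chl_spec hl hζ hζK hb s ht, pow_add]
    ring
  rw [chl_eq_of hl hζ hζK (mul_ne_zero ha hb) h0 h1, Nat.cast_add, ZMod.natCast_zmod_val,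
    ZMod.natCast_zmod_val]

theorem chl_eq_zero_iff (hl : l.Prime) (hζ : IsPrimitiveRoot ζ l)
    (hζK : ∃ z : K, algebraMap K Ω z = ζ) {a : K} (ha : a ≠ 0) :
    (∀ s : Ω ≃ₐ[K] Ω, chl l ζ a s = 0) ↔ ∃ b : K, b ^ l = a := by
  have : NeZero l := ⟨hl.ne_zero⟩
  constructor
  · intro h
    obtain ⟨r, hr⟩ := exists_root hl hζ a
    have h1 : ∀ s : Ω ≃ₐ[K] Ω, s r = r := by
      intro s
      rw [chl_spec hl hζ hζK ha s hr, h s, ZMod.val_zero, pow_zero, one_mul]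
    have h3 := (InfiniteGalois.mem_bot_iff_fixed (k := K) (K := Ω) r).2 h1
    obtain ⟨b, hb⟩ := IntermediateField.mem_bot.1 h3
    refine ⟨b, (algebraMap K Ω).injective ?_⟩
    rw [map_pow, hb, hr]
  · rintro ⟨b, rfl⟩ s
    have h1 : (algebraMap K Ω b) ^ l = algebraMap K Ω (b ^ l) := (map_pow _ _ _).symm
    have h2 : s (algebraMap K Ω b) = ζ ^ 0 * algebraMap K Ω b := by
      rw [AlgEquiv.commutes, pow_zero, one_mul]
    rw [chl_eq_of hl hζ hζK ha h1 h2, Nat.cast_zero]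

theorem HomO.kummer (hl : l.Prime) (hζ : IsPrimitiveRoot ζ l)
    (hζK : ∃ z : K, algebraMap K Ω z = ζ) {c : (Ω ≃ₐ[K] Ω) → ZMod l} (hc : HomO l c) :
    ∃ a : K, a ≠ 0 ∧ ∀ s, c s = chl l ζ a s := by
  have : NeZero l := ⟨hl.ne_zero⟩
  have hgal : IsGalois K Ω := inferInstance
  obtain ⟨N, hN, hNo, hNc⟩ := Chi_ker hc
  have hζ0 : ζ ≠ 0 := hζ.ne_zero hl.ne_zero
  let Z : Ωˣ := Units.mk0 ζ hζ0
  obtain ⟨y, hy⟩ := Pool.Agent.Ht.RK.h90 (K := K) ⊤ (fun s => Z ^ (c s).val)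
    ⟨N, hN, hNo, fun s _ n hn _ => by
      change Z ^ (c (s * n)).val = Z ^ (c s).val
      rw [hc.add, (hNc n).1 hn, add_zero]⟩
    (by
      intro s _ t _
      change Z ^ (c (s * t)).val = Z ^ (c s).val * s • Z ^ (c t).val
      apply Units.ext
      rw [Units.val_mul, Units.val_pow_eq_pow_val, Units.val_pow_eq_pow_val]
      change ζ ^ (c (s * t)).val = ζ ^ (c s).val * s ((Z ^ (c t).val : Ωˣ) : Ω)
      rw [Units.val_pow_eq_pow_val]
      change ζ ^ (c (s * t)).val = ζ ^ (c s).val * s (ζ ^ (c t).val)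
      rw [Chi_fix hζK, ← pow_add, hc.add]
      conv_rhs => rw [← Chi_val hζ ((c s).val + (c t).val)]
      rw [Nat.cast_add, ZMod.natCast_zmod_val, ZMod.natCast_zmod_val])
  have h1 : ∀ s : Ω ≃ₐ[K] Ω, s (y : Ω) = ζ ^ (c s).val * (y : Ω) := by
    intro s
    have h2 := congrArg Units.val (hy s (Subgroup.mem_top s))
    rw [Units.val_mul, Units.val_inv_eq_inv_val] at h2
    change ((Z ^ (c s).val : Ωˣ) : Ω) = s (y : Ω) * (y : Ω)⁻¹ at h2
    rw [Units.val_pow_eq_pow_val] at h2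
    change ζ ^ (c s).val = s (y : Ω) * (y : Ω)⁻¹ at h2
    rw [h2, inv_mul_cancel_right₀ y.ne_zero]
  have h3 : ∀ s : Ω ≃ₐ[K] Ω, s ((y : Ω) ^ l) = (y : Ω) ^ l := by
    intro s
    rw [map_pow, h1 s, mul_pow, ← pow_mul, mul_comm (c s).val l, pow_mul, hζ.pow_eq_one, one_pow,
      one_mul]
  have h4 := (InfiniteGalois.mem_bot_iff_fixed (k := K) (K := Ω) ((y : Ω) ^ l)).2 h3
  obtain ⟨a, ha⟩ := IntermediateField.mem_bot.1 h4
  have ha0 : a ≠ 0 := by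
    rintro rfl
    rw [map_zero] at ha
    exact pow_ne_zero l y.ne_zero ha.symm
  refine ⟨a, ha0, fun s => ?_⟩
  rw [chl_eq_of hl hζ hζK ha0 ha.symm (h1 s), ZMod.natCast_zmod_val]

/-- A homomorphism with open kernel is of finite level. -/
theorem HomO.level {k : Type} [Field k] (hl : l.Prime) {NN : Set (Subgroup (Ω ≃ₐ[K] Ω))}
    (hN : FamL k l NN) (htop : ⊤ ∈ NN) {c : (Ω ≃ₐ[K] Ω) → ZMod l} (hc : HomO l c) :
    ∃ N ∈ NN, ∀ s, ∀ n ∈ N, c (s * n) = c s := by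
  obtain ⟨N, hNn, hNo, hNc⟩ := Chi_ker hc
  have hpow : ∀ (s : Ω ≃ₐ[K] Ω) (m : ℕ), c (s ^ m) = m * c s := by
    intro s m
    induction m with
    | zero =>
      rw [pow_zero, Nat.cast_zero, zero_mul]
      exact (hNc 1).1 N.one_mem
    | succ m ih =>
      rw [pow_succ, hc.add, ih]
      push_cast
      ring
  refine ⟨N, hN.ext ⊤ htop N hNn hNo le_top ?_, fun s n hn => ?_⟩
  · intro s _
    refine ⟨1, (hNc _).2 ?_⟩
    rw [pow_one, hpow, ZMod.natCast_self, zero_mul]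
  · rw [hc.add, (hNc n).1 hn, add_zero]

end Pool.Agent.SmL.Fld
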