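import Pool.Agent.Lib.SmL.C.RecF
import Pool.Agent.Lib.SmL.C.HasseF
import Pool.Agent.Lib.SmN.Fin.Const

/-!
# SMITH-L, arithmetic: reciprocity and the Hasse principle without the condition that `k` is the exact
field of constants

`recF`, `hasseF` need `IsFrC k fr`, i.e. `k` = the exact field of constants. In general let `k' = cst k K`
(`SmN/Fin/Const.lean`: `finite_cst`, `trdeg_cst`, `essFinite_cst`, `const_cst`; `exists_ratFunc` gives the algebra
over `RatFunc k'`; `K` is `EssFiniteType` over `k` of transcendence degree 1, see `GBC`, `SmN/Fin`);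
`plE k k' : Place k K ≃ Place k' K`, `degree_plE`, so `#k ^ deg_k v = #k' ^ deg_k' v`; `IsC k x ↔ IsC k' x`; `exists_isFrC`.
`FamL k' l NN`: only `hc` depends on `k`; `HcK k' K Ω (l ^ r) ∈ NN` by `ext` from `⊤ = HcK k K Ω (l ^ 0) ∈ NN`, as every
`s` satisfies `s ^ (l ^ r) ∈ HcK k' K Ω (l ^ r)` (`s` acts on the finite field `{x | x ^ (#k'^(l^r)) = x}` as an element of
its Galois group over `k'`, which is cyclic of order `l ^ r`; cf. `exists_pow_inv_mul_mem`, `exists_pow_of_isC`).
-/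

set_option autoImplicit false

namespace Pool.Agent.SmL.Fld

open Pool.Agent.BSDFF Pool.Agent.Lib.SmD Pool.Agent.GBU Pool.Agent.SmL.C

open Pool.Agent.SmN.Fnl
open Pool.Agent.GBC (exists_ratFunc)

section aux

private theorem Cst_ess (k K : Type) [Field k] [Field K] [Algebra k K] [Algebra (RatFunc k) K]
    [IsScalarTower k (RatFunc k) K] [FiniteDimensional (RatFunc k) K] :
    Algebra.EssFiniteType k K := by
  have h1 : Algebra.EssFiniteType (Polynomial k) (RatFunc k) :=
    Algebra.EssFiniteType.of_isLocalization (RatFunc k) (nonZeroDivisors (Polynomial k))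
  have h2 : Algebra.EssFiniteType k (RatFunc k) :=
    Algebra.EssFiniteType.comp k (Polynomial k) (RatFunc k)
  have h3 : Algebra.EssFiniteType (RatFunc k) K := inferInstance
  exact Algebra.EssFiniteType.comp k (RatFunc k) K

private theorem Cst_trdeg (k K : Type) [Field k] [Field K] [Algebra k K] [Algebra (RatFunc k) K]
    [IsScalarTower k (RatFunc k) K] [FiniteDimensional (RatFunc k) K] :
    Algebra.trdeg k K = 1 := by
  have h1 : Algebra.trdeg k (RatFunc k) = 1 := by
    have : Algebra.IsAlgebraic (Polynomial k) (RatFunc k) :=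
      IsLocalization.isAlgebraic (RatFunc k) (nonZeroDivisors (Polynomial k))
    have e1 := trdeg_add_eq k (Polynomial k) (A := RatFunc k)
    rw [Polynomial.trdeg_of_isDomain, trdeg_eq_zero, add_zero] at e1
    exact e1.symm
  have e2 := trdeg_add_eq k (RatFunc k) (A := K)
  rw [h1, trdeg_eq_zero, add_zero] at e2
  exact e2.symm

private theorem Cst_card (k k' : Type) [Field k] [Field k'] [Finite k] [Finite k']
    [Algebra k k'] : Nat.card k' = Nat.card k ^ Module.finrank k k' := by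
  have h1 : Module.Finite k k' := Module.Finite.of_finite
  have := Fintype.ofFinite k
  have := Fintype.ofFinite k'
  rw [Nat.card_eq_fintype_card, Nat.card_eq_fintype_card]
  exact Module.card_eq_pow_finrank

private theorem Cst_isC {k k' Ω : Type} [Field k] [Field k'] [Finite k] [Finite k']
    [Algebra k k'] [Field Ω] {x : Ω} (h : IsC k x) : IsC k' x := by
  obtain ⟨n, hn, hx⟩ := h
  refine ⟨n, hn, ?_⟩
  rw [Cst_card k k', ← pow_mul, mul_comm]
  exact pow_level hx _

private theorem Cst_isC' {k k' Ω : Type} [Field k] [Field k'] [Finite k] [Finite k']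
    [Algebra k k'] [Field Ω] {x : Ω} (h : IsC k' x) : IsC k x := by
  obtain ⟨n, hn, hx⟩ := h
  refine ⟨Module.finrank k k' * n, Nat.mul_pos (finrank_pos k k') hn, ?_⟩
  rw [pow_mul, ← Cst_card k k']
  exact hx

variable {k k' K Ω : Type} [Field k] [Field k'] [Finite k] [Finite k'] [Field K]
  [Algebra k K] [Algebra k' K] [Algebra k k'] [IsScalarTower k k' K] [Field Ω] [Algebra K Ω]

omit [Algebra k k'] [IsScalarTower k k' K] in
private theorem Cst_hc [Algebra.IsAlgebraic K Ω] {l : ℕ} (hl : 0 < l)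
    {NN : Set (Subgroup (Ω ≃ₐ[K] Ω))} (hN : FamL k l NN) {fr : Ω ≃ₐ[K] Ω} (hfr : IsFrC k' fr)
    (r : ℕ) : HcK k' K Ω (l ^ r) ∈ NN := by
  have hpos : 0 < l ^ r := pow_pos hl r
  have hnorm : (HcK k' K Ω (l ^ r)).Normal := Ht.RK.HcK_normal
  have htop : HcK k K Ω (l ^ 0) = ⊤ := by
    rw [eq_top_iff]
    intro s _ x hx
    rw [pow_zero, pow_one] at hx
    obtain ⟨a, rfl⟩ := mem_k_of_pow_eq (k := k) (K := K) hx
    exact s.commutes _
  refine hN.ext _ (hN.hc 0) _ hnorm (isOpen_HcK hpos) (by rw [htop]; exact le_top) ?_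
  intro s _
  refine ⟨r, ?_⟩
  obtain ⟨i, hi⟩ := exists_pow_inv_mul_mem hfr hpos s
  have hfrn : fr ^ (l ^ r) ∈ HcK k' K Ω (l ^ r) := by
    intro x hx
    rw [hfr.pow _ ⟨_, hpos, hx⟩, hx]
  rw [← QuotientGroup.eq_one_iff] at hfrn hi ⊢
  rw [QuotientGroup.mk_mul, QuotientGroup.mk_inv, inv_mul_eq_one] at hi
  rw [QuotientGroup.mk_pow, ← hi, QuotientGroup.mk_pow, ← pow_mul, mul_comm, pow_mul,
    ← QuotientGroup.mk_pow, hfrn, one_pow]

omit [Algebra k k'] [IsScalarTower k k' K] in
private theorem Cst_famL [Algebra.IsAlgebraic K Ω] {l : ℕ} (hl : 0 < l)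
    {NN : Set (Subgroup (Ω ≃ₐ[K] Ω))} (hN : FamL k l NN) {fr : Ω ≃ₐ[K] Ω} (hfr : IsFrC k' fr) :
    FamL k' l NN :=
  ⟨hN.normal, hN.isOpen, hN.inf_mem, Cst_hc hl hN hfr, hN.ext⟩

private theorem Cst_cardpow (v : Place k' K) :
    Nat.card k' ^ v.degree = Nat.card k ^ ((plE k k' : Place k K ≃ Place k' K).symm v).degree := by
  rw [Cst_card k k', ← pow_mul, degree_plE k k', Equiv.apply_symm_apply]

private theorem Cst_locL {l : ℕ} {ζ : Ω}
    {NN : Set (Subgroup (Ω ≃ₐ[K] Ω))} {w : Place k K → ValuationSubring Ω}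
    {sg ph : Place k K → Ω ≃ₐ[K] Ω} (hL : LocL l ζ NN w sg ph) :
    LocL l ζ NN (fun v : Place k' K => w ((plE k k').symm v))
      (fun v => sg ((plE k k').symm v)) (fun v => ph ((plE k k').symm v)) where
  below v := hL.below _
  iner v := hL.iner _
  val v π hπ r hr := hL.val ((plE k k').symm v) π hπ r hr
  cst v x hx := by
    rw [Cst_cardpow (k := k)]
    exact hL.cst _ x (Cst_isC' hx)
  rel v N hN := by
    rw [Cst_cardpow (k := k)]
    exact hL.rel _ N hN

end aux

variable {k K Ω : Type} [Field k] [Finite k] [Field K] [Algebra k K] [Algebra (RatFunc k) K]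
  [IsScalarTower k (RatFunc k) K] [FiniteDimensional (RatFunc k) K]
  [Algebra.IsSeparable (RatFunc k) K] [Field Ω] [Algebra K Ω] [IsSepClosure K Ω]

theorem recG (h2 : (2 : k) ≠ 0) {l : ℕ} (hl : l.Prime) {ζ : Ω} (hζ : IsPrimitiveRoot ζ l)
    (hζK : ∃ z : K, algebraMap K Ω z = ζ)
    {NN : Set (Subgroup (Ω ≃ₐ[K] Ω))} (hN : FamL k l NN) {w : Place k K → ValuationSubring Ω}
    {sg ph : Place k K → Ω ≃ₐ[K] Ω} (hL : LocL l ζ NN w sg ph)
    {z : (Ω ≃ₐ[K] Ω) → (Ω ≃ₐ[K] Ω) → ZMod l} (hz : Coc2N l NN z) :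
    {v : Place k K | linv (sg v) (ph v) (Nat.card k ^ v.degree) z ≠ 0}.Finite ∧
      ∑ᶠ v : Place k K, linv (sg v) (ph v) (Nat.card k ^ v.degree) z = 0 := by
  classical
  have hess0 : Algebra.EssFiniteType k K := Cst_ess k K
  have htr0 : Algebra.trdeg k K = 1 := Cst_trdeg k K
  have hfin : Finite (cst k K) := finite_cst k K htr0
  have htr : Algebra.trdeg (cst k K) K = 1 := trdeg_cst k K htr0
  have hess : Algebra.EssFiniteType (cst k K) K := essFinite_cst k K
  have hpf : PerfectField (cst k K) := inferInstance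
  have hgal : IsGalois K Ω := IsSepClosure.isGalois
  obtain ⟨alg, i1, i2, i3⟩ := exists_ratFunc (cst k K) K htr
  have h2' : (2 : cst k K) ≠ 0 := by
    intro h
    apply h2
    apply (algebraMap k (cst k K)).injective
    rw [map_ofNat, h, map_zero]
  obtain ⟨fr, hfr⟩ := exists_isFrC (k := cst k K) (K := K) (Om := Ω) (const_cst k K)
  have hN' : FamL (cst k K) l NN := Cst_famL hl.pos hN hfr
  have hL' := Cst_locL (k' := cst k K) hL
  obtain ⟨r1, r3⟩ := recF h2' hl hζ hζK hfr hN' hL' hz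
  have key : ∀ v : Place (cst k K) K,
      linv (sg ((plE k (cst k K)).symm v)) (ph ((plE k (cst k K)).symm v))
        (Nat.card (cst k K) ^ v.degree) z =
      linv (sg ((plE k (cst k K)).symm v)) (ph ((plE k (cst k K)).symm v))
        (Nat.card k ^ ((plE k (cst k K)).symm v).degree) z := fun v => by
    rw [Cst_cardpow (k := k)]
  refine ⟨?_, ?_⟩
  · refine (r1.preimage ((plE k (cst k K) : Place k K ≃ _).injective.injOn)).subset fun v hv => ?_
    change linv _ _ _ z ≠ 0
    rw [key, Equiv.symm_apply_apply]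
    exact hv
  · rw [← finsum_comp_equiv (plE k (cst k K) : Place k K ≃ Place (cst k K) K)] at r3
    rw [← r3]
    refine finsum_congr fun v => ?_
    rw [key, Equiv.symm_apply_apply]

theorem hasseG (h2 : (2 : k) ≠ 0) {l : ℕ} (hl : l.Prime) {ζ : Ω} (hζ : IsPrimitiveRoot ζ l)
    (hζK : ∃ z : K, algebraMap K Ω z = ζ)
    {NN : Set (Subgroup (Ω ≃ₐ[K] Ω))} (hN : FamL k l NN) {w : Place k K → ValuationSubring Ω}
    {sg ph : Place k K → Ω ≃ₐ[K] Ω} (hL : LocL l ζ NN w sg ph)
    {z : (Ω ≃ₐ[K] Ω) → (Ω ≃ₐ[K] Ω) → ZMod l} (hz : Coc2N l NN z)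
    (h : ∀ v : Place k K, linv (sg v) (ph v) (Nat.card k ^ v.degree) z = 0) :
    ∃ b : (Ω ≃ₐ[K] Ω) → ZMod l, (∃ N ∈ NN, ∀ s, ∀ n ∈ N, b (s * n) = b s) ∧
      ∀ s t, z s t = b s + b t - b (s * t) := by
  classical
  have hess0 : Algebra.EssFiniteType k K := Cst_ess k K
  have htr0 : Algebra.trdeg k K = 1 := Cst_trdeg k K
  have hfin : Finite (cst k K) := finite_cst k K htr0
  have htr : Algebra.trdeg (cst k K) K = 1 := trdeg_cst k K htr0
  have hess : Algebra.EssFiniteType (cst k K) K := essFinite_cst k K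
  have hpf : PerfectField (cst k K) := inferInstance
  have hgal : IsGalois K Ω := IsSepClosure.isGalois
  obtain ⟨alg, i1, i2, i3⟩ := exists_ratFunc (cst k K) K htr
  have h2' : (2 : cst k K) ≠ 0 := by
    intro h
    apply h2
    apply (algebraMap k (cst k K)).injective
    rw [map_ofNat, h, map_zero]
  obtain ⟨fr, hfr⟩ := exists_isFrC (k := cst k K) (K := K) (Om := Ω) (const_cst k K)
  have hN' : FamL (cst k K) l NN := Cst_famL hl.pos hN hfr
  have hL' := Cst_locL (k' := cst k K) hL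
  refine hasseF h2' hl hζ hζK hfr hN' hL' hz fun v => ?_
  rw [Cst_cardpow (k := k)]
  exact h _

end Pool.Agent.SmL.Fld
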