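import Pool.Agent.Lib.SmL.Fld.NNt
import Pool.Agent.Lib.SmL.C.SgN

/-!
# SMITH-L, arithmetic: existence of the standard data

PORT of `exists_isTGN` (`SmL/C/SgN.lean`) from `NP` to `NNt N0`, with `tame_genN` (all `N ∈ NNt N0` are
`TameAt`, `tameAt_NNt`; `w v ≠ ⊤` because `below K (w v) = v.ring ≠ ⊤`), at `w v` instead of `abK Ω v`
(`locHyp_of_below`, `charOk_of_finite`). In the compactness argument: for `N ∈ NNt N0` and a generator `τ₀` modulo
`N ⊓ N_r` (`N_r ∈ NNt N0` by `FamL.ext` from `⊤`) the exponent `u` is chosen prime to the order of `τ₀`.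
`ph v`: `SmD.exists_frob`; `LocL.cst`: a Frobenius acts on the constants by `x ↦ x ^ resCard` (`GBU/GeoC.lean` near
line 333); `resCard v.ring = #k ^ deg v`. `rel`: `tame_frobN`. `gen`: as `IsTG.dec_gen'` in `GBU/TG.lean`
(`fin_gen`, `igen`). `tame`: `tame_exp`. `unr`: for `N ∈ NNt N0` almost all inertia groups are contained in `N`
(`unrK` in `GBU`, used in `SmN/F/LInst.lean`: `unrK (Om := Om) h2 (isOpen)`; a finite extension is
unramified at almost all places; it is stated for `sgK`, i.e. for the chosen place `abK`: places above the same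
place are conjugate and `N` is normal).
-/

set_option autoImplicit false

namespace Pool.Agent.SmL.Fld

open Pool.Agent.BSDFF Pool.Agent.Lib.SmD Pool.Agent.GBU Pool.Agent.SmL.Ar Pool.Agent.SmL.C

variable {k K Ω : Type} [Field k] [Finite k] [Field K] [Algebra k K] [Algebra (RatFunc k) K]
  [IsScalarTower k (RatFunc k) K] [FiniteDimensional (RatFunc k) K]
  [Algebra.IsSeparable (RatFunc k) K] [Field Ω] [Algebra K Ω] [IsSepClosure K Ω]

private theorem ExStd_coprime {l j m : ℕ} (hl : l.Prime) (hj : ¬ l ∣ j) (hm : m ≠ 0) :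
    ∃ u : ℕ, u * j ≡ 1 [MOD l] ∧ Nat.Coprime u m := by
  obtain ⟨e, m', hm', rfl⟩ := Nat.exists_eq_pow_mul_and_not_dvd hm l hl.ne_one
  have hc : Nat.Coprime l m' := (Nat.Prime.coprime_iff_not_dvd hl).2 hm'
  have hcj : Nat.Coprime j l := ((Nat.Prime.coprime_iff_not_dvd hl).2 hj).symm
  obtain ⟨i, -, hi⟩ := Nat.exists_mul_mod_eq_one_of_coprime hcj hl.one_lt
  obtain ⟨u, hu1, hu2⟩ := Nat.chineseRemainder hc i 1
  refine ⟨u, ?_, ?_⟩
  · have h1 : u * j ≡ i * j [MOD l] := hu1.mul_right j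
    refine h1.trans ?_
    rw [mul_comm, Nat.ModEq, hi, Nat.mod_eq_of_lt hl.one_lt]
  · have h1 : Nat.Coprime u m' := by
      have := hu2.gcd_eq
      rw [Nat.gcd_one_left] at this
      exact this
    have h2 : Nat.Coprime u l := by
      rw [Nat.coprime_comm, Nat.Prime.coprime_iff_not_dvd hl]
      intro h3
      have h4 : u * j ≡ 1 [MOD l] := by
        refine (hu1.mul_right j).trans ?_
        rw [mul_comm, Nat.ModEq, hi, Nat.mod_eq_of_lt hl.one_lt]
      have h5 : l ∣ u * j := h3.mul_right j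
      have h6 : l ∣ 1 := (h4.dvd_iff dvd_rfl).1 h5
      exact hl.one_lt.ne' (Nat.dvd_one.1 h6)
    exact Nat.Coprime.mul_right (h2.pow_right e) h1

/-- a root of unity of order `l` which is `1` in the residue field is `1` -/
private theorem ExStd_one {F : Type*} [Field F] (w : ValuationSubring F) {l : ℕ}
    (hwl : w.valuation (l : F) = 1) {z : F} (hz : z ^ l = 1) (h : w.valuation (z - 1) < 1) :
    z = 1 := by
  by_contra hne
  have hl0 : l ≠ 0 := by
    rintro rfl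
    rw [Nat.cast_zero, map_zero] at hwl
    exact zero_ne_one hwl
  have hzw : w.valuation z = 1 := by
    have h1 : w.valuation z ^ l = 1 := by rw [← map_pow, hz, map_one]
    exact (pow_eq_one_iff.1 h1).resolve_right hl0
  have h1 : ∑ i ∈ Finset.range l, z ^ i = 0 := by
    have h2 := geom_sum_mul z l
    rw [hz, sub_self] at h2
    exact (mul_eq_zero.1 h2).resolve_right (sub_ne_zero.2 hne)
  have h3 : (l : F) = -∑ i ∈ Finset.range l, (z ^ i - 1) := by
    rw [Finset.sum_sub_distrib, h1]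
    simp
  have h4 : w.valuation (∑ i ∈ Finset.range l, (z ^ i - 1)) < 1 := by
    refine w.valuation.map_sum_lt one_ne_zero fun i _ => ?_
    rw [← geom_sum_mul z i, map_mul]
    refine lt_of_le_of_lt (mul_le_of_le_one_left' ?_) h
    refine w.valuation.map_sum_le fun j _ => ?_
    rw [map_pow, hzw, one_pow]
  rw [h3, Valuation.map_neg] at hwl
  exact absurd hwl h4.ne


omit [Finite k] [Algebra (RatFunc k) K] [IsScalarTower k (RatFunc k) K]
  [FiniteDimensional (RatFunc k) K] [Algebra.IsSeparable (RatFunc k) K] [IsSepClosure K Ω] in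
private theorem ExStd_ne_top {v : Place k K} {w : ValuationSubring Ω}
    (hbel : below K w = v.ring) : w ≠ ⊤ := by
  rintro rfl
  have h1 : v.ring = ⊤ := by
    rw [← hbel]
    ext x
    exact ⟨fun _ => trivial, fun _ => trivial⟩
  obtain ⟨π, hπ⟩ := IsDiscreteValuationRing.exists_irreducible v.ring
  have hπ0 : (π : K) ≠ 0 := fun h => hπ.ne_zero (Subtype.ext h)
  have h2 : (π : K)⁻¹ ∈ v.ring := (SetLike.ext_iff.1 h1 _).2 trivial
  apply hπ.not_isUnit
  refine IsUnit.of_mul_eq_one (⟨(π : K)⁻¹, h2⟩ : v.ring) ?_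
  exact Subtype.ext (mul_inv_cancel₀ hπ0)

omit [Algebra.IsSeparable (RatFunc k) K] in
/-- The tame generator at one place. -/
private theorem ExStd_sg (h2 : (2 : k) ≠ 0) {l : ℕ} (hl : l.Prime) {ζ : Ω}
    (hζ : IsPrimitiveRoot ζ l) (hζK : ∃ z : K, algebraMap K Ω z = ζ)
    {N0 : Subgroup (Ω ≃ₐ[K] Ω)} (h0 : TameN N0) {v : Place k K} {w : ValuationSubring Ω}
    (hbel : below K w = v.ring) :
    ∃ τ ∈ iner K w, (∀ N ∈ NNt N0, ∀ σ ∈ iner K w, ∃ n : ℕ, (τ ^ n)⁻¹ * σ ∈ N) ∧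
      ∀ π : v.ring, Irreducible π → ∀ r : Ω, r ^ l = algebraMap K Ω (π : K) → τ r = ζ * r := by
  classical
  have hsc : IsSepClosed Ω := IsSepClosure.sep_closed K
  have hgal : IsGalois K Ω := inferInstance
  have hl0 : NeZero l := ⟨hl.ne_zero⟩
  have hlΩ : NeZero ((l : ℕ) : Ω) := hζ.neZero'
  have hlK : (l : K) ≠ 0 := by
    intro h
    apply hlΩ.out
    rw [← map_natCast (algebraMap K Ω), h, map_zero]
  have hwt : w ≠ ⊤ := ExStd_ne_top hbel
  have hpr : (ringChar K).Prime := by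
    have h1 : ringChar k = ringChar K := Algebra.ringChar_eq k K
    rw [← h1]
    exact CharP.char_is_prime k (ringChar k)
  have hfam : FamL k l (NNt N0) := famL_NNt (k := k) hl hlK h0.normal
  have htop : (⊤ : Subgroup (Ω ≃ₐ[K] Ω)) ∈ NNt N0 := by
    refine ⟨inferInstance, isOpen_univ, ?_⟩
    rw [Subgroup.relIndex_top_left, Nat.cast_one]
    exact one_ne_zero
  obtain ⟨z₀, hz₀⟩ := hζK
  have hfix : ∀ (σ : Ω ≃ₐ[K] Ω) (x : Ω), x ^ l = 1 → σ x = x := by
    intro σ x hx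
    obtain ⟨i, -, rfl⟩ := hζ.eq_pow_of_pow_eq_one hx
    rw [map_pow, ← hz₀, AlgEquiv.commutes]
  have hchar : CharOk w := charOk_of_finite k K w
  have hwl : w.valuation (l : Ω) = 1 := hchar l hlΩ.out
  obtain ⟨π, hπ⟩ := IsDiscreteValuationRing.exists_irreducible v.ring
  have hL : LocHyp K w (π : K) := locHyp_of_below h2 v w hbel hπ
  obtain ⟨r, hr⟩ := IsSepClosed.exists_pow_nat_eq (algebraMap K Ω (π : K)) l
  have hπ0 : algebraMap K Ω (π : K) ≠ 0 := (map_ne_zero_iff _ (algebraMap K Ω).injective).2 hL.pi_ne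
  have hr0 : r ≠ 0 := by
    rintro rfl
    rw [zero_pow hl.ne_zero] at hr
    exact hπ0 hr.symm
  have hroot : ∀ σ : Ω ≃ₐ[K] Ω, (σ r / r) ^ l = 1 := by
    intro σ
    rw [div_pow, ← map_pow, hr, AlgEquiv.commutes, div_self hπ0]
  -- the homomorphism `g ↦ g r / r`
  let f : (Ω ≃ₐ[K] Ω) →* Ωˣ :=
    { toFun := fun σ => Units.mk0 (σ r / r) (div_ne_zero ((map_ne_zero_iff _ σ.injective).2 hr0) hr0)
      map_one' := by
        apply Units.ext
        rw [Units.val_mk0, AlgEquiv.one_apply, div_self hr0, Units.val_one]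
      map_mul' := by
        intro σ τ
        apply Units.ext
        rw [Units.val_mul, Units.val_mk0, Units.val_mk0, Units.val_mk0, AlgEquiv.mul_apply]
        have h1 : σ (τ r / r) = τ r / r := hfix σ _ (hroot τ)
        rw [map_div₀] at h1
        have hσr : σ r ≠ 0 := (map_ne_zero_iff _ σ.injective).2 hr0
        field_simp at h1 ⊢
        linear_combination h1 }
  have hfker : ∀ σ, σ ∈ f.ker ↔ σ r = r := by
    intro σ
    rw [MonoidHom.mem_ker, Units.ext_iff]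
    change σ r / r = 1 ↔ _
    rw [div_eq_one_iff_eq hr0]
  have hNr : f.ker ∈ NNt N0 := by
    refine hfam.ext ⊤ htop f.ker inferInstance ?_ le_top fun s _ => ⟨1, ?_⟩
    · have h1 : (f.ker : Set (Ω ≃ₐ[K] Ω)) = (MulAction.stabilizer (Ω ≃ₐ[K] Ω) r :
          Set (Ω ≃ₐ[K] Ω)) := by
        ext σ
        rw [SetLike.mem_coe, hfker, SetLike.mem_coe, MulAction.mem_stabilizer_iff]
        exact Iff.rfl
      rw [h1]
      exact stabilizer_isOpen_of_isIntegral (K := K) r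
    · rw [MonoidHom.mem_ker, map_pow, pow_one]
      apply Units.ext
      rw [Units.val_pow_eq_pow_val, Units.val_one]
      exact hroot s
  -- the sets
  let C : NNt N0 → Set (Ω ≃ₐ[K] Ω) := fun N =>
    ((iner K w : Set (Ω ≃ₐ[K] Ω)) ∩ {τ | ∀ σ ∈ iner K w, ∃ n : ℕ, (τ ^ n)⁻¹ * σ ∈ N.1}) ∩
      {τ | τ r = ζ * r}
  have hne : ∀ N, (C N).Nonempty := by
    intro N
    have hN1 : N.1 ⊓ f.ker ∈ NNt N0 := hfam.inf_mem _ N.2 _ hNr
    have hNn := hN1.1
    have hNfi : (N.1 ⊓ f.ker).FiniteIndex := fi_NNt hN1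
    have hN0 : (N.1 ⊓ f.ker).index ≠ 0 := hNfi.index_ne_zero
    obtain ⟨τ₀, hτ₀, hgen⟩ := tame_genN hL hchar hN1.1 hN1.2.1 (tameAt_NNt hpr h0 hN1 hwt)
    -- `τ₀` moves `r`
    have hτr : τ₀ r ≠ r := by
      intro h
      have h1 : iner K w ≤ f.ker := by
        intro σ hσ
        obtain ⟨n, hn⟩ := hgen σ hσ
        have h3 := f.ker.mul_mem (f.ker.pow_mem ((hfker τ₀).2 h) n) hn.2
        rwa [mul_inv_cancel_left] at h3
      obtain ⟨n, hn⟩ := value_iner hL hr0 fun σ hσ => (hfker σ).1 (h1 hσ)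
      set g := w.valuation (algebraMap K Ω (π : K)) with hg
      have h3 : g ^ (1 : ℤ) = g ^ (n * l) := by
        rw [zpow_one, zpow_mul, ← hn, zpow_natCast, ← map_pow, hr]
      have h4 : g ≠ 0 := (Valuation.ne_zero_iff _).2 hπ0
      have h5 : (1 : ℤ) = n * l :=
        (zpow_right_injective₀ (zero_lt_iff.2 h4) hL.pi_lt.ne) h3
      have h6 : (l : ℤ) ∣ 1 := ⟨n, by rw [h5]; ring⟩
      have h7 : l ∣ 1 := by exact_mod_cast h6
      exact hl.one_lt.ne' (Nat.dvd_one.1 h7)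
    obtain ⟨j, hjl, hj⟩ := hζ.eq_pow_of_pow_eq_one (hroot τ₀)
    have hjr : τ₀ r = ζ ^ j * r := by
      rw [hj, div_mul_cancel₀ _ hr0]
    have hjd : ¬ l ∣ j := by
      rintro ⟨i, rfl⟩
      apply hτr
      rw [hjr, pow_mul, hζ.pow_eq_one, one_pow, one_mul]
    have hpow : ∀ n : ℕ, (τ₀ ^ n) r = ζ ^ (n * j) * r := by
      intro n
      induction n with
      | zero => simp
      | succ n ih =>
        rw [pow_succ', AlgEquiv.mul_apply, ih, map_mul, hjr, hfix τ₀ (ζ ^ (n * j)) (by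
          rw [← pow_mul, mul_comm, pow_mul, hζ.pow_eq_one, one_pow])]
        ring
    obtain ⟨u, hu1, hu2⟩ := ExStd_coprime hl hjd hN0
    refine ⟨τ₀ ^ u, ⟨(iner K w).pow_mem hτ₀ u, fun σ hσ => ?_⟩, ?_⟩
    · obtain ⟨n, hn⟩ := hgen σ hσ
      obtain ⟨n', hn'⟩ : ∃ n' : ℕ, n ≡ u * n' [MOD (N.1 ⊓ f.ker).index] := by
        by_cases h1 : (N.1 ⊓ f.ker).index = 1
        · exact ⟨0, by rw [h1]; exact Nat.modEq_one⟩
        · obtain ⟨i, -, hi⟩ := Nat.exists_mul_mod_eq_one_of_coprime hu2 (by omega)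
          refine ⟨i * n, ?_⟩
          have h3 : u * i ≡ 1 [MOD (N.1 ⊓ f.ker).index] := by
            rw [Nat.ModEq, hi, Nat.mod_eq_of_lt (by omega)]
          have h4 := (h3.mul_right n).symm
          rwa [one_mul, mul_assoc] at h4
      refine ⟨n', ?_⟩
      have h5 : (QuotientGroup.mk ((τ₀ ^ u) ^ n') : (Ω ≃ₐ[K] Ω) ⧸ (N.1 ⊓ f.ker)) =
          QuotientGroup.mk (τ₀ ^ n) := by
        rw [← pow_mul, QuotientGroup.mk_pow, QuotientGroup.mk_pow, pow_eq_pow_iff_modEq]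
        refine (hn'.symm).of_dvd ?_
        rw [Subgroup.index]
        exact orderOf_dvd_natCard _
      have h6 : ((τ₀ ^ u) ^ n')⁻¹ * σ ∈ N.1 ⊓ f.ker := by
        rw [← QuotientGroup.eq, h5, QuotientGroup.eq]
        exact hn
      exact h6.1
    · change (τ₀ ^ u) r = ζ * r
      rw [hpow, pow_eq_pow_mod (u * j) hζ.pow_eq_one, hu1, Nat.mod_eq_of_lt hl.one_lt, pow_one]
  have hcl : ∀ N, IsClosed (C N) := by
    intro N
    refine ((isClosed_iner w).inter (isClosed_of_mul_mem N.2.2.1 ?_)).inter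
      (isClosed_of_mul_mem hNr.2.1 ?_)
    · intro a ha n hn
      exact gen_mul N.2.1 hn ha
    · intro a ha n hn
      change (a * n) r = ζ * r
      rw [AlgEquiv.mul_apply, (hfker n).1 hn]
      exact ha
  have hdir : Directed (· ⊇ ·) C := by
    intro N N'
    refine ⟨⟨N.1 ⊓ N'.1, hfam.inf_mem _ N.2 _ N'.2⟩, ?_, ?_⟩
    · rintro τ ⟨⟨hτ, h1⟩, h3⟩
      refine ⟨⟨hτ, fun σ hσ => ?_⟩, h3⟩
      obtain ⟨n, hn⟩ := h1 σ hσ
      exact ⟨n, hn.1⟩
    · rintro τ ⟨⟨hτ, h1⟩, h3⟩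
      refine ⟨⟨hτ, fun σ hσ => ?_⟩, h3⟩
      obtain ⟨n, hn⟩ := h1 σ hσ
      exact ⟨n, hn.2⟩
  have hNE : Nonempty (NNt N0) := ⟨⟨⊤, htop⟩⟩
  obtain ⟨τ, hτ⟩ := IsCompact.nonempty_iInter_of_directed_nonempty_isCompact_isClosed C hdir hne
    (fun N => (hcl N).isCompact) hcl
  rw [Set.mem_iInter] at hτ
  have hτi : τ ∈ iner K w := (hτ ⟨⊤, htop⟩).1.1
  have hτr' : τ r = ζ * r := (hτ ⟨⊤, htop⟩).2
  refine ⟨τ, hτi, fun N hN => (hτ ⟨N, hN⟩).1.2, fun π' hπ' r' hr' => ?_⟩
  -- other uniformizers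
  obtain ⟨u, hu⟩ := IsDiscreteValuationRing.associated_of_irreducible _ hπ hπ'
  have h3 : (π' : K) = (π : K) * ((u : v.ring) : K) := by
    rw [← hu]
    rfl
  have hu0 : ((u : v.ring) : K) ≠ 0 := coe_unit_ne v u
  have hwu : w.valuation (algebraMap K Ω ((u : v.ring) : K)) = 1 := by
    refine val_unit_below ?_ ?_ hu0
    · rw [hbel]
      exact (u : v.ring).2
    · rw [hbel]
      exact coe_unit_inv_mem v u
  set y : Ω := r' / r with hy
  have hyr : r' = y * r := by rw [hy, div_mul_cancel₀ _ hr0]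
  have hyl : y ^ l = algebraMap K Ω ((u : v.ring) : K) := by
    rw [hy, div_pow, hr', hr, h3, map_mul, mul_div_cancel_left₀ _ hπ0]
  have hwy : w.valuation y = 1 := by
    have h4 : w.valuation y ^ l = 1 := by rw [← map_pow, hyl, hwu]
    exact (pow_eq_one_iff.1 h4).resolve_right hl.ne_zero
  have hy0 : y ≠ 0 := (Valuation.ne_zero_iff w.valuation).1 (by rw [hwy]; exact one_ne_zero)
  have hyw : y ∈ w := (w.valuation_le_one_iff y).1 hwy.le
  have h5 : (τ y / y) ^ l = 1 := by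
    rw [div_pow, ← map_pow, hyl, AlgEquiv.commutes, div_self]
    exact (map_ne_zero_iff _ (algebraMap K Ω).injective).2 hu0
  have h6 : w.valuation (τ y / y - 1) < 1 := by
    have h7 : τ y / y - 1 = (τ y - y) / y := by
      rw [sub_div, div_self hy0]
    rw [h7, map_div₀, hwy, div_one]
    exact hτi.2 y hyw
  have h8 : τ y = y := by
    have h9 := ExStd_one w hwl h5 h6
    rwa [div_eq_one_iff_eq hy0] at h9
  rw [hyr, map_mul, h8, hτr']
  ring

omit [Algebra.IsSeparable (RatFunc k) K] [IsSepClosure K Ω] in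
private theorem ExStd_card {v : Place k K} {w : ValuationSubring Ω}
    (hbel : below K w = v.ring) : resCard (below K w) = Nat.card k ^ v.degree := by
  rw [resCard_below hbel]
  let _ := v.constMap.toAlgebra
  have := BSDK.residue_finite v
  exact Module.natCard_eq_pow_finrank (K := k) (V := IsLocalRing.ResidueField v.ring)

omit [Field k] [Finite k] [Algebra k K] [Algebra (RatFunc k) K] [IsScalarTower k (RatFunc k) K]
  [FiniteDimensional (RatFunc k) K] [Algebra.IsSeparable (RatFunc k) K] in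
private theorem ExStd_gen {w : ValuationSubring Ω} [Finite (IsLocalRing.ResidueField (below K w))]
    {N0 N : Subgroup (Ω ≃ₐ[K] Ω)} (hN : N ∈ NNt N0) {τ φ : Ω ≃ₐ[K] Ω}
    (hτ : ∀ σ ∈ iner K w, ∃ n : ℕ, (τ ^ n)⁻¹ * σ ∈ N) (hφ : IsFrob K w φ)
    {s : Ω ≃ₐ[K] Ω} (hs : s ∈ dec K w) :
    ∃ t ∈ Subgroup.closure {φ, τ}, t⁻¹ * s ∈ N := by
  have hgal : IsGalois K Ω := inferInstance
  have hNn := hN.1
  have hcl : IsClosed (N : Set (Ω ≃ₐ[K] Ω)) := N.isClosed_of_isOpen hN.2.1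
  have hLN : (IntermediateField.fixedField N).fixingSubgroup = N :=
    InfiniteGalois.fixingSubgroup_fixedField ⟨N, hcl⟩
  have hL : FiniteDimensional K (IntermediateField.fixedField N) := by
    rw [← InfiniteGalois.isOpen_iff_finite, hLN]
    exact hN.2.1
  obtain ⟨n, ι, hι, h1⟩ := fin_gen hφ (IntermediateField.fixedField N) hs
  obtain ⟨m, hm⟩ := hτ ι hι
  refine ⟨τ ^ m * φ ^ n, ?_, ?_⟩
  · refine Subgroup.mul_mem _ (Subgroup.pow_mem _ (Subgroup.subset_closure ?_) _)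
      (Subgroup.pow_mem _ (Subgroup.subset_closure ?_) _)
    · exact Or.inr rfl
    · exact Or.inl rfl
  · have h2 : (ι * φ ^ n)⁻¹ * s ∈ N := by
      rw [← hLN, IntermediateField.mem_fixingSubgroup_iff]
      intro x hx
      have h3 := h1 x hx
      change ((ι * φ ^ n)⁻¹ * s) x = x
      rw [AlgEquiv.mul_apply, h3, ← AlgEquiv.mul_apply ι, ← AlgEquiv.mul_apply, inv_mul_cancel,
        AlgEquiv.one_apply]
    have h3 : (τ ^ m * φ ^ n)⁻¹ * s =
        ((φ ^ n)⁻¹ * ((τ ^ m)⁻¹ * ι) * ((φ ^ n)⁻¹)⁻¹) * ((ι * φ ^ n)⁻¹ * s) := by group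
    rw [h3]
    exact N.mul_mem (hNn.conj_mem _ hm _) h2

theorem exists_std (h2 : (2 : k) ≠ 0) {l : ℕ} (hl : l.Prime) {ζ : Ω} (hζ : IsPrimitiveRoot ζ l)
    (hζK : ∃ z : K, algebraMap K Ω z = ζ) {N0 : Subgroup (Ω ≃ₐ[K] Ω)} (h0 : TameN N0)
    (w : Place k K → ValuationSubring Ω) (hw : ∀ v, below K (w v) = v.ring) :
    ∃ sg ph : Place k K → Ω ≃ₐ[K] Ω, Std l ζ (NNt N0) w sg ph := by
  have hgal : IsGalois K Ω := inferInstance
  have hl0 : NeZero l := ⟨hl.ne_zero⟩
  have hlΩ : NeZero ((l : ℕ) : Ω) := hζ.neZero'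
  have hlK : (l : K) ≠ 0 := by
    intro h
    apply hlΩ.out
    rw [← map_natCast (algebraMap K Ω), h, map_zero]
  have hpr : (ringChar K).Prime := by
    have h1 : ringChar k = ringChar K := Algebra.ringChar_eq k K
    rw [← h1]
    exact CharP.char_is_prime k (ringChar k)
  choose sg hsgi hsgg hsgv using fun v => ExStd_sg h2 hl hζ hζK h0 (hw v)
  have hphe : ∀ v, ∃ φ, IsFrob K (w v) φ := by
    intro v
    have := finite_residue_of_below (hw v)
    exact exists_frob (w v)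
  choose ph hph using hphe
  have hloc : ∀ v : Place k K, ∃ π : K, LocHyp K (w v) π := by
    intro v
    obtain ⟨π, hπ⟩ := IsDiscreteValuationRing.exists_irreducible v.ring
    exact ⟨_, locHyp_of_below h2 v (w v) (hw v) hπ⟩
  have hta : ∀ v, ∀ N ∈ NNt N0, TameAt (w v) N := fun v N hN =>
    tameAt_NNt hpr h0 hN (ExStd_ne_top (hw v))
  refine ⟨sg, ph, famL_NNt (k := k) hl hlK h0.normal, fun N hN => fi_NNt hN,
    ⟨hw, hsgi, hsgv, ?_, ?_⟩, hph, ?_, fun v N hN => hsgg v N hN, ?_, ?_⟩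
  · intro v x hx
    rw [frob_isC (hph v) hx, ExStd_card (hw v)]
  · intro v N hN
    obtain ⟨π, hL⟩ := hloc v
    have h := tame_frobN hL (charOk_of_finite k K (w v)) hN.1 hN.2.1 (hta v N hN) (hph v) (hsgi v)
    rwa [ExStd_card (hw v)] at h
  · intro v N hN s hs
    have := finite_residue_of_below (hw v)
    exact ExStd_gen hN (hsgg v N hN) (hph v) hs
  · intro v N hN
    obtain ⟨π, hL⟩ := hloc v
    have h := tame_exp hL (charOk_of_finite k K (w v)) hN.1 hN.2.1 (hta v N hN) (hsgi v)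
    rwa [ExStd_card (hw v)] at h
  · intro N hN
    exact (finite_unr_open k hN.2.1).subset fun v hv =>
      ⟨w v, hw v, fun hle => hv (hle (hsgi v))⟩

end Pool.Agent.SmL.Fld
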