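import Pool.Agent.Lib.SmL.Fld.Std
import Pool.Agent.Lib.SmL.Fld.Cst
import Pool.Agent.Lib.SmL.F.Uni
import Pool.Agent.Lib.SmL.C.GalM

/-!
# SMITH-L, arithmetic: the standard `Bs` satisfies `Ok`, `Rec2`, `Uni`

`std_ok`: `top_mem`: `HcK k K Ω (l ^ 0) = ⊤`. `q_one`: `ζ ∈ K` is algebraic over `k`, the residue field at `v` contains a
primitive `l`-th root of unity (reduction is injective on the `l`-th roots of unity), so `l ∣ #k ^ deg v - 1`;
`sg_mem`: `iner ≤ dec`.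
`std_rec`: `recG`; `linv` = `Bs.inv` by definition.

`std_uni`: let `q = #k ^ deg v`, `l^a ∥ q - 1`, `a ≥ 1`, `t = k + a` (`k` the given exponent, `k ≥ 1` without loss of
generality), `ζt` a primitive `l^t`-th root of unity of `Ω`, `r^(l^k) = π`, `π` a uniformizer of `v.ring`.
`N = {s | s ζt = ζt ∧ s r = r}` is a normal open subgroup (`g⁻¹ r = η r` with `η` a power of `ζt`), and each `s` has
`s^(l^m) ∈ N` for `m = t + k` (`s ζt = ζt^u`, `u = 1` modulo `l` because `ζt^(l^(t-1))` is a power of `ζ ∈ K`; `u^(l^t) = 1` modulo `l^t`;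
then `s' = s^(l^t)` maps `r` to `η r` with `η` fixed by `s'`, `s'^(l^k) r = r`), so `N ∈ NN` by `FamL.ext` from `⊤`.
Let `sg^i ph^b ∈ N`, `i : ℤ`, `b : ℕ`. `sg` fixes `ζt` (`mu_fix_inerM`), `ph ζt = ζt^q` (`LocL.cst`; roots of unity are constants),
so `ζt^(q^b) = ζt`, `l^t ∣ q^b - 1`, so `l^k ∣ b` (lifting the exponent: `Int.emultiplicity_pow_sub_pow` or
`Nat.emultiplicity_pow_sub_pow`; `l` odd). `ph r = θ r`, `ph^b r = θ^(∑_{i < b} q^i) r = r` by `F.sum_dvd`. So `sg^i r = r`;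
`sg r = η r` with `η^(l^(k-1)) = ζ` (`LocL.val` for the root `r^(l^(k-1))`), so `η` has order `l^k` and `l^k ∣ i`.
-/

set_option autoImplicit false

namespace Pool.Agent.SmL.Fld

open Pool.Agent.BSDFF Pool.Agent.Lib.SmD Pool.Agent.GBU Pool.Agent.SmL.Ar Pool.Agent.SmL.C

section okk

variable {k K Ω : Type} [Field k] [Field K] [Algebra k K] [Field Ω] [Algebra K Ω]
  {l : ℕ} {ζ : Ω} {NN : Set (Subgroup (Ω ≃ₐ[K] Ω))} {w : Place k K → ValuationSubring Ω}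
  {sg ph : Place k K → Ω ≃ₐ[K] Ω}

omit [Algebra K Ω] in
private theorem okk_isC (K : Type) [Field K] [Algebra k K] [Algebra K Ω] [Finite k] {n : ℕ} (hn : 0 < n) (hnO : ((n : ℕ) : Ω) ≠ 0) {x : Ω}
    (hx : x ^ n = 1) : IsC k x := by
  obtain ⟨p, f, hp, hf, hq, hOm⟩ := card_eq_pow_C k K Ω
  have hcop : Nat.Coprime (Nat.card k) n := by
    rw [hq]
    refine Nat.Coprime.pow_left f ((Nat.Prime.coprime_iff_not_dvd hp).2 fun h => hnO ?_)
    exact (CharP.cast_eq_zero_iff Ω p n).2 h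
  have h1 := Nat.ModEq.pow_totient hcop
  refine ⟨Nat.totient n, Nat.totient_pos.2 hn, ?_⟩
  rw [pow_eq_pow_mod _ hx, h1, ← pow_eq_pow_mod _ hx, pow_one]

private theorem okk_top [Finite k] (hS : Std l ζ NN w sg ph) : (⊤ : Subgroup (Ω ≃ₐ[K] Ω)) ∈ NN := by
  have h1 := hS.fam.hc 0
  have h2 : HcK k K Ω (l ^ 0) = ⊤ := by
    refine le_antisymm le_top fun s _ x hx => ?_
    rw [pow_zero, pow_one] at hx
    obtain ⟨a, rfl⟩ := mem_k_of_pow_eq (k := k) (K := K) hx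
    exact s.commutes _
  rwa [h2] at h1

private theorem okk_q [Finite k] (hl : l.Prime) (hζ : IsPrimitiveRoot ζ l)
    (hζK : ∃ z : K, algebraMap K Ω z = ζ) (hS : Std l ζ NN w sg ph) (v : Place k K) :
    Nat.card k ^ v.degree ≡ 1 [MOD l] := by
  have hlne : NeZero l := ⟨hl.ne_zero⟩
  have hlΩ : NeZero ((l : ℕ) : Ω) := hζ.neZero'
  have hC : IsC k ζ := okk_isC K hl.pos hlΩ.out hζ.pow_eq_one
  obtain ⟨z, hz⟩ := hζK
  have h3 : ζ = ζ ^ Nat.card k ^ v.degree := by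
    rw [← hS.loc.cst v ζ hC, ← hz, AlgEquiv.commutes]
  have hpos : 1 ≤ Nat.card k ^ v.degree := Nat.one_le_pow _ _ Nat.card_pos
  have h4 : ζ ^ (Nat.card k ^ v.degree - 1) = 1 := by
    have hζ0 : ζ ≠ 0 := hζ.ne_zero hl.ne_zero
    apply mul_left_cancel₀ hζ0
    rw [mul_one, ← pow_succ', Nat.sub_add_cancel hpos]
    exact h3.symm
  exact ((Nat.modEq_iff_dvd' hpos).2 (hζ.dvd_of_pow_eq_one _ h4)).symm

private theorem okk_pow_apply {s : Ω ≃ₐ[K] Ω} {x y : Ω} (h : s x = y * x) (hy : s y = y) (n : ℕ) :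
    (s ^ n) x = y ^ n * x := by
  induction n with
  | zero => simp
  | succ n ih => rw [pow_succ', AlgEquiv.mul_apply, ih, map_mul, map_pow, hy, h, pow_succ]; ring

private theorem okk_zpow_fix {s : Ω ≃ₐ[K] Ω} {x : Ω} (h : s x = x) (n : ℤ) :
    (s ^ n) x = x := by
  have h1 : s ∈ MulAction.stabilizer (Ω ≃ₐ[K] Ω) x := h
  exact (MulAction.stabilizer (Ω ≃ₐ[K] Ω) x).zpow_mem h1 n

private theorem okk_zpow_apply {s : Ω ≃ₐ[K] Ω} {x y : Ω} (hy0 : y ≠ 0) (h : s x = y * x)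
    (hy : s y = y) (n : ℤ) : (s ^ n) x = y ^ n * x := by
  obtain ⟨m, rfl | rfl⟩ := n.eq_nat_or_neg
  · rw [zpow_natCast, zpow_natCast, okk_pow_apply h hy]
  · have h1 : (s ^ (m : ℤ)) (y ^ (-(m : ℤ)) * x) = x := by
      have h2 : (s ^ (m : ℤ)) (y ^ (-(m : ℤ))) = y ^ (-(m : ℤ)) := by
        rw [map_zpow₀, okk_zpow_fix hy]
      rw [map_mul, h2, zpow_natCast, okk_pow_apply h hy, ← mul_assoc, zpow_neg, zpow_natCast,
        inv_mul_cancel₀ (pow_ne_zero _ hy0), one_mul]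
    have h3 : (s ^ (-(m : ℤ))) x = (s ^ (-(m : ℤ))) ((s ^ (m : ℤ)) (y ^ (-(m : ℤ)) * x)) := by
      rw [h1]
    rw [h3, ← AlgEquiv.mul_apply, ← zpow_add, neg_add_cancel, zpow_zero, AlgEquiv.one_apply]

/-- `ph x = x^q` on the powers of `θ`, `ph r = θ r` -/
private theorem okk_ph_pow {s : Ω ≃ₐ[K] Ω} {r θ : Ω} {q : ℕ} (h : s r = θ * r)
    (hθ : s θ = θ ^ q) (n : ℕ) : (s ^ n) r = θ ^ (∑ i ∈ Finset.range n, q ^ i) * r := by
  induction n with
  | zero => simp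
  | succ n ih =>
    rw [pow_succ', AlgEquiv.mul_apply, ih, map_mul, map_pow, hθ, h, Finset.sum_range_succ',
      pow_add, pow_zero, pow_one, ← pow_mul, Finset.mul_sum]
    simp only [pow_succ']
    ring

end okk

variable {k K Ω : Type} [Field k] [Finite k] [Field K] [Algebra k K] [Algebra (RatFunc k) K]
  [IsScalarTower k (RatFunc k) K] [FiniteDimensional (RatFunc k) K]
  [Algebra.IsSeparable (RatFunc k) K] [Field Ω] [Algebra K Ω] [IsSepClosure K Ω]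
  {l : ℕ} {ζ : Ω} {NN : Set (Subgroup (Ω ≃ₐ[K] Ω))} {w : Place k K → ValuationSubring Ω}
  {sg ph : Place k K → Ω ≃ₐ[K] Ω}

theorem std_ok (hl : l.Prime) (hl2 : l ≠ 2) (hζ : IsPrimitiveRoot ζ l)
    (hζK : ∃ z : K, algebraMap K Ω z = ζ) (hS : Std l ζ NN w sg ph) : (bK NN w sg ph).Ok l := by
  exact
    { prime := hl
      odd := hl2
      top_mem := okk_top hS
      inf_mem := hS.fam.inf_mem
      normal := hS.fam.normal
      fi := hS.fi
      ph_mem := fun v => (hS.frob v).mem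
      sg_mem := fun v => iner_le_dec K _ (hS.loc.iner v)
      gen := hS.gen
      q_pos := fun v => Nat.one_le_pow _ _ Nat.card_pos
      q_one := fun v => by
        have h1 := (ZMod.natCast_eq_natCast_iff _ _ _).2 (okk_q hl hζ hζK hS v)
        rw [Nat.cast_one] at h1
        exact h1
      rel := hS.loc.rel
      tame := hS.tame
      unr := hS.unr }

theorem std_rec (h2 : (2 : k) ≠ 0) (hl : l.Prime) (hζ : IsPrimitiveRoot ζ l)
    (hζK : ∃ z : K, algebraMap K Ω z = ζ) (hS : Std l ζ NN w sg ph) :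
    (bK NN w sg ph).Rec2 l := by
  intro c hc hcoc
  have h1 := recG h2 hl hζ hζK hS.fam hS.loc (z := c) ⟨hc, fun s t w => hcoc s t w⟩
  exact h1

theorem std_uni (h2 : (2 : k) ≠ 0) (hl : l.Prime) (hl2 : l ≠ 2) (hζ : IsPrimitiveRoot ζ l)
    (hζK : ∃ z : K, algebraMap K Ω z = ζ) (hS : Std l ζ NN w sg ph) :
    (bK NN w sg ph).Uni l := by
  classical
  intro v kk
  rcases Nat.eq_zero_or_pos kk with rfl | hkk
  · exact ⟨⊤, okk_top hS, fun a b _ => ⟨by simp, by simp⟩⟩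
  have hlne : NeZero l := ⟨hl.ne_zero⟩
  have hlΩ : NeZero ((l : ℕ) : Ω) := hζ.neZero'
  have hsc : IsSepClosed Ω := IsSepClosure.sep_closed K
  have hgal : IsGalois K Ω := IsSepClosure.isGalois
  obtain ⟨G, -⟩ := Pool.Agent.GBC.exists_geo k K
  have hdeg := G.degree_pos v
  set q : ℕ := Nat.card k ^ v.degree with hq
  have hq1 : 1 < q := Nat.one_lt_pow hdeg.ne' Finite.one_lt_card
  have hql : q ≡ 1 [MOD l] := okk_q hl hζ hζK hS v
  have hlq : l ∣ q - 1 := (Nat.modEq_iff_dvd' hq1.le).1 hql.symm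
  have hFl : Fact l.Prime := ⟨hl⟩
  set a0 : ℕ := padicValNat l (q - 1) with ha0
  have ha1 : 1 ≤ a0 := one_le_padicValNat_of_dvd (by omega) hlq
  set t : ℕ := kk + a0 with ht
  have hltΩ : NeZero ((l ^ t : ℕ) : Ω) := ⟨by
    rw [Nat.cast_pow]; exact pow_ne_zero _ hlΩ.out⟩
  obtain ⟨zt, hzt⟩ := HasEnoughRootsOfUnity.exists_primitiveRoot Ω (l ^ t)
  have hlt0 : l ^ t ≠ 0 := pow_ne_zero _ hl.ne_zero
  have hzt0 : zt ≠ 0 := hzt.ne_zero hlt0
  obtain ⟨ϖ, hϖ⟩ := IsDiscreteValuationRing.exists_irreducible v.ring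
  have hϖ0 : (ϖ : K) ≠ 0 := fun h => hϖ.ne_zero (Subtype.ext h)
  have hlkΩ : NeZero ((l ^ kk : ℕ) : Ω) := ⟨by
    rw [Nat.cast_pow]; exact pow_ne_zero _ hlΩ.out⟩
  obtain ⟨r, hr⟩ := IsSepClosed.exists_pow_nat_eq (algebraMap K Ω (ϖ : K)) (l ^ kk)
  have hr0 : r ≠ 0 := by
    rintro rfl
    rw [zero_pow (pow_ne_zero _ hl.ne_zero)] at hr
    exact hϖ0 ((map_eq_zero (algebraMap K Ω)).1 hr.symm)
  -- the ratio
  have hrat : ∀ s : Ω ≃ₐ[K] Ω, ∃ j : ℕ, s r = zt ^ j * r ∧ (zt ^ j) ^ (l ^ kk) = 1 := by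
    intro s
    have h1 : (s r / r) ^ (l ^ kk) = 1 := by
      rw [div_pow, ← map_pow, hr, AlgEquiv.commutes,
        div_self ((map_ne_zero (algebraMap K Ω)).2 hϖ0)]
    have h2 : (s r / r) ^ (l ^ t) = 1 := by
      rw [ht, pow_add, pow_mul, h1, one_pow]
    obtain ⟨j, -, hj⟩ := hzt.eq_pow_of_pow_eq_one h2
    exact ⟨j, by rw [hj, div_mul_cancel₀ _ hr0], by rw [hj, h1]⟩
  have hcyc : ∀ s : Ω ≃ₐ[K] Ω, ∃ u : ℕ, s zt = zt ^ u := by
    intro s
    have h1 : (s zt) ^ (l ^ t) = 1 := by rw [← map_pow, hzt.pow_eq_one, map_one]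
    obtain ⟨u, -, hu⟩ := hzt.eq_pow_of_pow_eq_one h1
    exact ⟨u, hu.symm⟩
  let N : Subgroup (Ω ≃ₐ[K] Ω) := MulAction.stabilizer (Ω ≃ₐ[K] Ω) zt ⊓
    MulAction.stabilizer (Ω ≃ₐ[K] Ω) r
  have hmem : ∀ s : Ω ≃ₐ[K] Ω, s ∈ N ↔ s zt = zt ∧ s r = r := fun s => Iff.rfl
  have hnorm : N.Normal := by
    refine ⟨fun s hs g => ?_⟩
    obtain ⟨h1, h2⟩ := (hmem s).1 hs
    rw [hmem]
    obtain ⟨u, hu⟩ := hcyc g⁻¹
    obtain ⟨j, hj, -⟩ := hrat g⁻¹
    have hg : ∀ x : Ω, g (g⁻¹ x) = x := fun x => g.apply_symm_apply x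
    constructor
    · rw [AlgEquiv.mul_apply, AlgEquiv.mul_apply, hu, map_pow, h1, ← hu, hg]
    · rw [AlgEquiv.mul_apply, AlgEquiv.mul_apply, hj, map_mul, map_pow, h1, h2, ← hj, hg]
  have hopen : IsOpen (N : Set (Ω ≃ₐ[K] Ω)) := by
    have h1 : (N : Set (Ω ≃ₐ[K] Ω)) = (MulAction.stabilizer (Ω ≃ₐ[K] Ω) zt : Set _) ∩
      (MulAction.stabilizer (Ω ≃ₐ[K] Ω) r : Set _) := rfl
    rw [h1]
    exact (stabilizer_isOpen_of_isIntegral (K := K) zt).inter
      (stabilizer_isOpen_of_isIntegral (K := K) r)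
  have hNN : N ∈ NN := by
    refine hS.fam.ext ⊤ (okk_top hS) N hnorm hopen le_top fun s _ => ⟨t + kk, ?_⟩
    rw [pow_add, pow_mul]
    obtain ⟨u, hu⟩ := hcyc s
    -- u = 1 modulo l
    have hroot : ∃ j : ℕ, zt ^ (l ^ (t - 1)) = ζ ^ j := by
      have h1 : (zt ^ (l ^ (t - 1))) ^ l = 1 := by
        rw [← pow_mul, ← pow_succ, Nat.sub_add_cancel (by omega), hzt.pow_eq_one]
      obtain ⟨j, -, hj⟩ := hζ.eq_pow_of_pow_eq_one h1
      exact ⟨j, hj.symm⟩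
    obtain ⟨j, hj⟩ := hroot
    have hfixζ : s ζ = ζ := by
      obtain ⟨z, hz⟩ := hζK
      rw [← hz, AlgEquiv.commutes]
    have h2 : zt ^ (l ^ (t - 1)) = zt ^ (l ^ (t - 1) * u) := by
      have h3 : s (zt ^ (l ^ (t - 1))) = zt ^ (l ^ (t - 1)) := by
        rw [hj, map_pow, hfixζ]
      rw [map_pow, hu] at h3
      rw [← h3, ← pow_mul, mul_comm]
    have h4 : l ^ (t - 1) ≡ l ^ (t - 1) * u [MOD l ^ t] := by
      have hZ : IsPrimitiveRoot (Units.mk0 zt hzt0) (l ^ t) := by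
        rw [← IsPrimitiveRoot.coe_units_iff, Units.val_mk0]
        exact hzt
      have h3 : (Units.mk0 zt hzt0) ^ (l ^ (t - 1)) = (Units.mk0 zt hzt0) ^ (l ^ (t - 1) * u) := by
        apply Units.ext
        rw [Units.val_pow_eq_pow_val, Units.val_pow_eq_pow_val, Units.val_mk0]
        exact h2
      rw [pow_eq_pow_iff_modEq] at h3
      rwa [← hZ.eq_orderOf] at h3
    have h5 : 1 ≡ u [MOD l] := by
      have h6 : l ^ (t - 1) * 1 ≡ l ^ (t - 1) * u [MOD l ^ (t - 1) * l] := by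
        rw [mul_one, ← pow_succ, Nat.sub_add_cancel (by omega : 1 ≤ t)]
        exact h4
      exact Nat.ModEq.mul_left_cancel' (pow_ne_zero _ hl.ne_zero) h6
    have h7 : ∀ n : ℕ, (s ^ n) zt = zt ^ (u ^ n) := by
      intro n
      induction n with
      | zero => simp
      | succ n ih => rw [pow_succ', AlgEquiv.mul_apply, ih, map_pow, hu, ← pow_mul, pow_succ,
          mul_comm]
    have h8 : ∀ n : ℕ, u ^ (l ^ n) ≡ 1 [MOD l ^ (n + 1)] := by
      intro n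
      have h9 : ((l : ℕ) : ℤ) ∣ (u : ℤ) - 1 := by
        have h10 := (Nat.modEq_iff_dvd.1 h5)
        simpa using h10
      have h11 := dvd_sub_pow_of_dvd_sub (R := ℤ) (p := l) (a := (u : ℤ)) (b := 1) h9 n
      rw [one_pow] at h11
      have h12 := Nat.modEq_iff_dvd.2 (show ((l ^ (n + 1) : ℕ) : ℤ) ∣
        ((u ^ (l ^ n) : ℕ) : ℤ) - ((1 : ℕ) : ℤ) by
          push_cast
          exact h11)
      exact h12.symm
    have h13 : (s ^ l ^ t) zt = zt := by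
      rw [h7]
      have h14 : u ^ l ^ t ≡ 1 [MOD l ^ t] := (h8 t).of_dvd (pow_dvd_pow _ (by omega))
      rw [pow_eq_pow_mod _ hzt.pow_eq_one, h14, ← pow_eq_pow_mod _ hzt.pow_eq_one, pow_one]
    obtain ⟨i, hi, hi1⟩ := hrat (s ^ l ^ t)
    rw [hmem]
    constructor
    · have h15 : s ^ l ^ t ∈ MulAction.stabilizer (Ω ≃ₐ[K] Ω) zt := h13
      exact (MulAction.stabilizer (Ω ≃ₐ[K] Ω) zt).pow_mem h15 _
    · rw [okk_pow_apply hi (by rw [map_pow, h13]), hi1, one_mul]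
  refine ⟨N, hNN, fun i b hib => ?_⟩
  obtain ⟨hN1, hN2⟩ := (hmem _).1 hib
  change (sg v ^ i * ph v ^ b) zt = zt at hN1
  change (sg v ^ i * ph v ^ b) r = r at hN2
  rw [AlgEquiv.mul_apply] at hN1 hN2
  -- the inertia generator fixes the roots of unity
  have hval : (w v).valuation ((l ^ t : ℕ) : Ω) = 1 := charOk_of_finite k K (w v) _ hltΩ.out
  have hsg : sg v zt = zt := by
    have h1 := mu_fix_inerM hval (hS.loc.iner v) (u := Units.mk0 zt hzt0) (by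
      apply Units.ext
      rw [Units.val_pow_eq_pow_val, Units.val_mk0, hzt.pow_eq_one, Units.val_one])
    exact congrArg Units.val h1
  have hCt : IsC k zt := okk_isC K (pow_pos hl.pos t) hltΩ.out hzt.pow_eq_one
  have hph : ph v zt = zt ^ q := hS.loc.cst v zt hCt
  have hphb : ∀ n : ℕ, (ph v ^ n) zt = zt ^ (q ^ n) := by
    intro n
    induction n with
    | zero => simp
    | succ n ih => rw [pow_succ', AlgEquiv.mul_apply, ih, map_pow, hph, ← pow_mul, pow_succ,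
        mul_comm]
  have hb : l ^ kk ∣ b := by
    rcases Nat.eq_zero_or_pos b with rfl | hb0
    · exact dvd_zero _
    rw [hphb, map_pow, okk_zpow_fix hsg] at hN1
    have hqb : 1 < q ^ b := Nat.one_lt_pow hb0.ne' hq1
    have h1 : zt ^ (q ^ b - 1) = 1 := by
      apply mul_left_cancel₀ hzt0
      rw [mul_one, ← pow_succ', Nat.sub_add_cancel hqb.le]
      exact hN1
    have h2 : l ^ t ∣ q ^ b - 1 := hzt.dvd_of_pow_eq_one _ h1
    have hnq : ¬ l ∣ q := by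
      intro h
      have h3 : l ∣ q - (q - 1) := Nat.dvd_sub h hlq
      rw [Nat.sub_sub_self hq1.le] at h3
      exact hl.one_lt.ne' (Nat.dvd_one.1 h3)
    have h4 := padicValNat.pow_sub_pow (hl.odd_of_ne_two hl2) hq1 hlq hnq hb0.ne'
    rw [one_pow] at h4
    have h5 : t ≤ padicValNat l (q ^ b - 1) :=
      (padicValNat_dvd_iff_le (by omega)).1 h2
    rw [h4] at h5
    exact (padicValNat_dvd_iff_le hb0.ne').2 (by omega)
  refine ⟨?_, hb⟩
  obtain ⟨j, hj, hj1⟩ := hrat (ph v)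
  have hphr : (ph v ^ b) r = r := by
    rw [okk_ph_pow (q := q) hj (by rw [map_pow, hph, ← pow_mul, ← pow_mul, mul_comm])]
    obtain ⟨m, hm⟩ := Pool.Agent.SmL.F.sum_dvd (x := q) (l := l) (by
      have h1 := (ZMod.natCast_eq_natCast_iff _ _ _).2 hql
      rw [Nat.cast_one] at h1
      exact h1) hb
    rw [hm, pow_mul, hj1, one_pow, one_mul]
  rw [hphr] at hN2
  obtain ⟨j', hj', hj1'⟩ := hrat (sg v)
  have hη0 : zt ^ j' ≠ 0 := pow_ne_zero _ hzt0
  have h6 := okk_zpow_apply hη0 hj' (by rw [map_pow, hsg]) i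
  rw [hN2] at h6
  have h7 : (zt ^ j') ^ i = 1 := by
    apply mul_right_cancel₀ hr0
    rw [one_mul]
    exact h6.symm
  -- the order of `η`
  obtain ⟨m, rfl⟩ : ∃ m, kk = m + 1 := ⟨kk - 1, by omega⟩
  have h8 : (zt ^ j') ^ (l ^ m) = ζ := by
    have h9 : (r ^ (l ^ m)) ^ l = algebraMap K Ω (ϖ : K) := by
      rw [← pow_mul, ← pow_succ, hr]
    have h10 := hS.loc.val v ϖ hϖ _ h9
    rw [map_pow, hj', mul_pow] at h10
    exact mul_right_cancel₀ (pow_ne_zero _ hr0) h10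
  have h11 : orderOf (zt ^ j') = l ^ (m + 1) := by
    refine orderOf_eq_prime_pow ?_ hj1'
    rw [h8]
    exact hζ.ne_one hl.one_lt
  have h13 : (Units.mk0 (zt ^ j') hη0) ^ i = 1 := by
    apply Units.ext
    rw [Units.val_zpow_eq_zpow_val, Units.val_mk0, Units.val_one]
    exact h7
  have h12 := orderOf_dvd_iff_zpow_eq_one.2 h13
  rw [← orderOf_units, Units.val_mk0, h11] at h12
  exact h12

end Pool.Agent.SmL.Fld
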