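import Pool.Agent.Lib.SmL.Fld.PlL
import Pool.Agent.Lib.SmL.Fld.ExStd
import Pool.Agent.Lib.SmL.Fld.OkK

/-!
# SMITH-L, arithmetic: the Hasse principle for `H²(L, F_l)` in terms of the stabiliser of `x0`

`exists_pL`; for each place `u` of `L` choose `(v, x)` with `p v x = u` and let `wL u = wX w r v x`, a place of `Om`
above `u`. `exists_std` over `L` (`tameN_comap`; `ζ` is in `L`) gives `sgL`, `phL` with `Std` for
`NNL = NNt (N0.comap (res K))`. Let `c` be as in the statement: `c' s t = c (res K s) (res K t)` is `Coc2N l NNL`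
(`comap_mem`). For `u`: `c` splits on `Stab x0 ⊓ (D v)^(r x)` = image of `dec L (wL u)` (`mem_dec_tr`), `c' = db` there,
with `b` of finite level, so `linv (sgL u) (phL u) (..) c' = 0` (`inv_cob` of `Ar/Inv.lean` for the `Bs` of `L`).
`hasseG` gives `b'`; `b (res K s) = b' s`, `b = 0` outside: `TFOn` by `exists_le_map` (with `N1` acting trivially on `X`).
-/

set_option autoImplicit false
set_option linter.unusedSectionVars false

namespace Pool.Agent.SmL.Fld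

open MulAction Pool.Agent.GBU Pool.Agent.BSDFF Pool.Agent.Lib.SmD Pool.Agent.SmL.Ar
  Pool.Agent.SmL.C Pool.Agent.SmL.F

variable {k K L : Type} [Field k] [Finite k] [Field K] [Algebra k K] [Algebra (RatFunc k) K]
  [IsScalarTower k (RatFunc k) K] [FiniteDimensional (RatFunc k) K]
  [Algebra.IsSeparable (RatFunc k) K]
  [Field L] [Algebra k L] [Algebra (RatFunc k) L]
  [IsScalarTower k (RatFunc k) L] [FiniteDimensional (RatFunc k) L]
  [Algebra.IsSeparable (RatFunc k) L] [Algebra K L] [FiniteDimensional K L]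
  {Om : Type} [Field Om] [Algebra K Om] [IsSepClosure K Om] [Algebra L Om] [IsSepClosure L Om]
  [IsScalarTower K L Om]
  {X : Type} [MulAction (Om ≃ₐ[K] Om) X] [Finite X] {w : Place k K → ValuationSubring Om}
  {sg ph : Place k K → Om ≃ₐ[K] Om} {l : ℕ} {ζ : Om} {N0 : Subgroup (Om ≃ₐ[K] Om)}

section HasL_ext

open Classical in
/-- Extension by zero of a function on `Gal(Om / L)`. -/
private noncomputable def HasL_ext (b : (Om ≃ₐ[L] Om) → ZMod l) : (Om ≃ₐ[K] Om) → ZMod l :=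
  fun s => if h : s ∈ rg K L Om then b h.choose else 0

omit [Finite k] [IsSepClosure K Om] [IsSepClosure L Om] [FiniteDimensional K L] [Finite X] in
private theorem HasL_ext_res (b : (Om ≃ₐ[L] Om) → ZMod l) (s : Om ≃ₐ[L] Om) :
    HasL_ext (K := K) b (res K s) = b s := by
  have h : (res K s : Om ≃ₐ[K] Om) ∈ rg K L Om := ⟨s, rfl⟩
  unfold HasL_ext
  rw [dif_pos h]
  congr 1
  exact res_injective K h.choose_spec

end HasL_ext

theorem hasL (h2 : (2 : k) ≠ 0) (hl : l.Prime) (hl2 : l ≠ 2) (hζ : IsPrimitiveRoot ζ l)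
    (hζK : ∃ z : K, algebraMap K Om z = ζ) (h0 : TameN N0) (hS : Std l ζ (NNt N0) w sg ph)
    (hX : TrivX (bK (NNt N0) w sg ph) X) {x0 : X} {r : X → (Om ≃ₐ[K] Om)}
    (hr : ∀ x, r x • x = x0) (hst : stabilizer (Om ≃ₐ[K] Om) x0 = rg K L Om)
    {c : (Om ≃ₐ[K] Om) → (Om ≃ₐ[K] Om) → ZMod l}
    (hc : Coc2H (bK (NNt N0) w sg ph) (stabilizer (Om ≃ₐ[K] Om) x0) c)
    (h : ∀ (v : Place k K) (x : X), ∃ b : (Om ≃ₐ[K] Om) → ZMod l,
      (bK (NNt N0) w sg ph).TFOn
        (stabilizer (Om ≃ₐ[K] Om) x0 ⊓ (dec K (w v)).map (MulAut.conj (r x)).toMonoidHom) b ∧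
      ∀ s ∈ stabilizer (Om ≃ₐ[K] Om) x0, (r x)⁻¹ * s * r x ∈ dec K (w v) →
        ∀ t ∈ stabilizer (Om ≃ₐ[K] Om) x0, (r x)⁻¹ * t * r x ∈ dec K (w v) →
          c s t = b s + b t - b (s * t)) :
    SplH (bK (NNt N0) w sg ph) (stabilizer (Om ≃ₐ[K] Om) x0) c := by
  have hw : ∀ v, below K (w v) = v.ring := hS.loc.below
  obtain ⟨p, hp1, -, -, hp4⟩ := exists_pL L hw hr hst
  choose pv px hpx using hp4
  have hbL : ∀ u : Place k L, below L (wX w r (pv u) (px u)) = u.ring := fun u => by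
    rw [← hp1, hpx]
  obtain ⟨z, hz⟩ := hζK
  have hζL : ∃ y : L, algebraMap L Om y = ζ := ⟨algebraMap K L z, by
    rw [← IsScalarTower.algebraMap_apply, hz]⟩
  have h0L : TameN (N0.comap (res K : (Om ≃ₐ[L] Om) →* (Om ≃ₐ[K] Om))) := tameN_comap h0
  obtain ⟨sgL, phL, hSL⟩ := exists_std (k := k) h2 hl hζ hζL h0L
    (fun u => wX w r (pv u) (px u)) hbL
  have hOk := std_ok hl hl2 hζ hζL hSL
  obtain ⟨⟨N2, hN2, h1⟩, hcoc⟩ := hc
  obtain ⟨N1, hN1, hN1X⟩ := hX
  have hle : N1 ≤ rg K L Om := by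
    rw [← hst]
    exact fun n hn => hN1X n hn x0
  rw [hst] at h1 hcoc h ⊢
  -- the cocycle over `L`
  have hC : Coc2N l (NNt (N0.comap (res K : (Om ≃ₐ[L] Om) →* (Om ≃ₐ[K] Om))))
      (fun s t => c (res K s) (res K t)) := by
    refine ⟨⟨N2.comap (res K), comap_mem hN2, fun s t n hn m hm => ?_⟩, fun s t u => ?_⟩
    · change c (res K (s * n)) (res K (t * m)) = c (res K s) (res K t)
      rw [map_mul, map_mul]
      exact h1 _ ⟨s, rfl⟩ _ ⟨t, rfl⟩ _ hn ⟨n, rfl⟩ _ hm ⟨m, rfl⟩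
    · have := hcoc (res K s) ⟨s, rfl⟩ (res K t) ⟨t, rfl⟩ (res K u) ⟨u, rfl⟩
      rw [← map_mul, ← map_mul] at this
      exact this
  have hz0 : ∀ u : Place k L, SmL.C.linv (sgL u) (phL u) (Nat.card k ^ u.degree)
      (fun s t => c (res K s) (res K t)) = 0 := by
    intro u
    obtain ⟨b, ⟨N, hN, h3⟩, h4⟩ := h (pv u) (px u)
    have hdec : ∀ s : Om ≃ₐ[L] Om, s ∈ dec L (wX w r (pv u) (px u)) →
        (r (px u))⁻¹ * res K s * r (px u) ∈ dec K (w (pv u)) := by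
      intro s hs
      rw [← SmN.F.mem_dec_tr]
      exact (res_mem_dec K).2 hs
    have hTF : (bK (NNt (N0.comap (res K : (Om ≃ₐ[L] Om) →* (Om ≃ₐ[K] Om))))
        (fun u => wX w r (pv u) (px u)) sgL phL).TFOn
        ((bK (NNt (N0.comap (res K : (Om ≃ₐ[L] Om) →* (Om ≃ₐ[K] Om))))
        (fun u => wX w r (pv u) (px u)) sgL phL).D u) (fun s => b (res K s)) := by
      refine ⟨N.comap (res K), comap_mem hN, ?_⟩
      intro s hs n hn hnd
      change b (res K (s * n)) = b (res K s)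
      have hm : ∀ t : Om ≃ₐ[L] Om, t ∈ dec L (wX w r (pv u) (px u)) →
          res K t ∈ rg K L Om ⊓ (dec K (w (pv u))).map (MulAut.conj (r (px u))).toMonoidHom := by
        intro t ht
        refine ⟨⟨t, rfl⟩, (r (px u))⁻¹ * res K t * r (px u), hdec t ht, ?_⟩
        change r (px u) * ((r (px u))⁻¹ * res K t * r (px u)) * (r (px u))⁻¹ = res K t
        group
      rw [map_mul]
      exact h3 _ (hm s hs) _ hn (hm n hnd)
    have h6 : (bK (NNt (N0.comap (res K : (Om ≃ₐ[L] Om) →* (Om ≃ₐ[K] Om))))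
        (fun u => wX w r (pv u) (px u)) sgL phL).inv u
        (fun s t => c (res K s) (res K t)) = 0 := by
      rw [← inv_cob hOk u hTF]
      refine inv_congr hOk u ?_
      intro s hs t ht
      have := h4 _ ⟨s, rfl⟩ (hdec s hs) _ ⟨t, rfl⟩ (hdec t ht)
      rw [← map_mul] at this
      exact this
    exact h6
  obtain ⟨b', ⟨M, hM, hbM⟩, hb'⟩ := hasseG h2 hl hζ hζL hSL.fam hSL.loc hC hz0
  obtain ⟨N, hN, -, hNM⟩ := exists_le_map h0 hN1 hle hM
  refine ⟨HasL_ext b', ⟨N, hN, ?_⟩, ?_⟩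
  · rintro _ ⟨s, rfl⟩ n hn _
    obtain ⟨n', hn', rfl⟩ := hNM hn
    rw [← map_mul, HasL_ext_res, HasL_ext_res, hbM s n' hn']
  · rintro _ ⟨s, rfl⟩ _ ⟨t, rfl⟩
    rw [← map_mul, HasL_ext_res, HasL_ext_res, HasL_ext_res]
    exact hb' s t

end Pool.Agent.SmL.Fld
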