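import Pool.Agent.Lib.SmL.Fld.HasL
import Pool.Agent.Lib.SmL.Fld.CardL
import Pool.Agent.Lib.SmL.F.PermGd
import Pool.Agent.Lib.SmL.Ar.Neg
import Pool.Agent.Lib.SmL.Ar.Sha

/-!
# SMITH-L, arithmetic: all facts for the modules of a global function field

`perm_gd`: transitive `X`: `L` = the fixed field of the stabiliser of `x0` (an `IntermediateField K Om`, finite and separable
over `K`; instances `Algebra k L`, `Algebra (RatFunc k) L`, ..: see how `SmN/F/Main.lean`, `SmNJ/FInst.lean`,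
`SmNJ/PermOkN.lean` do it), `rg K L Om = L.fixingSubgroup = stabilizer`. `exists_orbE`, `hasL`, `cardL` give `LGl`.
`all_gd`: `gd_neg`. `perm_sha`: `permP_sha`.
-/

set_option autoImplicit false

namespace Pool.Agent.SmL.Fld

open MulAction Pool.Agent.GBU Pool.Agent.BSDFF Pool.Agent.Lib.SmD Pool.Agent.SmL.Ar
  Pool.Agent.SmL.C Pool.Agent.SmL.F

variable {k K : Type} [Field k] [Finite k] [Field K] [Algebra k K] [Algebra (RatFunc k) K]
  [IsScalarTower k (RatFunc k) K] [FiniteDimensional (RatFunc k) K]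
  [Algebra.IsSeparable (RatFunc k) K] {Om : Type} [Field Om] [Algebra K Om] [IsSepClosure K Om]
  {w : Place k K → ValuationSubring Om} {sg ph : Place k K → Om ≃ₐ[K] Om} {l : ℕ} {ζ : Om}
  {N0 : Subgroup (Om ≃ₐ[K] Om)}

section aux

omit [Finite k] [Algebra (RatFunc k) K] [IsScalarTower k (RatFunc k) K]
  [FiniteDimensional (RatFunc k) K] [Algebra.IsSeparable (RatFunc k) K] in
/-- The stabiliser is the Galois group over the fixed field. -/
private theorem Perm_stab {X : Type} [MulAction (Om ≃ₐ[K] Om) X]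
    (hX : TrivX (bK (NNt N0) w sg ph) X) (x0 : X) :
    stabilizer (Om ≃ₐ[K] Om) x0 =
        rg K (IntermediateField.fixedField (stabilizer (Om ≃ₐ[K] Om) x0)) Om ∧
      FiniteDimensional K (IntermediateField.fixedField (stabilizer (Om ≃ₐ[K] Om) x0)) := by
  have hgal : IsGalois K Om := inferInstance
  obtain ⟨N1, hN1, h1⟩ := hX
  have hopen : IsOpen (stabilizer (Om ≃ₐ[K] Om) x0 : Set (Om ≃ₐ[K] Om)) :=
    Subgroup.isOpen_mono (H₁ := N1) (fun s hs => h1 s hs x0) hN1.2.1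
  have hclosed : IsClosed (stabilizer (Om ≃ₐ[K] Om) x0 : Set (Om ≃ₐ[K] Om)) :=
    Subgroup.isClosed_of_isOpen _ hopen
  have hfix : (IntermediateField.fixedField (stabilizer (Om ≃ₐ[K] Om) x0)).fixingSubgroup =
      stabilizer (Om ≃ₐ[K] Om) x0 :=
    InfiniteGalois.fixingSubgroup_fixedField ⟨stabilizer (Om ≃ₐ[K] Om) x0, hclosed⟩
  constructor
  · ext s
    constructor
    · intro hs
      rw [← hfix] at hs
      exact ⟨IntermediateField.fixingSubgroupEquiv _ ⟨s, hs⟩, by ext x; rfl⟩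
    · rintro ⟨t, ht⟩
      rw [← hfix, IntermediateField.mem_fixingSubgroup_iff]
      intro x hx
      rw [← ht]
      exact t.commutes ⟨x, hx⟩
  · rw [← InfiniteGalois.isOpen_iff_finite]
    change IsOpen ((IntermediateField.fixedField
      (stabilizer (Om ≃ₐ[K] Om) x0)).fixingSubgroup : Set (Om ≃ₐ[K] Om))
    rw [hfix]
    exact hopen

end aux

/-- The statements over `L`. -/
theorem exists_lgl (h2 : (2 : k) ≠ 0) (hl : l.Prime) (hl2 : l ≠ 2) (hζ : IsPrimitiveRoot ζ l)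
    (hζK : ∃ z : K, algebraMap K Om z = ζ) (h0 : TameN N0) (hS : Std l ζ (NNt N0) w sg ph)
    {X : Type} [MulAction (Om ≃ₐ[K] Om) X] [Finite X]
    (hX : TrivX (bK (NNt N0) w sg ph) X) {x0 : X} {r : X → (Om ≃ₐ[K] Om)}
    (hr : ∀ x, r x • x = x0) {E : Place k K → X → ℕ × ℕ × ℕ}
    (hE : OrbE l (bK (NNt N0) w sg ph) E) : LGl l (bK (NNt N0) w sg ph) E x0 r := by
  have halg : Algebra.IsAlgebraic K Om := (IsSepClosure.separable (k := K) (K := Om)).isAlgebraic
  have hsep : Algebra.IsSeparable K Om := IsSepClosure.separable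
  have hsc : IsSepClosed Om := IsSepClosure.sep_closed K
  obtain ⟨hst, hfd⟩ := Perm_stab hX x0
  generalize hL : IntermediateField.fixedField (stabilizer (Om ≃ₐ[K] Om) x0) = L at hst hfd
  have hsepL : IsSepClosure L Om := ⟨hsc, Algebra.isSeparable_tower_top_of_isSeparable K L Om⟩
  letI algR : Algebra (RatFunc k) L :=
    ((algebraMap K L).comp (algebraMap (RatFunc k) K)).toAlgebra
  letI algk : Algebra k L := ((algebraMap K L).comp (algebraMap k K)).toAlgebra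
  have ht1 : IsScalarTower (RatFunc k) K L := IsScalarTower.of_algebraMap_eq fun x => rfl
  have ht2 : IsScalarTower k (RatFunc k) L :=
    IsScalarTower.of_algebraMap_eq fun x =>
      congrArg (algebraMap K L) (IsScalarTower.algebraMap_apply k (RatFunc k) K x)
  have hfd2 : FiniteDimensional (RatFunc k) L := FiniteDimensional.trans (RatFunc k) K L
  have hs2 : Algebra.IsSeparable (RatFunc k) L :=
    Algebra.IsSeparable.trans (RatFunc k) K L
  exact ⟨cardL (L := L) h2 hl hζ hζK h0 hS hX hr hst hE,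
    fun c hc h => hasL (L := L) h2 hl hl2 hζ hζK h0 hS hX hr hst hc h⟩

theorem perm_gd (h2 : (2 : k) ≠ 0) (hl : l.Prime) (hl2 : l ≠ 2) (hζ : IsPrimitiveRoot ζ l)
    (hζK : ∃ z : K, algebraMap K Om z = ζ) (h0 : TameN N0) (hS : Std l ζ (NNt N0) w sg ph)
    (hCh : (bK (NNt N0) w sg ph).Cheb1)
    {X : Type} [MulAction (Om ≃ₐ[K] Om) X] [Fintype X] [IsPretransitive (Om ≃ₐ[K] Om) X]
    [Nonempty X] (hX : TrivX (bK (NNt N0) w sg ph) X) :
    (permP l (Om ≃ₐ[K] Om) X).Gd (bK (NNt N0) w sg ph) ∧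
      ∃ T0 : Finset (Place k K), ∀ T, T0 ⊆ T →
        ShaT (bK (NNt N0) w sg ph) (permP l (Om ≃ₐ[K] Om) X).a T := by
  obtain ⟨x0⟩ : Nonempty X := inferInstance
  have hB := std_ok hl hl2 hζ hζK hS
  choose r hr using fun x : X => exists_smul_eq (Om ≃ₐ[K] Om) x x0
  obtain ⟨E, hE⟩ := exists_orbE hB hX
  have hL := exists_lgl h2 hl hl2 hζ hζK h0 hS hX hr hE
  exact ⟨F.permP_gd hB (std_uni h2 hl hl2 hζ hζK hS) (std_rec h2 hl hζ hζK hS) hCh hX hE hr hL,
    permP_sha hB hCh hX hE hr hL⟩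

/-- **All facts** for every finite module of finite level with an element acting as `-1`. -/
theorem all_gd (h2 : (2 : k) ≠ 0) (hl : l.Prime) (hl2 : l ≠ 2) (hζ : IsPrimitiveRoot ζ l)
    (hζK : ∃ z : K, algebraMap K Om z = ζ) (h0 : TameN N0) (hS : Std l ζ (NNt N0) w sg ph)
    (hCh : (bK (NNt N0) w sg ph).Cheb1) {V V' : Type} [AddCommGroup V] [Module (ZMod l) V]
    [AddCommGroup V'] [Module (ZMod l) V'] {P : DP l (Om ≃ₐ[K] Om) V V'}
    (hP : P.Ok (bK (NNt N0) w sg ph)) {τ : Om ≃ₐ[K] Om} (hτ : P.Odd τ) :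
    P.Gd (bK (NNt N0) w sg ph) ∧ ∃ T0 : Finset (Place k K), ∀ T, T0 ⊆ T →
      ShaT (bK (NNt N0) w sg ph) P.a T := by
  have hB := std_ok hl hl2 hζ hζK hS
  have htr : ∀ (H0 : Subgroup (Om ≃ₐ[K] Om)), (∃ M ∈ (bK (NNt N0) w sg ph).NN, M ≤ H0) →
      TrivX (bK (NNt N0) w sg ph) ((Om ≃ₐ[K] Om) ⧸ H0) := by
    rintro H0 ⟨M, hM, hle⟩
    have hMn : M.Normal := hM.1
    refine ⟨M, hM, fun n hn x => ?_⟩
    obtain ⟨g, rfl⟩ := QuotientGroup.mk_surjective x
    change ((n * g : (Om ≃ₐ[K] Om)) : (Om ≃ₐ[K] Om) ⧸ H0) = (g : (Om ≃ₐ[K] Om) ⧸ H0)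
    rw [eq_comm, QuotientGroup.eq]
    apply hle
    have := hMn.conj_mem n hn g⁻¹
    rwa [inv_inv, mul_assoc] at this
  have hgd : P.Gd (bK (NNt N0) w sg ph) := by
    refine gd_neg hB (std_rec h2 hl hζ hζK hS) hCh (fun H0 hH0 => ?_) hP hτ
    intro _
    exact (perm_gd h2 hl hl2 hζ hζK h0 hS hCh (htr H0 hH0)).1
  exact ⟨hgd, exists_shaT hB hP.ker hCh hτ.1 hgd.gl.fin⟩

end Pool.Agent.SmL.Fld
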