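import Pool.Agent.Lib.SmL.Fld.Std
import Pool.Agent.Lib.SmN.F.LPl

/-!
# SMITH-L, arithmetic: the places of `L` above the places of `K`

Port of the section `match_` of `SmN/F/LPl.lean` from `abK Om v` to an arbitrary place `w v` of `Ω` above `v`.
`tr`, `mem_dec_iff_tr`, `mem_iner_tr`, `exists_tr`, `tr_res`, .. can be cited from there (namespace `SmN.F`).
-/

set_option autoImplicit false
set_option linter.unusedSectionVars false

open IsLocalRing

namespace Pool.Agent.SmL.Fld

open MulAction Pool.Agent.GBU Pool.Agent.BSDFF Pool.Agent.Lib.SmD Pool.Agent.SmN.F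

variable {k K L : Type} [Field k] [Finite k] [Field K] [Algebra k K] [Algebra (RatFunc k) K]
  [IsScalarTower k (RatFunc k) K] [FiniteDimensional (RatFunc k) K]
  [Algebra.IsSeparable (RatFunc k) K]
  [Field L] [Algebra k L] [Algebra (RatFunc k) L]
  [IsScalarTower k (RatFunc k) L] [FiniteDimensional (RatFunc k) L]
  [Algebra.IsSeparable (RatFunc k) L] [Algebra K L] [FiniteDimensional K L]
  {Om : Type} [Field Om] [Algebra K Om] [IsSepClosure K Om] [Algebra L Om] [IsSepClosure L Om]
  [IsScalarTower K L Om]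
  {X : Type} [MulAction (Om ≃ₐ[K] Om) X] {w : Place k K → ValuationSubring Om}

/-- The place of `Om` attached to `(v, x)`. -/
noncomputable def wX (w : Place k K → ValuationSubring Om) (r : X → (Om ≃ₐ[K] Om))
    (v : Place k K) (x : X) : ValuationSubring Om := tr (r x) (w v)

private theorem PlL_ring_ne_top (v : Place k K) : v.ring ≠ ⊤ := by
  intro h
  have hdvr := v.dvr
  rw [h] at hdvr
  have hf : ¬ IsField (⊤ : ValuationSubring K) := IsDiscreteValuationRing.not_isField _
  apply hf
  refine ⟨⟨0, 1, ?_⟩, mul_comm, fun {a} ha => ?_⟩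
  · exact zero_ne_one
  · refine ⟨⟨(a : K)⁻¹, ValuationSubring.mem_top _⟩, ?_⟩
    apply Subtype.ext
    have h0 : (a : K) ≠ 0 := fun h0 => ha (Subtype.ext h0)
    exact mul_inv_cancel₀ h0

theorem wX_ne_top (hw : ∀ v, below K (w v) = v.ring) (r : X → (Om ≃ₐ[K] Om)) (v : Place k K)
    (x : X) : wX w r v x ≠ ⊤ := by
  apply tr_ne_top
  intro h
  apply PlL_ring_ne_top v
  rw [← hw v, h]
  rfl

theorem below_wX (hw : ∀ v, below K (w v) = v.ring) (r : X → (Om ≃ₐ[K] Om)) (v : Place k K)
    (x : X) : below K (wX w r v x) = v.ring := by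
  unfold wX
  rw [below_tr, hw]

variable (L) in
/-- The places of `L`, and the orbits: `p` maps `(v, x)` to the place of `L` below `wX w r v x`. -/
theorem exists_pL (hw : ∀ v, below K (w v) = v.ring) {x0 : X} {r : X → (Om ≃ₐ[K] Om)}
    (hr : ∀ x, r x • x = x0) (hst : stabilizer (Om ≃ₐ[K] Om) x0 = rg K L Om) :
    ∃ p : Place k K → X → Place k L, (∀ v x, (p v x).ring = below L (wX w r v x)) ∧
      (∀ v x, ∀ d ∈ dec K (w v), p v (d • x) = p v x) ∧
      (∀ v x v' x', p v x = p v' x' → v = v' ∧ ∃ d ∈ dec K (w v), d • x = x') ∧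
      ∀ u, ∃ v x, p v x = u := by
  have hgal : IsGalois L Om := inferInstance
  have hgalK : IsGalois K Om := inferInstance
  have halgL : Algebra.IsAlgebraic L Om := (IsSepClosure.separable (k := L) (K := Om)).isAlgebraic
  have halg : Algebra.IsAlgebraic K Om := (IsSepClosure.separable (k := K) (K := Om)).isAlgebraic
  have hex : ∀ v x, ∃ u : Place k L, u.ring = below L (wX w r v x) := fun v x =>
    exists_place_below k L _ (wX_ne_top hw r v x)
  choose p hp using hex
  refine ⟨p, hp, fun v x d hd => ?_, fun v x v' x' h => ?_, fun u => ?_⟩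
  · apply Place.ext'
    rw [hp, hp]
    have h1 : r (d • x) * d * (r x)⁻¹ ∈ rg K L Om := by
      rw [← hst, mem_stabilizer_iff, mul_smul, mul_smul]
      have h2 : (r x)⁻¹ • x0 = x := by rw [← hr x, inv_smul_smul]
      rw [h2, hr]
    obtain ⟨h, hh⟩ := h1
    have h3 : wX w r v (d • x) = tr h (wX w r v x) := by
      rw [← tr_res (K := K), hh]
      unfold wX
      rw [← tr_mul]
      have h4 : r (d • x) * d * (r x)⁻¹ * r x = r (d • x) * d := by group
      rw [h4, tr_mul, mem_dec_iff_tr.1 hd]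
    rw [h3, below_tr]
  · have h1 : below L (wX w r v x) = below L (wX w r v' x') := by
      rw [← hp, ← hp, h]
    have hv : v = v' := by
      apply Place.ext'
      rw [← below_wX hw r v x, ← below_wX hw r v' x', ← below_below K (L := L), h1, below_below]
    subst hv
    refine ⟨rfl, ?_⟩
    obtain ⟨g, hg⟩ := exists_tr h1
    rw [← tr_res (K := K)] at hg
    unfold wX at hg
    refine ⟨(r x')⁻¹ * res K g * r x, ?_, ?_⟩
    · rw [mem_dec_iff_tr, tr_mul, tr_mul, ← hg, ← tr_mul, inv_mul_cancel]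
      ext y
      rw [mem_tr, inv_one, AlgEquiv.one_apply]
    · rw [mul_smul, mul_smul, hr]
      have h2 : res K g • x0 = x0 := by
        have h3 : res K g ∈ stabilizer (Om ≃ₐ[K] Om) x0 := by rw [hst]; exact ⟨g, rfl⟩
        exact h3
      rw [h2, ← hr x', inv_smul_smul]
  · obtain ⟨v, hv⟩ := exists_place_below k K (abK Om u) (abK_ne_top Om u)
    have h1 : below K (w v) = below K (abK Om u) := by rw [hw, hv]
    obtain ⟨g, hg⟩ := exists_tr h1
    refine ⟨v, g⁻¹ • x0, Place.ext' ?_⟩
    rw [hp]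
    set x := g⁻¹ • x0 with hx
    have h2 : r x * g⁻¹ ∈ rg K L Om := by
      rw [← hst, mem_stabilizer_iff, mul_smul, ← hx, hr]
    obtain ⟨h, hh⟩ := h2
    have h3 : wX w r v x = tr h (abK Om u) := by
      rw [← tr_res (K := K), hh, hg, ← tr_mul]
      unfold wX
      congr 1
      group
    rw [h3, below_tr, below_abK]

end Pool.Agent.SmL.Fld
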